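import Pool.Agent.Helper72.AC.Circ

/-! Stronger literal statements (no boxes: pigeonhole on sums). -/

set_option autoImplicit false

namespace Pool.Agent.Helper72.AC

open Finset

/-- (E2) a dense set on an independent set of variables gives many representations -/
def CubeStmt2 : Prop := ∀ (n : ℕ) (A : Set ℕ) (f : (Fin n → Bool) → ℕ) (I : Finset (Fin n))
  (z : Fin n → Bool) (D : Finset (Fin n → Bool)),
  (∀ x ∈ D, f x ≤ num x ∧ f x ∈ A ∧ num x - f x ∈ A) →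
  (∀ i < n, ∃ B : Finset (Fin n), (I ∩ B).card ≤ 1 ∧ ∀ x x', InC I z x → InC I z x' →
    (∀ j ∈ B, x j = x' j) → (f x).testBit i = (f x').testBit i) →
  ∃ m < 2 ^ (n + 1), dens D I z ^ 2 * (4 / 3) ^ I.card ≤ (rep A m : ℝ) ^ 2

/-- (F2) the final theorem -/
def MainStmt2 : Prop := ∀ (d K : ℕ) (ε : ℝ), 0 < ε → ∀ᶠ n : ℕ in Filter.atTop, ∀ (A : Set ℕ)
  (f : ℕ → ℕ), (∀ i < n, Circ n (n ^ K) d fun x => (f (num x)).testBit i) →
  (2 : ℝ) ^ n ≤ (n : ℝ) ^ K * Set.ncard {N | N < 2 ^ n ∧ f N ≤ N ∧ f N ∈ A ∧ N - f N ∈ A} →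
    ∃ m < 2 ^ (n + 1), Real.exp ((n : ℝ) ^ (1 - ε)) ≤ rep A m

end Pool.Agent.Helper72.AC
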