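import Pool.Agent.Helper72.AC.Dens

/-! Constant depth circuits; literal statements of the pieces. -/

set_option autoImplicit false

namespace Pool.Agent.Helper72.AC

open Finset

/-- Boolean functions computed by circuits of depth `d` and fan-in `S`: a gate of level `d + 1`
is the OR of at most `S` gates of level `d` or their negations, or the negation of such an OR;
at level `0` there are the variables and the constants. -/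
def Circ (n S : ℕ) : ℕ → ((Fin n → Bool) → Bool) → Prop
  | 0, g => (∃ i, ∀ x, g x = x i) ∨ ∃ b, ∀ x, g x = b
  | d + 1, g => ∃ (h : Fin S → (Fin n → Bool) → Bool) (s : Fin S → Bool) (t : Bool),
      (∀ j, Circ n S d (h j)) ∧ ∀ x, g x = t ↔ ∃ j, h j x = s j

/-- the number with binary digits `x` -/
def num {n : ℕ} (x : Fin n → Bool) : ℕ := Nat.ofBits x

noncomputable def rep (A : Set ℕ) (n : ℕ) : ℕ :=
  Set.ncard {p : ℕ × ℕ | p.1 ∈ A ∧ p.2 ∈ A ∧ p.1 + p.2 = n}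

/-- (G) depth reduction, to be proved by helper72 -/
def DepthStmt : Prop := ∀ d K Kt Ks m : ℕ, ∃ b e₀ : ℕ, ∀ e ≥ e₀, ∀ n ≤ 2 ^ (e * m),
  ∀ S ≤ 2 ^ (e * Ks), ∀ (τ : Type) (_ : Fintype τ) (G : τ → (Fin n → Bool) → Bool),
  Fintype.card τ ≤ 2 ^ (e * Kt) → (∀ t, Circ n S d (G t)) →
  ∀ (V : Finset (Fin n)) (z : Fin n → Bool) (D : Finset (Fin n → Bool)) (k : ℕ),
  k * 4 ^ (e * d) ≤ V.card →
  ∃ V' ⊆ V, ∃ z', (∀ x, InC V' z' x → InC V z x) ∧ k ≤ V'.card ∧ (∀ t, Jun (G t) V' z' b) ∧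
    dens D V z - d / 2 ^ (e * K) ≤ dens D V' z'

/-- (E) from a dense set on an independent set of variables to representations -/
def CubeStmt : Prop := ∀ (n : ℕ) (A : Set ℕ) (f : (Fin n → Bool) → ℕ) (I : Finset (Fin n))
  (z : Fin n → Bool) (D : Finset (Fin n → Bool)),
  (∀ x ∈ D, f x ≤ num x ∧ f x ∈ A ∧ num x - f x ∈ A) →
  (∀ i < n, ∃ B : Finset (Fin n), (I ∩ B).card ≤ 1 ∧ ∀ x x', InC I z x → InC I z x' →
    (∀ j ∈ B, x j = x' j) → (f x).testBit i = (f x').testBit i) →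
  (∀ (k s : ℕ) (δ : ℝ), k * s ≤ I.card → 0 < δ → δ ≤ 1 → δ ≤ dens D I z →
    (2 / δ) ^ (2 ^ (k + 1)) ≤ 2 ^ s → ∃ m < 2 ^ (n + 1), 2 ^ k ≤ rep A m ^ 2) ∧
  ((∀ x, InC I z x → x ∈ D) → ∃ m < 2 ^ (n + 1), 2 ^ I.card ≤ rep A m ^ 2)

/-- (F) the final theorem -/
def MainStmt : Prop := ∀ (d K : ℕ) (ε : ℝ), 0 < ε → ∀ᶠ n : ℕ in Filter.atTop, ∀ (A : Set ℕ)
  (f : ℕ → ℕ), (∀ i < n, Circ n (n ^ K) d fun x => (f (num x)).testBit i) →
  ((2 : ℝ) ^ n ≤ (n : ℝ) ^ K * Set.ncard {N | N < 2 ^ n ∧ f N ≤ N ∧ f N ∈ A ∧ N - f N ∈ A} →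
    ∃ m < 2 ^ (n + 1), (n : ℝ) ^ (1 / 2 - ε) ≤ rep A m) ∧
  ((∀ N < 2 ^ n, f N ≤ N ∧ f N ∈ A ∧ N - f N ∈ A) →
    ∃ m < 2 ^ (n + 1), Real.exp ((n : ℝ) ^ (1 - ε)) ≤ rep A m)

end Pool.Agent.Helper72.AC
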