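import Pool.Agent.Helper72.AC.Fss
import Pool.Agent.Helper72.AC.Circ

/-! Depth reduction by random restrictions, keeping the density of a set. -/

set_option autoImplicit false

namespace Pool.Agent.Helper72.AC

open Finset

lemma dens_nonneg {n : ℕ} (D : Finset (Fin n → Bool)) (V : Finset (Fin n)) (z : Fin n → Bool) :
    0 ≤ dens D V z := by
  unfold dens
  positivity

lemma card_cube {n : ℕ} (V : Finset (Fin n)) (z : Fin n → Bool) :
    (univ.filter fun x : Fin n → Bool => InC V z x).card = 2 ^ V.card := by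
  classical
  have h := card_pi_bool Vᶜ z
  have h1 : (univ.filter fun ρ : Fin n → Bool => ∀ i ∈ Vᶜ, ρ i = z i) =
      univ.filter fun x : Fin n → Bool => InC V z x := by
    ext x
    rw [Finset.mem_filter, Finset.mem_filter]
    refine and_congr_right fun _ => ?_
    unfold InC
    simp only [Finset.mem_compl]
  rw [h1, Finset.card_compl, Fintype.card_fin] at h
  have hV : V.card ≤ n := by
    have := Finset.card_le_univ V
    rwa [Fintype.card_fin] at this
  have h2 : 2 ^ n = 2 ^ V.card * 2 ^ (n - V.card) := by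
    rw [← pow_add]
    congr 1
    omega
  rw [h2] at h
  exact Nat.eq_of_mul_eq_mul_right (by positivity) h

lemma dens_le_one {n : ℕ} (D : Finset (Fin n → Bool)) (V : Finset (Fin n)) (z : Fin n → Bool) :
    dens D V z ≤ 1 := by
  unfold dens
  rw [div_le_one (by positivity)]
  have h : (D.filter fun x => InC V z x).card ≤ 2 ^ V.card := by
    rw [← card_cube V z]
    exact Finset.card_le_card (Finset.filter_subset_filter _ (Finset.subset_univ _))
  exact_mod_cast h

lemma Jun.of_not {n : ℕ} {F : (Fin n → Bool) → Bool} {V : Finset (Fin n)} {z : Fin n → Bool}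
    {b : ℕ} (h : Jun (fun x => !(F x)) V z b) : Jun F V z b := by
  obtain ⟨B, h1, h2, h3⟩ := h
  refine ⟨B, h1, h2, fun x x' hx hx' he => ?_⟩
  have := h3 x x' hx hx' he
  simpa using this

open Classical in
/-- one level -/
theorem stage (c K Kt m : ℕ) : ∃ b e₀ : ℕ, ∀ e ≥ e₀, ∀ n ≤ 2 ^ (e * m),
    ∀ (τ : Type) (_ : Fintype τ) (G : τ → (Fin n → Bool) → Bool),
    Fintype.card τ ≤ 2 ^ (e * Kt) →
    ∀ (V : Finset (Fin n)) (z : Fin n → Bool) (D : Finset (Fin n → Bool)) (k : ℕ),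
    (∀ t, Cert (G t) V z c ∨ Cert (fun x => !(G t x)) V z c) →
    k * 4 ^ e ≤ V.card →
    ∃ V' ⊆ V, ∃ z', (∀ x, InC V' z' x → InC V z x) ∧ k ≤ V'.card ∧ (∀ t, Jun (G t) V' z' b) ∧
      dens D V z - 1 / 2 ^ (e * K) ≤ dens D V' z' := by
  obtain ⟨b, e₁, hb⟩ := fss c (K + Kt + 3)
  obtain ⟨e₂, he₂⟩ := exists_big (m + K + 3)
  refine ⟨b, max e₁ e₂, fun e he n hn τ _ G hτ V z D k hG hk => ?_⟩
  have hee₁ : e₁ ≤ e := le_of_max_le_left he
  obtain ⟨he1, hbig⟩ := he₂ e (le_of_max_le_right he)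
  set N : ℝ := ((Fintype.card (Om n (2 ^ e)) : ℕ) : ℝ) with hN
  have hNpos : 0 < N := by
    rw [hN, card_Om]
    positivity
  -- the bad restrictions
  set bad : Finset (Om n (2 ^ e)) :=
    (univ.filter fun ω : Om n (2 ^ e) => (nV V ω.1).card < k) ∪
      univ.biUnion fun t : τ => univ.filter fun ω : Om n (2 ^ e) =>
        ¬ Jun (G t) (nV V ω.1) (nz V z ω.2) b with hbad
  have hgood : ∀ ω, ω ∉ bad → k ≤ (nV V ω.1).card ∧ ∀ t, Jun (G t) (nV V ω.1) (nz V z ω.2) b := by
    intro ω hω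
    rw [hbad, Finset.mem_union] at hω
    push Not at hω
    constructor
    · by_contra h
      push Not at h
      exact hω.1 (Finset.mem_filter.2 ⟨Finset.mem_univ _, h⟩)
    · intro t
      by_contra h
      exact hω.2 (Finset.mem_biUnion.2 ⟨t, Finset.mem_univ _,
        Finset.mem_filter.2 ⟨Finset.mem_univ _, h⟩⟩)
  have hA : ((univ.filter fun ω : Om n (2 ^ e) => (nV V ω.1).card < k).card : ℝ) ≤
      N / 2 ^ (e * (K + 3)) := by
    have h1 := few_total (n := n) (Q := 2 ^ e) (by positivity) (4 ^ e) k V hk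
    have h2 := one_sub_pow_le (2 ^ e) (by positivity)
    have hQ1 : (1 : ℝ) ≤ ((2 ^ e : ℕ) : ℝ) := by
      have : 1 ≤ 2 ^ e := Nat.one_le_two_pow
      exact_mod_cast this
    have h0 : (0 : ℝ) ≤ 1 - 1 / ((2 ^ e : ℕ) : ℝ) := by
      have : 1 / ((2 ^ e : ℕ) : ℝ) ≤ 1 := by
        rw [div_le_one (by linarith)]
        exact hQ1
      linarith
    have h3 : (1 - 1 / ((2 ^ e : ℕ) : ℝ)) ^ (4 ^ e) ≤ (1 / 2) ^ (2 ^ e) := by
      have e1 : 4 ^ e = 2 ^ e * 2 ^ e := by rw [← mul_pow]; norm_num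
      rw [e1, pow_mul]
      exact pow_le_pow_left₀ (pow_nonneg h0 _) h2 _
    have hkn : (k : ℝ) ≤ 2 ^ (e * m) := by
      have h4 : k ≤ V.card := (Nat.le_mul_of_pos_right _ (by positivity)).trans hk
      have h5 : V.card ≤ n := by
        have := Finset.card_le_univ V
        rwa [Fintype.card_fin] at this
      exact_mod_cast (h4.trans h5).trans hn
    have h6 : e * m + e * (K + 3) ≤ 2 ^ e := by
      calc e * m + e * (K + 3) = (m + K + 3) * e := by ring
        _ ≤ ((m + K + 3) * e) ^ 2 := Nat.le_self_pow (by norm_num) _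
        _ ≤ 2 ^ e := hbig
    have h7 : (2 : ℝ) ^ (e * m) * (1 / 2) ^ (2 ^ e) ≤ 1 / 2 ^ (e * (K + 3)) := by
      rw [one_div_pow, mul_one_div, div_le_div_iff₀ (by positivity) (by positivity), one_mul,
        ← pow_add]
      exact pow_le_pow_right₀ (by norm_num) h6
    calc _ ≤ k * (1 - 1 / ((2 ^ e : ℕ) : ℝ)) ^ (4 ^ e) * N := h1
      _ ≤ 2 ^ (e * m) * (1 / 2) ^ (2 ^ e) * N := by
          refine mul_le_mul_of_nonneg_right ?_ hNpos.le
          exact mul_le_mul hkn h3 (pow_nonneg h0 _) (by positivity)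
      _ ≤ 1 / 2 ^ (e * (K + 3)) * N := mul_le_mul_of_nonneg_right h7 hNpos.le
      _ = _ := by ring
  have hB : ∀ t, ((univ.filter fun ω : Om n (2 ^ e) =>
      ¬ Jun (G t) (nV V ω.1) (nz V z ω.2) b).card : ℝ) ≤ N / 2 ^ (e * (K + Kt + 3)) := by
    intro t
    rw [le_div_iff₀ (by positivity)]
    rcases hG t with h | h
    · exact hb e hee₁ n (G t) V z h
    · refine le_trans ?_ (hb e hee₁ n _ V z h)
      refine mul_le_mul_of_nonneg_right ?_ (by positivity)
      refine Nat.cast_le.2 (Finset.card_le_card fun ω hω => ?_)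
      rw [Finset.mem_filter] at hω ⊢
      exact ⟨hω.1, fun hh => hω.2 hh.of_not⟩
  have hbadc : (bad.card : ℝ) ≤ 2 * (N / 2 ^ (e * (K + 3))) := by
    have h1 : bad.card ≤ (univ.filter fun ω : Om n (2 ^ e) => (nV V ω.1).card < k).card +
        ∑ t : τ, (univ.filter fun ω : Om n (2 ^ e) =>
          ¬ Jun (G t) (nV V ω.1) (nz V z ω.2) b).card :=
      (Finset.card_union_le _ _).trans (Nat.add_le_add_left Finset.card_biUnion_le _)
    have h2 : (bad.card : ℝ) ≤
        ((univ.filter fun ω : Om n (2 ^ e) => (nV V ω.1).card < k).card : ℝ) +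
        ∑ t : τ, ((univ.filter fun ω : Om n (2 ^ e) =>
          ¬ Jun (G t) (nV V ω.1) (nz V z ω.2) b).card : ℝ) := by
      exact_mod_cast h1
    have h3 : ∑ t : τ, ((univ.filter fun ω : Om n (2 ^ e) =>
          ¬ Jun (G t) (nV V ω.1) (nz V z ω.2) b).card : ℝ) ≤ N / 2 ^ (e * (K + 3)) := by
      refine (Finset.sum_le_sum fun t _ => hB t).trans ?_
      rw [Finset.sum_const, nsmul_eq_mul, Finset.card_univ]
      have h4 : ((Fintype.card τ : ℕ) : ℝ) ≤ 2 ^ (e * Kt) := by exact_mod_cast hτ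
      have h5 : (2 : ℝ) ^ (e * (K + Kt + 3)) = 2 ^ (e * Kt) * 2 ^ (e * (K + 3)) := by
        rw [← pow_add]
        congr 1
        ring
      calc _ ≤ (2 : ℝ) ^ (e * Kt) * (N / 2 ^ (e * (K + Kt + 3))) :=
            mul_le_mul_of_nonneg_right h4 (by positivity)
        _ = _ := by
            rw [h5]
            field_simp
    linarith
  -- the choice
  set β : ℝ := 1 / 2 ^ (e * K) with hβ
  have hβ0 : 0 < β := by positivity
  have hβ1 : β ≤ 1 := by
    rw [hβ, div_le_one (by positivity)]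
    exact one_le_pow₀ (by norm_num)
  have hbadβ : (bad.card : ℝ) < N * β / 2 := by
    have h1 : (2 : ℝ) ^ (e * (K + 3)) = 2 ^ (e * K) * 2 ^ (e * 3) := by
      rw [← pow_add]
      congr 1
      ring
    have h2 : (8 : ℝ) ≤ 2 ^ (e * 3) := by
      calc (8 : ℝ) = 2 ^ (1 * 3) := by norm_num
        _ ≤ 2 ^ (e * 3) := pow_le_pow_right₀ (by norm_num) (Nat.mul_le_mul_right _ he1)
    have h3 : 2 * (N / 2 ^ (e * (K + 3))) ≤ N * β / 4 := by
      rw [h1, hβ]
      have : 2 * (N / (2 ^ (e * K) * 2 ^ (e * 3))) = N * (1 / 2 ^ (e * K)) * (2 / 2 ^ (e * 3)) := by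
        field_simp
      rw [this]
      have h4 : (2 : ℝ) / 2 ^ (e * 3) ≤ 1 / 4 := by
        rw [div_le_div_iff₀ (by positivity) (by norm_num)]
        linarith
      calc _ ≤ N * (1 / 2 ^ (e * K)) * (1 / 4) := mul_le_mul_of_nonneg_left h4 (by positivity)
        _ = _ := by ring
    have h5 : 0 < N * β := by positivity
    linarith
  by_contra hcon
  push Not at hcon
  have hlt : ∀ ω, ω ∉ bad → dens D (nV V ω.1) (nz V z ω.2) < dens D V z - β := by
    intro ω hω
    obtain ⟨h1, h2⟩ := hgood ω hω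
    exact hcon _ (nV_sub V ω.1) _ (fun x hx => hx.up) h1 h2
  have hsum := avg_dens (Q := 2 ^ e) D V z
  have hle : ∑ ω : Om n (2 ^ e), dens D (nV V ω.1) (nz V z ω.2) ≤
      ∑ ω : Om n (2 ^ e), ((dens D V z - β) + if ω ∈ bad then (1 - (dens D V z - β)) else 0) := by
    refine Finset.sum_le_sum fun ω _ => ?_
    split_ifs with h
    · have := dens_le_one D (nV V ω.1) (nz V z ω.2)
      linarith
    · have := hlt ω h
      linarith
  rw [hsum, Finset.sum_add_distrib, Finset.sum_const, nsmul_eq_mul, Finset.card_univ,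
    Finset.sum_ite_mem, Finset.univ_inter, Finset.sum_const, nsmul_eq_mul] at hle
  have h0 := dens_nonneg D V z
  have h8 : (bad.card : ℝ) * (1 - (dens D V z - β)) ≤ bad.card * 2 :=
    mul_le_mul_of_nonneg_left (by linarith) (Nat.cast_nonneg _)
  have h9 : N * dens D V z ≤ N * (dens D V z - β) + bad.card * 2 := by
    calc N * dens D V z ≤ _ := hle
      _ ≤ _ := by linarith
  nlinarith

lemma cert_of_children {n S b : ℕ} {F : (Fin n → Bool) → Bool} {V : Finset (Fin n)}
    {z : Fin n → Bool} {h : Fin S → (Fin n → Bool) → Bool} {s : Fin S → Bool} {t : Bool}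
    (hF : ∀ x, F x = t ↔ ∃ j, h j x = s j) (hj : ∀ j, Jun (h j) V z b) :
    Cert F V z b ∨ Cert (fun x => !(F x)) V z b := by
  have key : ∀ x, InC V z x → F x = t → ∃ B ⊆ V, B.card ≤ b ∧
      ∀ x', InC V z x' → (∀ i ∈ B, x' i = x i) → F x' = t := by
    intro x hx hFx
    obtain ⟨j, hjx⟩ := (hF x).1 hFx
    obtain ⟨B, h1, h2, h3⟩ := hj j
    refine ⟨B, h1, h2, fun x' hx' he => (hF x').2 ⟨j, ?_⟩⟩
    rw [h3 x' x hx' hx he]
    exact hjx
  cases t with
  | true => exact Or.inl key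
  | false =>
    right
    intro x hx hFx
    have h1 : F x = false := by simpa using hFx
    obtain ⟨B, h2, h3, h4⟩ := key x hx h1
    refine ⟨B, h2, h3, fun x' hx' he => ?_⟩
    simpa using h4 x' hx' he

theorem depthStmt : DepthStmt := by
  intro d
  induction d with
  | zero =>
    intro K Kt Ks m
    refine ⟨1, 0, fun e _ n _ S _ τ _ G _ hG V z D k hk => ?_⟩
    refine ⟨V, Finset.Subset.refl _, z, fun _ h => h, ?_, fun t => ?_, ?_⟩
    · simpa using hk
    · rcases hG t with ⟨i, hi⟩ | ⟨b, hb⟩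
      · by_cases hiV : i ∈ V
        · refine ⟨{i}, Finset.singleton_subset_iff.2 hiV, by simp, fun x x' _ _ he => ?_⟩
          rw [hi, hi]
          exact he i (Finset.mem_singleton_self _)
        · refine ⟨∅, Finset.empty_subset _, by simp, fun x x' hx hx' _ => ?_⟩
          rw [hi, hi, hx i hiV, hx' i hiV]
      · exact ⟨∅, Finset.empty_subset _, by simp, fun x x' _ _ _ => by rw [hb, hb]⟩
    · simp
  | succ d ih =>
    intro K Kt Ks m
    obtain ⟨b₁, e₁, h₁⟩ := ih K (Kt + Ks) Ks m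
    obtain ⟨b, e₂, h₂⟩ := stage b₁ K Kt m
    refine ⟨b, max e₁ e₂, fun e he n hn S hS τ hτ' G hτ hG V z D k hk => ?_⟩
    have hG' : ∀ t, ∃ (h : Fin S → (Fin n → Bool) → Bool) (s : Fin S → Bool) (t' : Bool),
      (∀ j, Circ n S d (h j)) ∧ ∀ x, G t x = t' ↔ ∃ j, h j x = s j := hG
    choose h s t' hh hx using hG'
    have hcard : Fintype.card (τ × Fin S) ≤ 2 ^ (e * (Kt + Ks)) := by
      rw [Fintype.card_prod, Fintype.card_fin]
      calc _ ≤ 2 ^ (e * Kt) * 2 ^ (e * Ks) := Nat.mul_le_mul hτ hS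
        _ = _ := by rw [← pow_add]; congr 1; ring
    have hk1 : (k * 4 ^ e) * 4 ^ (e * d) ≤ V.card := by
      have : (k * 4 ^ e) * 4 ^ (e * d) = k * 4 ^ (e * (d + 1)) := by
        rw [mul_assoc, ← pow_add]
        congr 2
        ring
      rw [this]
      exact hk
    obtain ⟨V₁, hV₁, z₁, hz₁, hc₁, hJ₁, hd₁⟩ := h₁ e (le_of_max_le_left he) n hn S hS (τ × Fin S)
      inferInstance (fun p => h p.1 p.2) hcard (fun p => hh p.1 p.2) V z D (k * 4 ^ e) hk1
    obtain ⟨V₂, hV₂, z₂, hz₂, hc₂, hJ₂, hd₂⟩ := h₂ e (le_of_max_le_right he) n hn τ hτ' G hτ V₁ z₁ D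
      k (fun t => cert_of_children (hx t) fun j => hJ₁ (t, j)) hc₁
    refine ⟨V₂, hV₂.trans hV₁, z₂, fun x hx' => hz₁ x (hz₂ x hx'), hc₂, hJ₂, ?_⟩
    have : ((d + 1 : ℕ) : ℝ) / 2 ^ (e * K) = d / 2 ^ (e * K) + 1 / 2 ^ (e * K) := by
      push_cast
      ring
    linarith

end Pool.Agent.Helper72.AC
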