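import Pool.Agent.Helper72.AC.Sens

/-! Sensitivity to the addition of powers of two. -/

set_option autoImplicit false

namespace Pool.Agent.Helper72.AC

open Finset Filter

lemma num_eq_sum : ∀ {n : ℕ} (x : Fin n → Bool),
    num x = ∑ i : Fin n, if x i = true then 2 ^ i.val else 0
  | 0, x => by simp [num]
  | n + 1, x => by
    have ih := num_eq_sum (x ∘ Fin.succ)
    unfold num at ih ⊢
    rw [Nat.ofBits_succ, ih, Fin.sum_univ_succ, Finset.mul_sum, add_comm]
    congr 1
    · cases x 0 <;> simp
    · refine Finset.sum_congr rfl fun i _ => ?_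
      simp only [Function.comp_apply, Fin.val_succ, mul_ite, mul_zero]
      split_ifs
      · rw [pow_succ, mul_comm]
      · rfl

lemma num_flip_false {n : ℕ} {x : Fin n → Bool} {j : Fin n} (h : x j = false) :
    num (flip x j) = num x + 2 ^ j.val := by
  rw [num_eq_sum, num_eq_sum, ← Finset.add_sum_erase _ _ (Finset.mem_univ j),
    ← Finset.add_sum_erase (a := j) univ (fun i : Fin n => if x i = true then 2 ^ i.val else 0)
      (Finset.mem_univ j)]
  have h1 : ∀ i ∈ univ.erase j, (if flip x j i = true then 2 ^ i.val else 0) =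
      if x i = true then 2 ^ i.val else 0 := by
    intro i hi
    rw [flip, Function.update_of_ne (Finset.ne_of_mem_erase hi)]
  rw [Finset.sum_congr rfl h1, flip, Function.update_self, h]
  simp
  ring

lemma flip_flip {n : ℕ} (x : Fin n → Bool) (j : Fin n) : flip (flip x j) j = x := by
  funext i
  by_cases h : i = j
  · subst h
    simp [flip]
  · simp [flip, Function.update_of_ne h]

/-- addition of `2 ^ j` with carries; `r = n - j` -/
def addP {n : ℕ} : (r : ℕ) → r ≤ n → (Fin n → Bool) → (Fin n → Bool)
  | 0, _, x => x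
  | r + 1, h, x =>
    if x ⟨n - (r + 1), by omega⟩ = false then flip x ⟨n - (r + 1), by omega⟩
    else addP r (by omega) (flip x ⟨n - (r + 1), by omega⟩)

lemma num_lt' {n : ℕ} (x : Fin n → Bool) : num x < 2 ^ n := Nat.ofBits_lt_two_pow x

lemma num_addP {n : ℕ} : ∀ (r : ℕ) (h : r ≤ n) (x : Fin n → Bool),
    num (addP r h x) = (num x + 2 ^ (n - r)) % 2 ^ n
  | 0, _, x => by
    rw [addP, Nat.sub_zero, Nat.add_mod_right, Nat.mod_eq_of_lt (num_lt' x)]
  | r + 1, h, x => by
    rw [addP]
    split_ifs with hx
    · have h1 := num_flip_false hx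
      have h2 := num_lt' (flip x ⟨n - (r + 1), by omega⟩)
      rw [h1] at h2
      rw [h1, Nat.mod_eq_of_lt h2]
    · rw [num_addP r (by omega)]
      set j : Fin n := ⟨n - (r + 1), by omega⟩ with hj
      have hfx : flip x j j = false := by
        have : x j = true := by simpa using hx
        rw [flip, Function.update_self, this]
        rfl
      have h1 := num_flip_false hfx
      rw [flip_flip] at h1
      rw [h1]
      congr 1
      have h3 : (2 : ℕ) ^ (n - r) = 2 ^ (n - (r + 1)) + 2 ^ (n - (r + 1)) := by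
        rw [← two_mul, ← pow_succ']
        congr 1
        omega
      rw [h3]
      show num (flip x j) + _ = _
      rw [show (j : Fin n).val = n - (r + 1) from rfl]
      ring

lemma addP_of_lt {n : ℕ} : ∀ (r : ℕ) (h : r ≤ n) (x : Fin n → Bool) (i : Fin n),
    i.val < n - r → addP r h x i = x i
  | 0, _, x, i, _ => rfl
  | r + 1, h, x, i, hi => by
    have hne : i ≠ ⟨n - (r + 1), by omega⟩ := fun hh => by
      rw [hh] at hi
      simp at hi
    rw [addP]
    split_ifs
    · rw [flip, Function.update_of_ne hne]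
    · rw [addP_of_lt r (by omega) _ i (by omega), flip, Function.update_of_ne hne]

/-- the number of flips of `g` at position `j` -/
def sn {n : ℕ} (g : (Fin n → Bool) → Bool) (j : ℕ) : ℕ :=
  if h : j < n then (univ.filter fun x : Fin n → Bool => g x ≠ g (flip x ⟨j, h⟩)).card else 0

lemma add_step {n : ℕ} (g : (Fin n → Bool) → Bool) : ∀ (R r : ℕ) (h : r ≤ n) (Z : Finset (Fin n)),
    (∀ i ∈ Z, i.val < n - r) →
    (univ.filter fun x : Fin n → Bool => (∀ i ∈ Z, x i = false) ∧ g x ≠ g (addP r h x)).card *
      2 ^ (Z.card + R) ≤ (∑ k ∈ range R, sn g (n - r + k)) * 2 ^ (Z.card + R) + 2 ^ n := by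
  classical
  intro R
  induction R with
  | zero =>
    intro r h Z _
    rw [Finset.sum_range_zero, zero_mul, zero_add, add_zero]
    have h1 := card_pi_bool Z (fun _ => false)
    calc _ ≤ (univ.filter fun ρ : Fin n → Bool => ∀ i ∈ Z, ρ i = false).card * 2 ^ Z.card := by
          refine Nat.mul_le_mul_right _ (Finset.card_le_card fun x hx => ?_)
          rw [Finset.mem_filter] at hx ⊢
          exact ⟨hx.1, hx.2.1⟩
      _ = _ := h1
  | succ R ih =>
    intro r h Z hZ
    cases r with
    | zero =>
      have h1 : (univ.filter fun x : Fin n → Bool =>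
          (∀ i ∈ Z, x i = false) ∧ g x ≠ g (addP 0 h x)) = ∅ := by
        refine Finset.filter_eq_empty_iff.2 fun x _ hx => ?_
        exact hx.2 (by rw [addP])
      rw [h1, Finset.card_empty, zero_mul]
      exact Nat.zero_le _
    | succ r =>
      set j : Fin n := ⟨n - (r + 1), by omega⟩ with hj
      have hjZ : j ∉ Z := fun hh => by
        have := hZ j hh
        rw [hj] at this
        simp at this
      have ih' := ih r (by omega) (insert j Z) (by
        intro i hi
        rcases Finset.mem_insert.1 hi with rfl | hi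
        · rw [hj]
          simp only
          omega
        · have := hZ i hi
          omega)
      rw [Finset.card_insert_of_notMem hjZ] at ih'
      -- splitting
      have hinj : Function.Injective fun x : Fin n → Bool => flip x j := by
        intro x y hxy
        have := congrArg (fun w => flip w j) hxy
        simpa [flip_flip] using this
      have hsub : (univ.filter fun x : Fin n → Bool =>
          (∀ i ∈ Z, x i = false) ∧ g x ≠ g (addP (r + 1) h x)) ⊆
          (univ.filter fun x : Fin n → Bool => g x ≠ g (flip x j)) ∪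
          ((univ.filter fun x : Fin n → Bool =>
            (∀ i ∈ insert j Z, x i = false) ∧ g x ≠ g (addP r (by omega) x)).image
              fun x => flip x j) := by
        intro x hx
        rw [Finset.mem_filter] at hx
        obtain ⟨_, hxZ, hxg⟩ := hx
        rw [Finset.mem_union]
        by_cases hs : g x ≠ g (flip x j)
        · exact Or.inl (Finset.mem_filter.2 ⟨Finset.mem_univ _, hs⟩)
        · right
          push Not at hs
          rw [addP] at hxg
          split_ifs at hxg with hxj
          · exact absurd hs hxg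
          · rw [Finset.mem_image]
            refine ⟨flip x j, Finset.mem_filter.2 ⟨Finset.mem_univ _, fun i hi => ?_, ?_⟩,
              flip_flip x j⟩
            · rcases Finset.mem_insert.1 hi with rfl | hi
              · have : x j = true := by simpa using hxj
                rw [flip, Function.update_self, this]
                rfl
              · have hne : i ≠ j := fun hh => hjZ (hh ▸ hi)
                rw [flip, Function.update_of_ne hne]
                exact hxZ i hi
            · rw [← hs]
              exact hxg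
      have hcard := (Finset.card_le_card hsub).trans (Finset.card_union_le _ _)
      rw [Finset.card_image_of_injective _ hinj] at hcard
      have hsn : sn g (n - (r + 1)) =
          (univ.filter fun x : Fin n → Bool => g x ≠ g (flip x j)).card := by
        unfold sn
        rw [dif_pos (by omega)]
      rw [← hsn] at hcard
      have hsum : ∑ k ∈ range (R + 1), sn g (n - (r + 1) + k) =
          (∑ k ∈ range R, sn g (n - r + k)) + sn g (n - (r + 1)) := by
        rw [Finset.sum_range_succ']
        congr 1
        refine Finset.sum_congr rfl fun k _ => ?_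
        congr 1
        omega
      rw [hsum]
      have he : Z.card + 1 + R = Z.card + (R + 1) := by ring
      rw [he] at ih'
      calc _ ≤ (sn g (n - (r + 1)) + (univ.filter fun x : Fin n → Bool =>
            (∀ i ∈ insert j Z, x i = false) ∧ g x ≠ g (addP r (by omega) x)).card) *
              2 ^ (Z.card + (R + 1)) := Nat.mul_le_mul_right _ hcard
        _ = sn g (n - (r + 1)) * 2 ^ (Z.card + (R + 1)) + (univ.filter fun x : Fin n → Bool =>
            (∀ i ∈ insert j Z, x i = false) ∧ g x ≠ g (addP r (by omega) x)).card *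
              2 ^ (Z.card + (R + 1)) := by ring
        _ ≤ sn g (n - (r + 1)) * 2 ^ (Z.card + (R + 1)) +
            ((∑ k ∈ range R, sn g (n - r + k)) * 2 ^ (Z.card + (R + 1)) + 2 ^ n) :=
              Nat.add_le_add_left ih' _
        _ = _ := by ring

/-- additive sensitivity is bounded by the sensitivity, up to the number of carries -/
lemma add_total {n : ℕ} (g : (Fin n → Bool) → Bool) (R : ℕ) :
    (∑ r ∈ range n, (univ.filter fun x : Fin n → Bool =>
      ∃ h : r + 1 ≤ n, g x ≠ g (addP (r + 1) h x)).card) * 2 ^ R ≤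
      R * (∑ j : Fin n, (univ.filter fun x : Fin n → Bool => g x ≠ g (flip x j)).card) * 2 ^ R +
        n * 2 ^ n := by
  classical
  have hsn : ∑ j : Fin n, (univ.filter fun x : Fin n → Bool => g x ≠ g (flip x j)).card =
      ∑ j ∈ range n, sn g j := by
    rw [Finset.sum_range]
    refine Finset.sum_congr rfl fun j _ => ?_
    unfold sn
    rw [dif_pos j.2]
  have hsn2 : ∀ k, ∑ r ∈ range n, sn g (n - (r + 1) + k) ≤ ∑ j ∈ range n, sn g j := by
    intro k
    rw [← Finset.sum_range_reflect (fun j => sn g j) n]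
    have h0 : ∀ m, n ≤ m → sn g m = 0 := fun m hm => by
      unfold sn
      rw [dif_neg (by omega)]
    have h1 : ∑ r ∈ range n, sn g (n - (r + 1) + k) = ∑ j ∈ range n, sn g (j + k) := by
      rw [← Finset.sum_range_reflect (fun j => sn g (j + k)) n]
      refine Finset.sum_congr rfl fun r _ => ?_
      congr 1
      omega
    rw [h1, Finset.sum_range_reflect (fun j => sn g j) n]
    have h2 : ∑ j ∈ range n, sn g (j + k) = ∑ j ∈ Finset.Ico k (n + k), sn g j := by
      rw [Finset.sum_Ico_eq_sum_range]
      rw [Nat.add_sub_cancel]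
      refine Finset.sum_congr rfl fun j _ => ?_
      rw [add_comm]
    rw [h2]
    have h3 : ∑ j ∈ Finset.Ico k (n + k), sn g j ≤ ∑ j ∈ range (n + k), sn g j :=
      Finset.sum_le_sum_of_subset fun j hj => by
        rw [Finset.mem_Ico] at hj
        exact Finset.mem_range.2 hj.2
    refine h3.trans ?_
    rw [Finset.sum_range_add]
    have h4 : ∑ x ∈ range k, sn g (n + x) = 0 :=
      Finset.sum_eq_zero fun x _ => h0 _ (by omega)
    rw [h4, add_zero]
  have hstep : ∀ r ∈ range n, (univ.filter fun x : Fin n → Bool =>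
      ∃ h : r + 1 ≤ n, g x ≠ g (addP (r + 1) h x)).card * 2 ^ R ≤
        (∑ k ∈ range R, sn g (n - (r + 1) + k)) * 2 ^ R + 2 ^ n := by
    intro r hr
    have hr' : r + 1 ≤ n := Finset.mem_range.1 hr
    have h1 := add_step g R (r + 1) hr' ∅ (by simp)
    rw [Finset.card_empty, zero_add] at h1
    refine le_trans (Nat.mul_le_mul_right _ (Finset.card_le_card fun x hx => ?_)) h1
    rw [Finset.mem_filter] at hx ⊢
    obtain ⟨h2, h3, h4⟩ := hx
    exact ⟨h2, by simp, h4⟩
  rw [Finset.sum_mul]
  refine (Finset.sum_le_sum hstep).trans ?_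
  rw [Finset.sum_add_distrib, Finset.sum_const, Finset.card_range, smul_eq_mul, ← Finset.sum_mul,
    Finset.sum_comm, hsn]
  refine Nat.add_le_add_right (Nat.mul_le_mul_right _ ?_) _
  calc ∑ k ∈ range R, ∑ r ∈ range n, sn g (n - (r + 1) + k) ≤
        ∑ k ∈ range R, ∑ j ∈ range n, sn g j := Finset.sum_le_sum fun k _ => hsn2 k
    _ = _ := by rw [Finset.sum_const, Finset.card_range, smul_eq_mul]

/-- the binary digits of `N` -/
def bits (n N : ℕ) : Fin n → Bool := fun i => N.testBit i

lemma num_bits {n N : ℕ} (h : N < 2 ^ n) : num (bits n N) = N := by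
  unfold num bits
  rw [Nat.ofBits_testBit, Nat.mod_eq_of_lt h]

lemma bits_num {n : ℕ} (x : Fin n → Bool) : bits n (num x) = x := by
  funext i
  unfold num bits
  exact Nat.testBit_ofBits_lt x i i.2

/-- Functions with small constant depth circuits are insensitive to the addition of powers of
two. -/
theorem add_sens (d K : ℕ) (ε : ℝ) (hε : 0 < ε) : ∀ᶠ n : ℕ in atTop,
    ∀ g : (Fin n → Bool) → Bool, Circ n (n ^ K) d g →
    (∑ j ∈ range n, (((range (2 ^ n)).filter fun N =>
      g (bits n N) ≠ g (bits n ((N + 2 ^ j) % 2 ^ n))).card : ℝ)) ≤ (n : ℝ) ^ ε * 2 ^ n := by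
  classical
  have hlog : ∀ᶠ n : ℕ in atTop, (Nat.size n : ℝ) * (n : ℝ) ^ (ε / 2) + 1 ≤ (n : ℝ) ^ ε := by
    have h1 : ∀ᶠ n : ℕ in atTop, (Nat.size n : ℝ) + 1 ≤ (n : ℝ) ^ (ε / 2) := by
      have h2 := Pool.Agent.Helper45.AC.ev_log 3 2 (ε / 2) (by linarith)
      filter_upwards [h2, eventually_ge_atTop 1] with n hn hn1
      have h3 : (Nat.size n : ℝ) ≤ 2 + 2 * Real.log n := by
        have h4 : 2 ^ (Nat.size n - 1) ≤ n := by
          have h5 : Nat.size n - 1 < Nat.size n := by
            have : 0 < Nat.size n := Nat.size_pos.2 hn1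
            omega
          exact Nat.lt_size.1 h5
        have h6 : ((2 : ℝ) ^ (Nat.size n - 1)) ≤ n := by exact_mod_cast h4
        have h7 := Real.log_le_log (by positivity) h6
        rw [Real.log_pow] at h7
        have h8 : (1 : ℝ) / 2 ≤ Real.log 2 := by
          have := Real.log_two_gt_d9
          linarith
        have h9 : ((Nat.size n - 1 : ℕ) : ℝ) ≥ (Nat.size n : ℝ) - 1 := by
          have : Nat.size n ≤ (Nat.size n - 1) + 1 := by omega
          have h10 : (Nat.size n : ℝ) ≤ ((Nat.size n - 1 : ℕ) : ℝ) + 1 := by exact_mod_cast this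
          linarith
        have h11 : (0 : ℝ) ≤ ((Nat.size n - 1 : ℕ) : ℝ) := Nat.cast_nonneg _
        nlinarith
      linarith
    filter_upwards [h1, eventually_ge_atTop 1] with n hn hn1
    have hn0 : (1 : ℝ) ≤ n := by exact_mod_cast hn1
    have h2 : (1 : ℝ) ≤ (n : ℝ) ^ (ε / 2) := Real.one_le_rpow hn0 (by linarith)
    have h3 : (n : ℝ) ^ ε = (n : ℝ) ^ (ε / 2) * (n : ℝ) ^ (ε / 2) := by
      rw [← Real.rpow_add (by linarith)]
      congr 1
      ring
    rw [h3]
    nlinarith
  filter_upwards [sens d K (ε / 2) (by linarith), hlog] with n hn hl g hg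
  have h1 := hn g hg
  have h2 := add_total g (Nat.size n)
  -- compare the two counts
  have hcmp : (∑ j ∈ range n, ((range (2 ^ n)).filter fun N =>
      g (bits n N) ≠ g (bits n ((N + 2 ^ j) % 2 ^ n))).card) ≤
      ∑ r ∈ range n, (univ.filter fun x : Fin n → Bool =>
        ∃ h : r + 1 ≤ n, g x ≠ g (addP (r + 1) h x)).card := by
    rw [← Finset.sum_range_reflect]
    refine Finset.sum_le_sum fun r hr => ?_
    have hr' : r + 1 ≤ n := Finset.mem_range.1 hr
    refine Finset.card_le_card_of_injOn (fun N => bits n N) ?_ ?_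
    · intro N hN
      rw [Finset.mem_coe, Finset.mem_filter, Finset.mem_range] at hN
      rw [Finset.mem_coe, Finset.mem_filter]
      refine ⟨Finset.mem_univ _, hr', ?_⟩
      have h3 : addP (r + 1) hr' (bits n N) = bits n ((N + 2 ^ (n - 1 - r)) % 2 ^ n) := by
        rw [← bits_num (addP (r + 1) hr' (bits n N)), num_addP, num_bits hN.1]
        congr 4
        omega
      rw [h3]
      exact hN.2
    · intro N hN N' hN' he
      rw [Finset.mem_coe, Finset.mem_filter, Finset.mem_range] at hN hN'
      have := congrArg num he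
      simp only at this
      rwa [num_bits hN.1, num_bits hN'.1] at this
  have h3 : ((∑ j ∈ range n, ((range (2 ^ n)).filter fun N =>
      g (bits n N) ≠ g (bits n ((N + 2 ^ j) % 2 ^ n))).card : ℕ) : ℝ) * 2 ^ Nat.size n ≤
      ((Nat.size n : ℝ) * ((n : ℝ) ^ (ε / 2) * 2 ^ n)) * 2 ^ Nat.size n + n * 2 ^ n := by
    have h4 : ((∑ j ∈ range n, ((range (2 ^ n)).filter fun N =>
      g (bits n N) ≠ g (bits n ((N + 2 ^ j) % 2 ^ n))).card : ℕ) : ℝ) * 2 ^ Nat.size n ≤
      ((Nat.size n : ℝ) * (∑ j : Fin n,
        ((univ.filter fun x : Fin n → Bool => g x ≠ g (flip x j)).card : ℝ))) *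
          2 ^ Nat.size n + n * 2 ^ n := by
      exact_mod_cast (Nat.mul_le_mul_right _ hcmp).trans h2
    refine h4.trans (add_le_add_left ?_ _)
    refine mul_le_mul_of_nonneg_right ?_ (by positivity)
    exact mul_le_mul_of_nonneg_left h1 (Nat.cast_nonneg _)
  have hsz : (n : ℝ) ≤ 2 ^ Nat.size n := by
    exact_mod_cast (Nat.lt_size_self n).le
  have h5 : (n : ℝ) * 2 ^ n ≤ 2 ^ n * 2 ^ Nat.size n := by
    rw [mul_comm]
    exact mul_le_mul_of_nonneg_left hsz (by positivity)
  have h6 : ((∑ j ∈ range n, ((range (2 ^ n)).filter fun N =>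
      g (bits n N) ≠ g (bits n ((N + 2 ^ j) % 2 ^ n))).card : ℕ) : ℝ) * 2 ^ Nat.size n ≤
      (((Nat.size n : ℝ) * (n : ℝ) ^ (ε / 2) + 1) * 2 ^ n) * 2 ^ Nat.size n := by
    calc _ ≤ _ := h3
      _ ≤ ((Nat.size n : ℝ) * ((n : ℝ) ^ (ε / 2) * 2 ^ n)) * 2 ^ Nat.size n +
          2 ^ n * 2 ^ Nat.size n := by linarith
      _ = _ := by ring
  have h7 := le_of_mul_le_mul_right h6 (by positivity)
  have h8 : (∑ j ∈ range n, (((range (2 ^ n)).filter fun N =>
      g (bits n N) ≠ g (bits n ((N + 2 ^ j) % 2 ^ n))).card : ℝ)) =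
      ((∑ j ∈ range n, ((range (2 ^ n)).filter fun N =>
      g (bits n N) ≠ g (bits n ((N + 2 ^ j) % 2 ^ n))).card : ℕ) : ℝ) := by push_cast; rfl
  rw [h8]
  exact h7.trans (mul_le_mul_of_nonneg_right hl (by positivity))

end Pool.Agent.Helper72.AC
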