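import Pool.Agent.Helper57.U2.Defs
import Pool.Agent.Helper72.AC.AddSens

set_option autoImplicit false

/-!
The digits of a choice of representations are not guessed by circuits of constant depth.
-/

namespace Pool.Agent.Helper72.Adv

open Finset Filter
open Pool.Agent.Helper57.U2 (rep IsChoice upTo digit Guesses sensitivity)
open Pool.Agent.Helper72.AC (Circ bits num num_bits add_sens)

lemma guesses_mod {K : ℕ} {η : ℝ} {D : Set ℕ} {f : ℕ → ℕ} {J : ℕ → ℕ → ℕ}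
    (h : Guesses 2 K η D f J) : Guesses 2 K η D f fun i N => J i N % 2 := by
  unfold Guesses at h ⊢
  refine h.trans (Finset.sum_le_sum fun n _ => ?_)
  refine Nat.cast_le.2 (Finset.card_le_card ?_)
  intro i hi
  rw [mem_filter] at hi ⊢
  refine ⟨hi.1, ?_⟩
  show J i n % 2 = digit 2 i (f n)
  rw [hi.2]
  exact Nat.mod_eq_of_lt (Nat.mod_lt _ (by norm_num))

lemma sens_le {K : ℕ} {s : ℝ} (hK : 1 ≤ K) (J : ℕ → ℕ → ℕ) (G : ℕ → (Fin K → Bool) → Bool)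
    (hG : ∀ i x, G i x = (J i (Nat.ofBits x)).testBit 0)
    (h : ∀ i < K, (∑ j ∈ range K, (((range (2 ^ K)).filter fun N =>
      G i (bits K N) ≠ G i (bits K ((N + 2 ^ j) % 2 ^ K))).card : ℝ)) ≤ s * 2 ^ K) :
    sensitivity 2 K (fun i N => J i N % 2) ≤ s := by
  have hK0 : (0 : ℝ) < K := by exact_mod_cast hK
  unfold sensitivity
  rw [div_le_iff₀ (by positivity)]
  have h1 : ∀ i ∈ range K, (∑ j ∈ range K,
      (#{n ∈ range (2 ^ K) | J i n % 2 ≠ J i ((n + 2 ^ j) % 2 ^ K) % 2} : ℝ)) ≤ s * 2 ^ K := by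
    intro i hi
    refine le_trans (Finset.sum_le_sum fun j _ => ?_) (h i (mem_range.1 hi))
    refine Nat.cast_le.2 (Finset.card_le_card ?_)
    intro N hN
    rw [mem_filter] at hN ⊢
    refine ⟨hN.1, ?_⟩
    have hN1 : N < 2 ^ K := mem_range.1 hN.1
    have hN2 : (N + 2 ^ j) % 2 ^ K < 2 ^ K := Nat.mod_lt _ (by positivity)
    have e1 : Nat.ofBits (bits K N) = N := num_bits hN1
    have e2 : Nat.ofBits (bits K ((N + 2 ^ j) % 2 ^ K)) = (N + 2 ^ j) % 2 ^ K := num_bits hN2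
    rw [hG, hG, e1, e2]
    intro h3
    apply hN.2
    rw [Nat.testBit_zero, Nat.testBit_zero] at h3
    have h4 := decide_eq_decide.1 h3
    have h5 := Nat.mod_two_eq_zero_or_one (J i N)
    have h6 := Nat.mod_two_eq_zero_or_one (J i ((N + 2 ^ j) % 2 ^ K))
    rcases h5 with h5 | h5 <;> rcases h6 with h6 | h6 <;> simp [h5, h6] at h4 ⊢
  have h2 := Finset.sum_le_sum h1
  rw [Finset.sum_const, card_range, nsmul_eq_mul] at h2
  have h3 : (((2 : ℕ) : ℝ)) = 2 := by norm_num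
  rw [h3]
  calc _ ≤ (K : ℝ) * (s * 2 ^ K) := h2
    _ = s * (K * 2 ^ K) := by ring

lemma exp_le (c ε : ℝ) (hc : 0 < c) (hε : 0 < ε) (hε1 : ε ≤ 1 / 2) : ∀ᶠ K : ℕ in atTop,
    Real.exp ((K : ℝ) ^ (1 - ε)) ≤ c * Real.exp (c * K / (K : ℝ) ^ (ε / 2)) := by
  have h1 := ((tendsto_rpow_atTop (show 0 < ε / 2 by linarith)).comp
    tendsto_natCast_atTop_atTop).eventually_ge_atTop ((1 + |Real.log c|) / c)
  filter_upwards [h1, eventually_ge_atTop 1] with K hK hK1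
  have hK0 : (0 : ℝ) < K := by exact_mod_cast hK1
  have hK1' : (1 : ℝ) ≤ K := by exact_mod_cast hK1
  have h2 : 1 + |Real.log c| ≤ c * (K : ℝ) ^ (ε / 2) := by
    have : (1 + |Real.log c|) / c ≤ (K : ℝ) ^ (ε / 2) := hK
    rw [div_le_iff₀ hc] at this
    linarith
  have h3 : (1 : ℝ) ≤ (K : ℝ) ^ (1 - ε) := Real.one_le_rpow hK1' (by linarith)
  have h4 : c * K / (K : ℝ) ^ (ε / 2) = c * (K : ℝ) ^ (ε / 2) * (K : ℝ) ^ (1 - ε) := by
    have h5 : (K : ℝ) = (K : ℝ) ^ (ε / 2) * (K : ℝ) ^ (1 - ε) * (K : ℝ) ^ (ε / 2) := by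
      rw [← Real.rpow_add hK0, ← Real.rpow_add hK0]
      rw [show ε / 2 + (1 - ε) + ε / 2 = (1 : ℝ) by ring, Real.rpow_one]
    rw [div_eq_iff (by positivity)]
    nlinarith [h5]
  have h5 : (K : ℝ) ^ (1 - ε) + |Real.log c| ≤ c * K / (K : ℝ) ^ (ε / 2) := by
    rw [h4]
    have h6 : (1 + |Real.log c|) * (K : ℝ) ^ (1 - ε) ≤ c * (K : ℝ) ^ (ε / 2) * (K : ℝ) ^ (1 - ε) :=
      mul_le_mul_of_nonneg_right h2 (by positivity)
    nlinarith [abs_nonneg (Real.log c)]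
  have h6 : Real.exp ((K : ℝ) ^ (1 - ε)) * Real.exp |Real.log c| ≤
      Real.exp (c * K / (K : ℝ) ^ (ε / 2)) := by
    rw [← Real.exp_add]
    exact Real.exp_le_exp.2 h5
  have h7 : 1 ≤ c * Real.exp |Real.log c| := by
    have h8 : Real.exp (-Real.log c) ≤ Real.exp |Real.log c| := Real.exp_le_exp.2 (neg_le_abs _)
    rw [Real.exp_neg, Real.exp_log hc] at h8
    calc (1 : ℝ) = c * c⁻¹ := by rw [mul_inv_cancel₀ hc.ne']
      _ ≤ _ := mul_le_mul_of_nonneg_left h8 hc.le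
  calc Real.exp ((K : ℝ) ^ (1 - ε)) ≤ Real.exp ((K : ℝ) ^ (1 - ε)) *
        (c * Real.exp |Real.log c|) := le_mul_of_one_le_right (Real.exp_pos _).le h7
    _ = c * (Real.exp ((K : ℝ) ^ (1 - ε)) * Real.exp |Real.log c|) := by ring
    _ ≤ _ := mul_le_mul_of_nonneg_left h6 hc.le

/-- Circuits of constant depth and polynomial fan-in do not guess the binary digits of a choice of
representations with a fixed advantage, unless there are many representations on average. -/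
theorem advantage_of (main : ∀ η δ : ℝ, 0 < η → 0 < δ → ∃ c : ℝ, 0 < c ∧
      ∀ (A D : Set ℕ) (f : ℕ → ℕ), IsChoice A D f → ∀ K : ℕ,
      δ * ((2 : ℕ) : ℝ) ^ K ≤ #(upTo D (2 ^ K)) → ∀ J : ℕ → ℕ → ℕ, Guesses 2 K η D f J →
      ∀ s : ℝ, 1 ≤ s → sensitivity 2 K J ≤ s →
        c * ((2 : ℕ) : ℝ) ^ K * Real.exp (c * K / s) ≤ ∑ n ∈ range (2 * 2 ^ K), (rep A n : ℝ) ^ 2)
    (d k : ℕ) (ε δ η : ℝ) (hε : 0 < ε) (hδ : 0 < δ) (hη : 0 < η) :
    ∀ᶠ K : ℕ in atTop, ∀ (A D : Set ℕ) (f : ℕ → ℕ), IsChoice A D f →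
      δ * 2 ^ K ≤ #(upTo D (2 ^ K)) → ∀ J : ℕ → ℕ → ℕ, Guesses 2 K η D f J →
      (∀ i < K, Circ K (K ^ k) d fun x => (J i (Nat.ofBits x)).testBit 0) →
      2 ^ K * Real.exp ((K : ℝ) ^ (1 - ε)) ≤ ∑ n ∈ range (2 * 2 ^ K), (rep A n : ℝ) ^ 2 := by
  obtain ⟨c, hc, h⟩ := main η δ hη hδ
  obtain ⟨ε', hε'⟩ : ∃ ε' : ℝ, ε' = min ε (1 / 2) := ⟨_, rfl⟩
  have hε'0 : 0 < ε' := by rw [hε']; exact lt_min hε (by norm_num)
  have hε'1 : ε' ≤ 1 / 2 := by rw [hε']; exact min_le_right _ _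
  have hε'2 : ε' ≤ ε := by rw [hε']; exact min_le_left _ _
  filter_upwards [add_sens d k (ε' / 2) (by linarith), exp_le c ε' hc hε'0 hε'1,
    eventually_ge_atTop 1] with K hK hKe hK1 A D f hf hD J hJ hg
  have hK1' : (1 : ℝ) ≤ K := by exact_mod_cast hK1
  have hs1 : (1 : ℝ) ≤ (K : ℝ) ^ (ε' / 2) := Real.one_le_rpow hK1' (by linarith)
  obtain ⟨G, hG⟩ : ∃ G : ℕ → (Fin K → Bool) → Bool,
      ∀ i, G i = fun x => (J i (Nat.ofBits x)).testBit 0 := ⟨_, fun _ => rfl⟩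
  have hg' : ∀ i < K, Circ K (K ^ k) d (G i) := by
    intro i hi
    rw [hG i]
    exact hg i hi
  have hsens : sensitivity 2 K (fun i N => J i N % 2) ≤ (K : ℝ) ^ (ε' / 2) :=
    sens_le hK1 J G (fun i x => by rw [hG i]) fun i hi => hK (G i) (hg' i hi)
  have h2 := h A D f hf K (by push_cast; exact hD) _ (guesses_mod hJ)
    ((K : ℝ) ^ (ε' / 2)) hs1 hsens
  have h3 : (((2 : ℕ) : ℝ)) = 2 := by norm_num
  rw [h3] at h2
  refine le_trans ?_ h2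
  have h4 : Real.exp ((K : ℝ) ^ (1 - ε)) ≤ Real.exp ((K : ℝ) ^ (1 - ε')) :=
    Real.exp_le_exp.2 (Real.rpow_le_rpow_of_exponent_le hK1' (by linarith))
  calc (2 : ℝ) ^ K * Real.exp ((K : ℝ) ^ (1 - ε)) ≤
      2 ^ K * (c * Real.exp (c * K / (K : ℝ) ^ (ε' / 2))) :=
        mul_le_mul_of_nonneg_left (h4.trans hKe) (by positivity)
    _ = _ := by ring

end Pool.Agent.Helper72.Adv
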