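import Pool.Agent.Helper57.U2.Main

set_option autoImplicit false

/-!
Every choice of representations from a thick set with bounded representation function is sensitive.
-/

namespace Pool.Agent.Helper72.Struct

open Finset Filter
open Pool.Agent.Helper57.U2 (rep IsChoice upTo digit Guesses sensitivity main)

/-- the sums of two elements of `A` -/
def Sums (A : Set ℕ) : Set ℕ := {n | ∃ a ∈ A, ∃ a' ∈ A, a + a' = n}

lemma mem_upTo {D : Set ℕ} {x n : ℕ} : n ∈ upTo D x ↔ n < x ∧ n ∈ D := by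
  classical
  unfold upTo
  rw [mem_filter, mem_range]

lemma sums_card (A : Set ℕ) (x : ℕ) {C : ℝ} (hC : ∀ n, (rep A n : ℝ) ≤ C) :
    (#(upTo A x) : ℝ) ^ 2 ≤ C * #(upTo (Sums A) (2 * x)) := by
  classical
  have h1 : #(upTo A x ×ˢ upTo A x) ≤ ∑ n ∈ upTo (Sums A) (2 * x), rep A n := by
    have h2 : ∀ p ∈ upTo A x ×ˢ upTo A x, p.1 + p.2 ∈ upTo (Sums A) (2 * x) := by
      intro p hp
      rw [mem_product, mem_upTo, mem_upTo] at hp
      rw [mem_upTo]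
      exact ⟨by omega, p.1, hp.1.2, p.2, hp.2.2, rfl⟩
    rw [Finset.card_eq_sum_card_fiberwise h2]
    refine Finset.sum_le_sum fun n _ => ?_
    unfold rep
    refine Finset.card_le_card ?_
    intro p hp
    rw [mem_filter, mem_product, mem_upTo, mem_upTo] at hp
    rw [mem_filter, Finset.HasAntidiagonal.mem_antidiagonal]
    exact ⟨hp.2, hp.1.1.2, hp.1.2.2⟩
  have h3 : ((#(upTo A x) : ℝ)) ^ 2 = (#(upTo A x ×ˢ upTo A x) : ℝ) := by
    rw [card_product]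
    push_cast
    ring
  rw [h3]
  calc (#(upTo A x ×ˢ upTo A x) : ℝ) ≤ ((∑ n ∈ upTo (Sums A) (2 * x), rep A n : ℕ) : ℝ) := by
        exact_mod_cast h1
    _ = ∑ n ∈ upTo (Sums A) (2 * x), (rep A n : ℝ) := by push_cast; rfl
    _ ≤ ∑ _n ∈ upTo (Sums A) (2 * x), C := Finset.sum_le_sum fun n _ => hC n
    _ = C * #(upTo (Sums A) (2 * x)) := by rw [Finset.sum_const, nsmul_eq_mul, mul_comm]

lemma dense (b : ℕ) (hb : 2 ≤ b) {C c : ℝ} (hC0 : 0 < C) (hc : 0 < c) (A : Set ℕ)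
    (hC : ∀ n, (rep A n : ℝ) ≤ C) (hA : ∀ᶠ x : ℕ in atTop, c * √x ≤ #(upTo A x)) :
    ∀ᶠ K : ℕ in atTop, c ^ 2 / (4 * C) * (b : ℝ) ^ K ≤ #(upTo (Sums A) (b ^ K)) := by
  classical
  obtain ⟨x₀, hx₀⟩ := eventually_atTop.1 hA
  filter_upwards [eventually_ge_atTop (2 * x₀ + 2)] with K hK
  have hbK : K < b ^ K := Nat.lt_pow_self (by omega)
  have h1 := hx₀ (b ^ K / 2) (by omega)
  have h2 : (b : ℝ) ^ K ≤ 4 * ((b ^ K / 2 : ℕ) : ℝ) := by
    have : b ^ K ≤ 4 * (b ^ K / 2) := by omega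
    exact_mod_cast this
  have h3 : (c * √((b ^ K / 2 : ℕ) : ℝ)) ^ 2 ≤ (#(upTo A (b ^ K / 2)) : ℝ) ^ 2 :=
    pow_le_pow_left₀ (by positivity) h1 2
  rw [mul_pow, Real.sq_sqrt (Nat.cast_nonneg _)] at h3
  have h4 := h3.trans (sums_card A (b ^ K / 2) hC)
  have h5 : (#(upTo (Sums A) (2 * (b ^ K / 2))) : ℝ) ≤ #(upTo (Sums A) (b ^ K)) := by
    refine Nat.cast_le.2 (Finset.card_le_card ?_)
    intro n hn
    rw [mem_upTo] at hn ⊢
    exact ⟨by omega, hn.2⟩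
  have h6 : c ^ 2 * (b : ℝ) ^ K ≤ 4 * C * #(upTo (Sums A) (b ^ K)) := by
    have h7 : c ^ 2 * (b : ℝ) ^ K ≤ c ^ 2 * (4 * ((b ^ K / 2 : ℕ) : ℝ)) :=
      mul_le_mul_of_nonneg_left h2 (sq_nonneg c)
    have h8 : C * (#(upTo (Sums A) (2 * (b ^ K / 2))) : ℝ) ≤ C * #(upTo (Sums A) (b ^ K)) :=
      mul_le_mul_of_nonneg_left h5 hC0.le
    nlinarith
  rw [div_mul_eq_mul_div, div_le_iff₀ (by positivity)]
  linarith

/-- Every choice of representations is sensitive. -/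
theorem sensitive (b : ℕ) (hb : 2 ≤ b) (C c : ℝ) (hC0 : 0 < C) (hc : 0 < c) :
    ∃ c' : ℝ, 0 < c' ∧ ∀ A : Set ℕ, (∀ n, (rep A n : ℝ) ≤ C) →
      (∀ᶠ x : ℕ in atTop, c * √x ≤ #(upTo A x)) →
      ∀ f : ℕ → ℕ, IsChoice A (Sums A) f → ∀ᶠ K : ℕ in atTop,
        c' * ((K : ℝ) ^ 2 * (b : ℝ) ^ K) ≤ ∑ i ∈ range K, ∑ j ∈ range K,
          (#{n ∈ range (b ^ K) | digit b i (f n) ≠ digit b i (f ((n + b ^ j) % b ^ K))} : ℝ) := by
  classical
  have hb2 : (2 : ℝ) ≤ b := by exact_mod_cast hb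
  have hb0 : (0 : ℝ) < b := by linarith
  have hε : (0 : ℝ) < 1 - 1 / b := by
    have : 1 / (b : ℝ) ≤ 1 / 2 := one_div_le_one_div_of_le (by norm_num) hb2
    linarith
  obtain ⟨γ, hγ, h⟩ := main b 0 hb (1 - 1 / b) (c ^ 2 / (4 * C)) hε (by positivity)
  obtain ⟨Λ, hΛ⟩ : ∃ Λ : ℝ, Λ = max 1 (Real.log (2 * C ^ 2 / γ)) := ⟨_, rfl⟩
  have hΛ1 : 1 ≤ Λ := by rw [hΛ]; exact le_max_left _ _
  have hΛ0 : 0 < Λ := by linarith
  refine ⟨γ / Λ, by positivity, fun A hA hthick f hf => ?_⟩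
  obtain ⟨K₀, hK₀⟩ := exists_nat_gt (Λ / γ)
  filter_upwards [dense b hb hC0 hc A hA hthick, eventually_ge_atTop (max K₀ 1)] with K hD hK
  have hK1 : 1 ≤ K := (le_max_right _ _).trans hK
  have hKK : (K₀ : ℝ) ≤ K := by exact_mod_cast (le_max_left _ _).trans hK
  have hK0 : (0 : ℝ) < K := by exact_mod_cast hK1
  have hG : Guesses b K (1 - 1 / b) (Sums A) f fun i n => digit b i (f n) := by
    unfold Guesses
    have h1 : ∀ n ∈ upTo (Sums A) (b ^ K),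
        (#{i ∈ range K | digit b i (f n) = digit b i (f n)} : ℝ) = K := by
      intro n _
      rw [Finset.filter_true_of_mem (fun _ _ => rfl), card_range]
    rw [Finset.sum_congr rfl h1, Finset.sum_const, nsmul_eq_mul]
    have h2 : (1 / (b : ℝ) + (1 - 1 / b)) = 1 := by ring
    rw [h2, one_mul, mul_comm]
  have h1 := ((h A (Sums A) f hf).1 K hD _ hG).1
  have hsum : ∑ n ∈ range (2 * b ^ K), (rep A n : ℝ) ^ 2 ≤ 2 * C ^ 2 * (b : ℝ) ^ K := by
    calc ∑ n ∈ range (2 * b ^ K), (rep A n : ℝ) ^ 2 ≤ ∑ _n ∈ range (2 * b ^ K), C ^ 2 :=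
          Finset.sum_le_sum fun n _ => pow_le_pow_left₀ (Nat.cast_nonneg _) (hA n) 2
      _ = 2 * C ^ 2 * (b : ℝ) ^ K := by
          rw [Finset.sum_const, card_range, nsmul_eq_mul]
          push_cast
          ring
  obtain ⟨s, hs⟩ : ∃ s, s = sensitivity b K fun i n => digit b i (f n) := ⟨_, rfl⟩
  have h2 := (h1 (max 1 s) (le_max_left _ _) (by rw [hs]; exact le_max_right _ _)).trans hsum
  have hm0 : 0 < max 1 s := lt_of_lt_of_le one_pos (le_max_left _ _)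
  have h3 : Real.exp (γ * K / max 1 s) ≤ 2 * C ^ 2 / γ := by
    rw [le_div_iff₀ hγ]
    have h4 : (0 : ℝ) < (b : ℝ) ^ K := by positivity
    have h5 : (b : ℝ) ^ K * (Real.exp (γ * K / max 1 s) * γ) ≤ (b : ℝ) ^ K * (2 * C ^ 2) := by
      nlinarith
    exact le_of_mul_le_mul_left h5 h4
  have h4 : γ * K / max 1 s ≤ Λ := by
    have h5 := Real.log_le_log (Real.exp_pos _) h3
    rw [Real.log_exp] at h5
    rw [hΛ]
    exact h5.trans (le_max_right _ _)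
  have h5 : γ * K ≤ Λ * max 1 s := by rwa [div_le_iff₀ hm0] at h4
  have h6 : 1 < s := by
    by_contra h7
    rw [not_lt] at h7
    rw [max_eq_left h7, mul_one] at h5
    have h8 : Λ < γ * K := by
      rw [div_lt_iff₀ hγ] at hK₀
      nlinarith
    linarith
  rw [max_eq_right h6.le] at h5
  have h7 : γ / Λ * K ≤ s := by
    rw [div_mul_eq_mul_div, div_le_iff₀ hΛ0]
    linarith
  rw [hs] at h7
  unfold sensitivity at h7
  rw [le_div_iff₀ (by positivity)] at h7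
  refine le_trans (le_of_eq ?_) h7
  ring

end Pool.Agent.Helper72.Struct
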