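import Pool.Agent.Helper57.U2.Main
import Pool.Agent.Helper72.AC.AdvCore

set_option autoImplicit false

/-!
The digits of a choice of representations are not guessed by circuits of constant depth.
-/

namespace Pool.Agent.Helper72.Adv

open Finset Filter
open Pool.Agent.Helper57.U2 (rep IsChoice upTo digit Guesses sensitivity main)
open Pool.Agent.Helper72.AC (Circ)

/-- Circuits of constant depth and polynomial fan-in do not guess the binary digits of a choice of
representations with a fixed advantage, unless there are many representations on average. -/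
theorem advantage (d k : ℕ) (ε δ η : ℝ) (hε : 0 < ε) (hδ : 0 < δ) (hη : 0 < η) :
    ∀ᶠ K : ℕ in atTop, ∀ (A D : Set ℕ) (f : ℕ → ℕ), IsChoice A D f →
      δ * 2 ^ K ≤ #(upTo D (2 ^ K)) → ∀ J : ℕ → ℕ → ℕ, Guesses 2 K η D f J →
      (∀ i < K, Circ K (K ^ k) d fun x => (J i (Nat.ofBits x)).testBit 0) →
      2 ^ K * Real.exp ((K : ℝ) ^ (1 - ε)) ≤ ∑ n ∈ range (2 * 2 ^ K), (rep A n : ℝ) ^ 2 := by
  refine advantage_of (fun η δ hη hδ => ?_) d k ε δ η hε hδ hη
  obtain ⟨c, hc, h⟩ := main 2 0 le_rfl η δ hη hδ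
  exact ⟨c, hc, fun A D f hf K hD J hJ s hs hsens => ((h A D f hf).1 K hD J hJ).1 s hs hsens⟩

end Pool.Agent.Helper72.Adv
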