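import Mathlib

set_option autoImplicit false

/-!
Khrapchenko's inequality for the total influence of formulas.
-/

namespace Pool.Agent.Helper72.Khr

open Finset

/-- the point `x` with the coordinate `j` changed -/
def fl {n : ℕ} (j : Fin n) (x : Fin n → Bool) : Fin n → Bool := Function.update x j (!x j)

lemma fl_fl {n : ℕ} (j : Fin n) (x : Fin n → Bool) : fl j (fl j x) = x := by
  unfold fl
  funext i
  by_cases h : i = j
  · subst h
    simp
  · simp [Function.update_of_ne h]

lemma fl_inj {n : ℕ} (j : Fin n) : Function.Injective (fl j) := fun x y h => by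
  rw [← fl_fl j x, h, fl_fl]

/-- `Formula L g`: the function `g` of `n` variables is computed by a formula of `L` leaves with
AND and OR gates of fan-in two; the leaves are variables, negated variables and constants -/
inductive Formula {n : ℕ} : ℕ → ((Fin n → Bool) → Bool) → Prop
  | leaf (i : Fin n) (b : Bool) : Formula 1 fun x => x i ^^ b
  | const (b : Bool) : Formula 1 fun _ => b
  | and {L M : ℕ} {g h : (Fin n → Bool) → Bool} :
      Formula L g → Formula M h → Formula (L + M) fun x => g x && h x
  | or {L M : ℕ} {g h : (Fin n → Bool) → Bool} :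
      Formula L g → Formula M h → Formula (L + M) fun x => g x || h x

/-- the number of edges of the cube from `A` to `B` -/
def e {n : ℕ} (A B : Finset (Fin n → Bool)) : ℕ := ∑ x ∈ A, #{j | fl j x ∈ B}

lemma sq_add {a b p q r : ℝ} {l m : ℝ} (_ha : 0 ≤ a) (_hb : 0 ≤ b) (hp : 0 ≤ p) (hq : 0 ≤ q)
    (hr : 0 ≤ r) (hl : 0 ≤ l) (hm : 0 ≤ m) (h1 : a ^ 2 ≤ l * (p * r)) (h2 : b ^ 2 ≤ m * (q * r)) :
    (a + b) ^ 2 ≤ (l + m) * ((p + q) * r) := by
  have h3 : 2 * (a * b) ≤ l * (q * r) + m * (p * r) := by
    have h4 : (2 * (a * b)) ^ 2 ≤ (l * (q * r) + m * (p * r)) ^ 2 := by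
      have h5 : a ^ 2 * b ^ 2 ≤ (l * (p * r)) * (m * (q * r)) :=
        mul_le_mul h1 h2 (sq_nonneg b) (by positivity)
      nlinarith [sq_nonneg (l * (q * r) - m * (p * r))]
    exact le_of_sq_le_sq h4 (by positivity)
  nlinarith

lemma e_union_left {n : ℕ} (A A' B : Finset (Fin n → Bool)) (h : Disjoint A A') :
    e (A ∪ A') B = e A B + e A' B := Finset.sum_union h

lemma e_union_right {n : ℕ} (A B B' : Finset (Fin n → Bool)) (h : Disjoint B B') :
    e A (B ∪ B') = e A B + e A B' := by
  classical
  unfold e
  rw [← Finset.sum_add_distrib]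
  refine Finset.sum_congr rfl fun x _ => ?_
  rw [← Finset.card_union_of_disjoint]
  · congr 1
    ext j
    simp [mem_filter, mem_union]
  · rw [Finset.disjoint_left]
    intro j h1 h2
    rw [mem_filter] at h1 h2
    exact Finset.disjoint_left.1 h h1.2 h2.2

/-- Khrapchenko's inequality -/
theorem khrapchenko {n : ℕ} {L : ℕ} {g : (Fin n → Bool) → Bool} (hg : Formula L g) :
    ∀ A B : Finset (Fin n → Bool), (∀ x ∈ A, g x = false) → (∀ x ∈ B, g x = true) →
      (e A B : ℝ) ^ 2 ≤ L * ((#A : ℝ) * #B) := by
  classical
  induction hg with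
  | leaf i b =>
    intro A B hA hB
    have h0 : ∀ x ∈ A, ∀ j, fl j x ∈ B → j = i := by
      intro x hx j hj
      by_contra hne
      have h1 : (x i ^^ b) = false := hA x hx
      have h2 : (fl j x i ^^ b) = true := hB _ hj
      have h3 : fl j x i = x i := Function.update_of_ne (fun h => hne h.symm) _ _
      rw [h3, h1] at h2
      exact absurd h2 (by decide)
    have h1 : e A B ≤ #A := by
      unfold e
      calc ∑ x ∈ A, #{j | fl j x ∈ B} ≤ ∑ x ∈ A, 1 := by
            refine Finset.sum_le_sum fun x hx => ?_
            refine (Finset.card_le_card (t := {i}) ?_).trans (by simp)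
            intro j hj
            rw [mem_filter] at hj
            rw [mem_singleton]
            exact h0 x hx j hj.2
        _ = #A := by simp
    have h2 : e A B ≤ #B := by
      unfold e
      calc ∑ x ∈ A, #{j | fl j x ∈ B} ≤ ∑ x ∈ A, (if fl i x ∈ B then 1 else 0) := by
            refine Finset.sum_le_sum fun x hx => ?_
            split_ifs with h
            · refine (Finset.card_le_card (t := {i}) ?_).trans (by simp)
              intro j hj
              rw [mem_filter] at hj
              rw [mem_singleton]
              exact h0 x hx j hj.2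
            · rw [Nat.le_zero, Finset.card_eq_zero, Finset.filter_eq_empty_iff]
              intro j _ hj
              exact h ((h0 x hx j hj) ▸ hj)
        _ = #(A.filter fun x => fl i x ∈ B) := by rw [Finset.card_filter]
        _ = #((A.filter fun x => fl i x ∈ B).image (fl i)) :=
            (Finset.card_image_of_injective _ (fl_inj i)).symm
        _ ≤ #B := by
            refine Finset.card_le_card ?_
            intro y hy
            rw [mem_image] at hy
            obtain ⟨x, hx, rfl⟩ := hy
            exact (mem_filter.1 hx).2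
    have h1' : (e A B : ℝ) ≤ #A := by exact_mod_cast h1
    have h2' : (e A B : ℝ) ≤ #B := by exact_mod_cast h2
    rw [Nat.cast_one, one_mul, sq]
    exact mul_le_mul h1' h2' (Nat.cast_nonneg _) (Nat.cast_nonneg _)
  | const b =>
    intro A B hA hB
    have h1 : e A B = 0 := by
      unfold e
      refine Finset.sum_eq_zero fun x hx => ?_
      rw [Finset.card_eq_zero, Finset.filter_eq_empty_iff]
      intro j _ hj
      have h2 : b = false := hA x hx
      have h3 : b = true := hB _ hj
      rw [h2] at h3
      exact absurd h3 (by decide)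
    rw [h1, Nat.cast_zero, zero_pow two_ne_zero]
    positivity
  | @and L M g h hg hh ihg ihh =>
    intro A B hA hB
    have hAu : A = A.filter (fun x => g x = false) ∪ A.filter (fun x => ¬ g x = false) :=
      (Finset.filter_union_filter_not_eq _ _).symm
    have hd : Disjoint (A.filter (fun x => g x = false)) (A.filter (fun x => ¬ g x = false)) :=
      Finset.disjoint_filter_filter_not _ _ _
    have hB1 : ∀ x ∈ B, g x = true ∧ h x = true := fun x hx => by
      have := hB x hx
      exact Bool.and_eq_true_iff.1 this
    have h1 := ihg (A.filter (fun x => g x = false)) B (fun x hx => (mem_filter.1 hx).2)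
      (fun x hx => (hB1 x hx).1)
    have h2 := ihh (A.filter (fun x => ¬ g x = false)) B (fun x hx => by
      obtain ⟨h3, h4⟩ := mem_filter.1 hx
      have h5 : (g x && h x) = false := hA x h3
      have h6 : g x = true := by simpa using h4
      rw [h6, Bool.true_and] at h5
      exact h5) (fun x hx => (hB1 x hx).2)
    have h3 : e A B = e (A.filter (fun x => g x = false)) B +
        e (A.filter (fun x => ¬ g x = false)) B := by
      rw [← e_union_left _ _ _ hd, ← hAu]
    have h4 : #A = #(A.filter (fun x => g x = false)) + #(A.filter (fun x => ¬ g x = false)) := by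
      rw [← Finset.card_union_of_disjoint hd, ← hAu]
    rw [h3, h4]
    push_cast
    exact sq_add (Nat.cast_nonneg _) (Nat.cast_nonneg _) (Nat.cast_nonneg _) (Nat.cast_nonneg _)
      (Nat.cast_nonneg _) (Nat.cast_nonneg _) (Nat.cast_nonneg _) h1 h2
  | @or L M g h hg hh ihg ihh =>
    intro A B hA hB
    have hBu : B = B.filter (fun x => g x = true) ∪ B.filter (fun x => ¬ g x = true) :=
      (Finset.filter_union_filter_not_eq _ _).symm
    have hd : Disjoint (B.filter (fun x => g x = true)) (B.filter (fun x => ¬ g x = true)) :=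
      Finset.disjoint_filter_filter_not _ _ _
    have hA1 : ∀ x ∈ A, g x = false ∧ h x = false := fun x hx => by
      have := hA x hx
      exact Bool.or_eq_false_iff.1 this
    have h1 := ihg A (B.filter (fun x => g x = true)) (fun x hx => (hA1 x hx).1)
      (fun x hx => (mem_filter.1 hx).2)
    have h2 := ihh A (B.filter (fun x => ¬ g x = true)) (fun x hx => (hA1 x hx).2) (fun x hx => by
      obtain ⟨h3, h4⟩ := mem_filter.1 hx
      have h5 : (g x || h x) = true := hB x h3
      have h6 : g x = false := by simpa using h4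
      rw [h6, Bool.false_or] at h5
      exact h5)
    have h3 : e A B = e A (B.filter (fun x => g x = true)) +
        e A (B.filter (fun x => ¬ g x = true)) := by
      rw [← e_union_right _ _ _ hd, ← hBu]
    have h4 : #B = #(B.filter (fun x => g x = true)) + #(B.filter (fun x => ¬ g x = true)) := by
      rw [← Finset.card_union_of_disjoint hd, ← hBu]
    rw [h3, h4]
    push_cast
    rw [mul_comm (#A : ℝ)]
    rw [mul_comm (#A : ℝ)] at h1 h2
    exact sq_add (Nat.cast_nonneg _) (Nat.cast_nonneg _) (Nat.cast_nonneg _) (Nat.cast_nonneg _)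
      (Nat.cast_nonneg _) (Nat.cast_nonneg _) (Nat.cast_nonneg _) h1 h2

/-- the total influence of a formula of size `L` is at most `√L` -/
theorem sens_formula {n : ℕ} {L : ℕ} {g : (Fin n → Bool) → Bool} (hg : Formula L g) :
    (∑ j : Fin n, (#{x : Fin n → Bool | g x ≠ g (fl j x)} : ℝ)) ^ 2 ≤ L * 4 ^ n := by
  classical
  obtain ⟨A, hA⟩ : ∃ A : Finset (Fin n → Bool), A = Finset.univ.filter fun x => g x = false :=
    ⟨_, rfl⟩
  obtain ⟨B, hB⟩ : ∃ B : Finset (Fin n → Bool), B = Finset.univ.filter fun x => g x = true :=
    ⟨_, rfl⟩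
  have hmA : ∀ x, x ∈ A ↔ g x = false := fun x => by rw [hA, mem_filter]; simp
  have hmB : ∀ x, x ∈ B ↔ g x = true := fun x => by rw [hB, mem_filter]; simp
  have h1 := khrapchenko hg A B (fun x hx => (hmA x).1 hx) (fun x hx => (hmB x).1 hx)
  have h2 : e A B = ∑ j : Fin n, #(A.filter fun x => fl j x ∈ B) := by
    unfold e
    simp only [Finset.card_filter]
    rw [Finset.sum_comm]
  have h3 : ∀ j : Fin n, #{x : Fin n → Bool | g x ≠ g (fl j x)} =
      2 * #(A.filter fun x => fl j x ∈ B) := by
    intro j
    have h4 : (Finset.univ.filter fun x : Fin n → Bool => g x ≠ g (fl j x)) =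
        (A.filter fun x => fl j x ∈ B) ∪ (A.filter fun x => fl j x ∈ B).image (fl j) := by
      ext x
      rw [mem_filter, mem_union, mem_image, mem_filter, hmA, hmB]
      constructor
      · rintro ⟨-, h⟩
        rcases hx : g x with _ | _
        · left
          rw [hx] at h
          refine ⟨rfl, ?_⟩
          rcases hy : g (fl j x) with _ | _
          · exact absurd hy.symm h
          · rfl
        · right
          refine ⟨fl j x, ?_, fl_fl j x⟩
          rw [mem_filter, hmA, hmB, fl_fl]
          refine ⟨?_, hx⟩
          rw [hx] at h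
          rcases hy : g (fl j x) with _ | _
          · rfl
          · exact absurd hy.symm h
      · rintro (⟨h5, h6⟩ | ⟨y, hy, rfl⟩)
        · exact ⟨mem_univ _, by rw [h5, h6]; decide⟩
        · rw [mem_filter, hmA, hmB] at hy
          refine ⟨mem_univ _, ?_⟩
          rw [fl_fl, hy.1, hy.2]
          decide
    rw [h4, Finset.card_union_of_disjoint, Finset.card_image_of_injective _ (fl_inj j)]
    · ring
    · rw [Finset.disjoint_left]
      intro x h5 h6
      rw [mem_filter, hmA] at h5
      rw [mem_image] at h6
      obtain ⟨y, hy, rfl⟩ := h6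
      rw [mem_filter, hmB] at hy
      rw [h5.1] at hy
      exact absurd hy.2 (by decide)
  have h5 : (∑ j : Fin n, (#{x : Fin n → Bool | g x ≠ g (fl j x)} : ℝ)) = 2 * e A B := by
    rw [h2]
    push_cast
    rw [Finset.mul_sum]
    refine Finset.sum_congr rfl fun j _ => ?_
    rw [h3 j]
    push_cast
    ring
  have h6 : (#A : ℝ) + #B = 2 ^ n := by
    have h7 : #A + #B = 2 ^ n := by
      have h8 : A ∪ B = Finset.univ := by
        ext x
        rw [mem_union, hmA, hmB]
        rcases g x <;> simp
      have h9 : Disjoint A B := by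
        rw [Finset.disjoint_left]
        intro x h1 h2
        rw [hmA] at h1
        rw [hmB, h1] at h2
        exact absurd h2 (by decide)
      rw [← Finset.card_union_of_disjoint h9, h8, Finset.card_univ]
      simp
    exact_mod_cast h7
  have h7 : 4 * ((#A : ℝ) * #B) ≤ 4 ^ n := by
    have h8 : ((4 : ℝ)) ^ n = ((#A : ℝ) + #B) ^ 2 := by
      rw [h6, ← pow_mul, mul_comm, pow_mul]
      norm_num
    rw [h8]
    nlinarith [sq_nonneg ((#A : ℝ) - #B)]
  rw [h5, mul_pow]
  calc (2 : ℝ) ^ 2 * (e A B : ℝ) ^ 2 ≤ 2 ^ 2 * (L * ((#A : ℝ) * #B)) :=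
        mul_le_mul_of_nonneg_left h1 (by norm_num)
    _ = L * (4 * ((#A : ℝ) * #B)) := by ring
    _ ≤ L * 4 ^ n := mul_le_mul_of_nonneg_left h7 (Nat.cast_nonneg _)

end Pool.Agent.Helper72.Khr
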