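import Pool.Agent.Helper7.SC.DigitClause
import Pool.Agent.Helper57.U2.Main
import Pool.Agent.Helper72.AC.AdvCore
import Pool.Agent.Helper72.AC.Khr

set_option autoImplicit false

/-!
Guesses of small total influence: formulas.
-/

namespace Pool.Agent.Helper72.Infl

open Finset
open Pool.Agent.Helper57.U2 (rep IsChoice upTo digit Guesses sensitivity main)
open Pool.Agent.Helper7.SC (digitSensitivity inc digit_of)
open Pool.Agent.Helper72.AC (bits num_bits)
open Pool.Agent.Helper72.Khr (fl Formula sens_formula)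

lemma inc_testBit (j n i : ℕ) :
    (inc 2 j n).testBit i = if i = j then !n.testBit i else n.testBit i := by
  obtain ⟨a, ha⟩ : ∃ a, a = n / 2 ^ j := ⟨_, rfl⟩
  obtain ⟨r, hr⟩ : ∃ r, r = n % 2 ^ j := ⟨_, rfl⟩
  have hp : 0 < 2 ^ j := by positivity
  have hn : n = 2 ^ j * a + r := by rw [ha, hr]; exact (Nat.div_add_mod n (2 ^ j)).symm
  have hr2 : r < 2 ^ j := by rw [hr]; exact Nat.mod_lt _ hp
  obtain ⟨a', ha', h0, h2⟩ : ∃ a', inc 2 j n = 2 ^ j * a' + r ∧ (a' % 2 = 1 ↔ ¬ a % 2 = 1) ∧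
      a' / 2 = a / 2 := by
    unfold inc
    rw [← ha]
    split_ifs with h
    · have h1 : a % 2 = 1 := h
      refine ⟨a - 1, ?_, by omega, by omega⟩
      rw [Nat.mul_sub]
      have h3 : 2 ^ j * 1 ≤ 2 ^ j * a := Nat.mul_le_mul_left _ (by omega)
      omega
    · have h1 : ¬ a % 2 = 1 := h
      refine ⟨a + 1, ?_, by omega, by omega⟩
      rw [Nat.mul_add]
      omega
  rw [ha']
  conv_rhs => rw [hn]
  rw [Nat.testBit_two_pow_mul_add _ hr2, Nat.testBit_two_pow_mul_add _ hr2]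
  by_cases hi : i < j
  · have hij : ¬ i = j := by omega
    rw [if_pos hi, if_pos hi, if_neg hij]
  · rw [if_neg hi, if_neg hi]
    by_cases hij : i = j
    · subst hij
      rw [if_pos rfl, Nat.sub_self, Nat.testBit_zero, Nat.testBit_zero]
      by_cases h4 : a % 2 = 1
      · have h5 : ¬ a' % 2 = 1 := fun h6 => (h0.1 h6) h4
        simp [h4, h5]
      · have h5 : a' % 2 = 1 := h0.2 h4
        simp [h4, h5]
    · rw [if_neg hij]
      obtain ⟨k, hk⟩ : ∃ k, i - j = k + 1 := ⟨i - j - 1, by omega⟩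
      rw [hk, Nat.testBit_succ, Nat.testBit_succ, h2]

lemma inc_lt {K j n : ℕ} (hj : j < K) (hn : n < 2 ^ K) : inc 2 j n < 2 ^ K := by
  apply Nat.lt_pow_two_of_testBit
  intro i hi
  rw [inc_testBit, if_neg (by omega)]
  exact Nat.testBit_lt_two_pow (lt_of_lt_of_le hn (Nat.pow_le_pow_right (by norm_num) hi))

lemma bits_inc {K j : ℕ} (hj : j < K) (n : ℕ) :
    bits K (inc 2 j n) = fl ⟨j, hj⟩ (bits K n) := by
  funext i
  unfold fl bits
  rw [inc_testBit]
  by_cases h : i = ⟨j, hj⟩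
  · subst h
    simp
  · rw [Function.update_of_ne h, if_neg]
    intro h2
    exact h (Fin.ext h2)

/-- the digit sensitivity of functions of small total influence -/
lemma digitSens_le {K : ℕ} {s : ℝ} (hK : 1 ≤ K) (J : ℕ → ℕ → ℕ)
    (G : ℕ → (Fin K → Bool) → Bool) (hG : ∀ i x, G i x = (J i (Nat.ofBits x)).testBit 0)
    (h : ∀ i < K, (∑ j : Fin K, (#{x : Fin K → Bool | G i x ≠ G i (fl j x)} : ℝ)) ≤
      s * 2 ^ K) : digitSensitivity 2 K (fun i N => J i N % 2) ≤ s := by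
  classical
  have hK0 : (0 : ℝ) < K := by exact_mod_cast hK
  unfold digitSensitivity
  rw [div_le_iff₀ (by positivity)]
  have h1 : ∀ i ∈ range K, (∑ j ∈ range K,
      (#{n ∈ range (2 ^ K) | J i n % 2 ≠ J i (inc 2 j n) % 2} : ℝ)) ≤ s * 2 ^ K := by
    intro i hi
    rw [Finset.sum_range]
    refine le_trans (Finset.sum_le_sum fun j _ => ?_) (h i (mem_range.1 hi))
    refine Nat.cast_le.2 (Finset.card_le_card_of_injOn (fun N => bits K N) ?_ ?_)
    · intro N hN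
      rw [mem_coe, mem_filter] at hN
      have hN1 : N < 2 ^ K := mem_range.1 hN.1
      have hN2 : inc 2 j N < 2 ^ K := inc_lt j.2 hN1
      have e1 : Nat.ofBits (bits K N) = N := num_bits hN1
      have e2 : Nat.ofBits (bits K (inc 2 j N)) = inc 2 j N := num_bits hN2
      rw [mem_coe, mem_filter]
      refine ⟨mem_univ _, ?_⟩
      have e3 : fl j (bits K N) = bits K (inc 2 j N) := (bits_inc j.2 N).symm
      show G i (bits K N) ≠ G i (fl j (bits K N))
      rw [e3, hG, hG, e1, e2]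
      intro h3
      apply hN.2
      rw [Nat.testBit_zero, Nat.testBit_zero] at h3
      have h4 := decide_eq_decide.1 h3
      have h5 := Nat.mod_two_eq_zero_or_one (J i N)
      have h6 := Nat.mod_two_eq_zero_or_one (J i (inc 2 j N))
      rcases h5 with h5 | h5 <;> rcases h6 with h6 | h6 <;> simp [h5, h6] at h4 ⊢
    · intro N hN M hM hNM
      have hN1 : N < 2 ^ K := mem_range.1 (mem_filter.1 (mem_coe.1 hN)).1
      have hM1 : M < 2 ^ K := mem_range.1 (mem_filter.1 (mem_coe.1 hM)).1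
      have e1 : Nat.ofBits (bits K N) = N := num_bits hN1
      have e2 : Nat.ofBits (bits K M) = M := num_bits hM1
      have h3 : bits K N = bits K M := hNM
      rw [← e1, ← e2, h3]
  have h2 := Finset.sum_le_sum h1
  rw [Finset.sum_const, card_range, nsmul_eq_mul] at h2
  have h3 : (((2 : ℕ) : ℝ)) = 2 := by norm_num
  rw [h3]
  calc _ ≤ (K : ℝ) * (s * 2 ^ K) := h2
    _ = s * (K * 2 ^ K) := by ring

/-- guesses of small total influence -/
theorem influence_clause (ε δ : ℝ) (hε : 0 < ε) (hδ : 0 < δ) : ∃ c : ℝ, 0 < c ∧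
    ∀ (A D : Set ℕ) (f : ℕ → ℕ), IsChoice A D f → ∀ K : ℕ, 1 ≤ K →
      δ * 2 ^ K ≤ #(upTo D (2 ^ K)) → ∀ J : ℕ → ℕ → ℕ, Guesses 2 K ε D f J →
      ∀ s : ℝ, 1 ≤ s → ∀ G : ℕ → (Fin K → Bool) → Bool,
      (∀ i x, G i x = (J i (Nat.ofBits x)).testBit 0) →
      (∀ i < K, (∑ j : Fin K, (#{x : Fin K → Bool | G i x ≠ G i (fl j x)} : ℝ)) ≤ s * 2 ^ K) →
      c * 2 ^ K * Real.exp (c * K / (s * Real.log (K + 2))) ≤
        ∑ n ∈ range (2 * 2 ^ K), (rep A n : ℝ) ^ 2 := by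
  obtain ⟨c, hc, h⟩ := main 2 0 le_rfl ε δ hε hδ
  refine ⟨c / 4, by positivity, fun A D f hf K hK hD J hJ s hs G hG hsum => ?_⟩
  have h1 := (h A D f hf).1 K (by push_cast; exact hD) _
    (Pool.Agent.Helper72.Adv.guesses_mod hJ)
  have h2 := digit_of (b := 2) (K := K) le_rfl hc hs h1.1 (digitSens_le hK J G hG hsum)
  push_cast at h2
  exact h2

/-- formulas -/
theorem formula_clause (ε δ : ℝ) (hε : 0 < ε) (hδ : 0 < δ) : ∃ c : ℝ, 0 < c ∧
    ∀ (A D : Set ℕ) (f : ℕ → ℕ), IsChoice A D f → ∀ K : ℕ, 1 ≤ K →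
      δ * 2 ^ K ≤ #(upTo D (2 ^ K)) → ∀ J : ℕ → ℕ → ℕ, Guesses 2 K ε D f J →
      ∀ L : ℕ, 1 ≤ L →
      (∀ i < K, ∃ M ≤ L, Formula M fun x : Fin K → Bool => (J i (Nat.ofBits x)).testBit 0) →
      c * 2 ^ K * Real.exp (c * K / (√L * Real.log (K + 2))) ≤
        ∑ n ∈ range (2 * 2 ^ K), (rep A n : ℝ) ^ 2 := by
  classical
  obtain ⟨c, hc, h⟩ := influence_clause ε δ hε hδ
  refine ⟨c, hc, fun A D f hf K hK hD J hJ L hL hF => ?_⟩
  have hL1 : (1 : ℝ) ≤ L := by exact_mod_cast hL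
  obtain ⟨G, hG⟩ : ∃ G : ℕ → (Fin K → Bool) → Bool,
      ∀ i, G i = fun x => (J i (Nat.ofBits x)).testBit 0 := ⟨_, fun _ => rfl⟩
  refine h A D f hf K hK hD J hJ (√L) (Real.one_le_sqrt.2 hL1) G (fun i x => by rw [hG i]) ?_
  intro i hi
  obtain ⟨M, hM, hF1⟩ := hF i hi
  rw [← hG i] at hF1
  have h1 := sens_formula hF1
  have hML : (M : ℝ) ≤ L := by exact_mod_cast hM
  refine abs_le_of_sq_le_sq' ?_ (by positivity) |>.2
  refine h1.trans ?_
  rw [mul_pow, Real.sq_sqrt (Nat.cast_nonneg _), ← pow_mul, mul_comm K 2, pow_mul]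
  norm_num
  exact hM

end Pool.Agent.Helper72.Infl
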