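import Pool.Agent.Helper45.SE.Khr
import Pool.Agent.Helper72.AC.Infl

set_option autoImplicit false

/-!
Guesses of small total influence, in terms of `tot`; formulas.
-/

namespace Pool.Agent.Helper72.Infl

open Finset
open Pool.Agent.Helper57.U2 (rep IsChoice upTo Guesses)
open Pool.Agent.Helper45.SE (tot)

/-- guesses of total influence at most `s` -/
theorem tot_clause (ε δ : ℝ) (hε : 0 < ε) (hδ : 0 < δ) : ∃ c : ℝ, 0 < c ∧
    ∀ (A D : Set ℕ) (f : ℕ → ℕ), IsChoice A D f → ∀ K : ℕ, 1 ≤ K →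
      δ * 2 ^ K ≤ #(upTo D (2 ^ K)) → ∀ J : ℕ → ℕ → ℕ, Guesses 2 K ε D f J →
      ∀ s : ℝ, 1 ≤ s →
      (∀ i < K, (tot fun x : Fin K → Bool => (J i (Nat.ofBits x)).testBit 0 : ℝ) ≤ s * 2 ^ K) →
      c * 2 ^ K * Real.exp (c * K / (s * Real.log (K + 2))) ≤
        ∑ n ∈ range (2 * 2 ^ K), (rep A n : ℝ) ^ 2 := by
  obtain ⟨c, hc, h⟩ := influence_clause ε δ hε hδ
  refine ⟨c, hc, fun A D f hf K hK hD J hJ s hs hsum => ?_⟩
  refine h A D f hf K hK hD J hJ s hs (fun i x => (J i (Nat.ofBits x)).testBit 0)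
    (fun _ _ => rfl) ?_
  intro i hi
  refine le_trans (le_of_eq ?_) (hsum i hi)
  unfold tot
  push_cast
  rfl

/-- guesses computed by formulas of size at most `L` -/
theorem formula_clause2 (ε δ : ℝ) (hε : 0 < ε) (hδ : 0 < δ) : ∃ c : ℝ, 0 < c ∧
    ∀ (A D : Set ℕ) (f : ℕ → ℕ), IsChoice A D f → ∀ K : ℕ, 1 ≤ K →
      δ * 2 ^ K ≤ #(upTo D (2 ^ K)) → ∀ J : ℕ → ℕ → ℕ, Guesses 2 K ε D f J →
      ∀ L : ℕ, 1 ≤ L → (∀ i < K, ∃ M ≤ L,
        Pool.Agent.Helper45.SE.Formula M fun x : Fin K → Bool =>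
          (J i (Nat.ofBits x)).testBit 0) →
      c * 2 ^ K * Real.exp (c * K / (√L * Real.log (K + 2))) ≤
        ∑ n ∈ range (2 * 2 ^ K), (rep A n : ℝ) ^ 2 := by
  obtain ⟨c, hc, h⟩ := tot_clause ε δ hε hδ
  refine ⟨c, hc, fun A D f hf K hK hD J hJ L hL hF => ?_⟩
  have hL1 : (1 : ℝ) ≤ L := by exact_mod_cast hL
  refine h A D f hf K hK hD J hJ (√L) (Real.one_le_sqrt.2 hL1) fun i hi => ?_
  obtain ⟨M, hM, hF1⟩ := hF i hi
  have hML : (M : ℝ) ≤ L := by exact_mod_cast hM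
  exact (Pool.Agent.Helper45.SE.formula_tot hF1).trans
    (mul_le_mul_of_nonneg_right (Real.sqrt_le_sqrt hML) (by positivity))

end Pool.Agent.Helper72.Infl
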