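import Mathlib

/-! Random restrictions: counting lemmas. -/

set_option autoImplicit false

namespace Pool.Agent.Helper72.AC

open Finset

/-- restriction data: `ω.1 i = 0` means that the variable stays free -/
abbrev Om (n Q : ℕ) := (Fin n → Fin Q) × (Fin n → Bool)

/-- `x` lies in the subcube `(V, z)` -/
def InC {n : ℕ} (V : Finset (Fin n)) (z x : Fin n → Bool) : Prop := ∀ i, i ∉ V → x i = z i

instance {n : ℕ} (V : Finset (Fin n)) (z x : Fin n → Bool) : Decidable (InC V z x) := by
  unfold InC; infer_instance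

/-- new free set -/
def nV {n Q : ℕ} (V : Finset (Fin n)) (σ : Fin n → Fin Q) : Finset (Fin n) :=
  V.filter fun i => (σ i).val = 0

/-- new base point -/
def nz {n : ℕ} (V : Finset (Fin n)) (z ρ : Fin n → Bool) : Fin n → Bool :=
  fun i => if i ∈ V then ρ i else z i

/-- junta on the subcube -/
def Jun {n : ℕ} (F : (Fin n → Bool) → Bool) (V : Finset (Fin n)) (z : Fin n → Bool) (b : ℕ) :
    Prop :=
  ∃ B ⊆ V, B.card ≤ b ∧ ∀ x x', InC V z x → InC V z x' → (∀ i ∈ B, x i = x' i) → F x = F x'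

/-- certificates of size `c` at all ones -/
def Cert {n : ℕ} (F : (Fin n → Bool) → Bool) (V : Finset (Fin n)) (z : Fin n → Bool) (c : ℕ) :
    Prop :=
  ∀ x, InC V z x → F x = true →
    ∃ B ⊆ V, B.card ≤ c ∧ ∀ x', InC V z x' → (∀ i ∈ B, x' i = x i) → F x' = true

lemma nV_sub {n Q : ℕ} (V : Finset (Fin n)) (σ : Fin n → Fin Q) : nV V σ ⊆ V :=
  Finset.filter_subset _ _

/-- the refined subcube is inside -/
lemma InC.up {n Q : ℕ} {V : Finset (Fin n)} {z ρ x : Fin n → Bool} {σ : Fin n → Fin Q}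
    (h : InC (nV V σ) (nz V z ρ) x) : InC V z x := by
  intro i hi
  have h1 := h i (fun hh => hi (nV_sub V σ hh))
  rw [h1, nz, if_neg hi]

lemma Jun.mono {n : ℕ} {F : (Fin n → Bool) → Bool} {V V' : Finset (Fin n)}
    {z z' : Fin n → Bool} {b b' : ℕ} (hb : b ≤ b')
    (hz : ∀ x, InC V' z' x → InC V z x) (h : Jun F V z b) : Jun F V' z' b' := by
  classical
  obtain ⟨B, _, hBc, hB⟩ := h
  refine ⟨B ∩ V', Finset.inter_subset_right, ?_, ?_⟩
  · exact (Finset.card_le_card Finset.inter_subset_left).trans (hBc.trans hb)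
  · intro x x' hx hx' he
    refine hB x x' (hz x hx) (hz x' hx') fun i hi => ?_
    by_cases hiV : i ∈ V'
    · exact he i (Finset.mem_inter.2 ⟨hi, hiV⟩)
    · rw [hx i hiV, hx' i hiV]

lemma card_pred_fst {n Q : ℕ} (P : (Fin n → Fin Q) → Prop) [DecidablePred P] :
    (univ.filter fun ω : Om n Q => P ω.1).card = (univ.filter P).card * 2 ^ n := by
  have h : (univ.filter fun ω : Om n Q => P ω.1) = (univ.filter P) ×ˢ univ := by
    ext ω
    simp
  rw [h, Finset.card_product]
  simp

lemma card_Om (n Q : ℕ) : Fintype.card (Om n Q) = Q ^ n * 2 ^ n := by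
  simp [Om]

lemma prod_two {n : ℕ} (B : Finset (Fin n)) (a : ℕ) : (∏ i : Fin n, if i ∈ B then a else 1) =
    a ^ B.card := by
  rw [Finset.prod_ite_mem, Finset.univ_inter, Finset.prod_const]

/-- number of `σ` with values in a set of size `a` on `T` -/
lemma card_pi {n Q : ℕ} (T : Finset (Fin n)) (S : Finset (Fin Q)) :
    (univ.filter fun σ : Fin n → Fin Q => ∀ i ∈ T, σ i ∈ S).card * Q ^ T.card =
      S.card ^ T.card * Q ^ n := by
  classical
  have h : (univ.filter fun σ : Fin n → Fin Q => ∀ i ∈ T, σ i ∈ S) =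
      Fintype.piFinset fun i => if i ∈ T then S else univ := by
    ext σ
    simp only [Finset.mem_filter, Finset.mem_univ, true_and, Fintype.mem_piFinset]
    refine forall_congr' fun i => ?_
    split_ifs with hi <;> simp [hi]
  rw [h, Fintype.card_piFinset]
  have h1 : ∀ i : Fin n, (if i ∈ T then S else (univ : Finset (Fin Q))).card =
      if i ∈ T then S.card else Q := by
    intro i
    split_ifs <;> simp
  simp_rw [h1]
  have h2 : (Q ^ n : ℕ) = (∏ i : Fin n, if i ∈ T then 1 else Q) * Q ^ T.card := by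
    rw [← prod_two T Q, ← Finset.prod_mul_distrib]
    rw [Finset.prod_congr rfl (g := fun _ => Q)]
    · simp
    · intro i _
      split_ifs <;> simp
  have h3 : (∏ i : Fin n, if i ∈ T then S.card else Q) =
      S.card ^ T.card * ∏ i : Fin n, if i ∈ T then 1 else Q := by
    rw [← prod_two T S.card, ← Finset.prod_mul_distrib]
    refine Finset.prod_congr rfl fun i _ => ?_
    split_ifs <;> simp
  rw [h3, h2]
  ring

/-- few of the variables of a small set stay free -/
lemma few_free {n Q : ℕ} (W V : Finset (Fin n)) (t : ℕ) :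
    (univ.filter fun ω : Om n Q => t ≤ (W ∩ nV V ω.1).card).card * Q ^ t ≤
      W.card ^ t * Fintype.card (Om n Q) := by
  classical
  rw [card_pred_fst (fun σ => t ≤ (W ∩ nV V σ).card), card_Om]
  rcases Nat.eq_zero_or_pos Q with hQ | hQ
  · subst hQ
    rcases Nat.eq_zero_or_pos t with ht | ht
    · subst ht
      simp only [pow_zero, mul_one, one_mul]
      refine Nat.mul_le_mul_right _ ?_
      refine (Finset.card_le_univ _).trans ?_
      simp
    · rw [zero_pow ht.ne', mul_zero]
      exact Nat.zero_le _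
  have hsub : (univ.filter fun σ : Fin n → Fin Q => t ≤ (W ∩ nV V σ).card) ⊆
      (W.powersetCard t).biUnion fun T => univ.filter fun σ : Fin n → Fin Q =>
        ∀ i ∈ T, σ i ∈ (univ.filter fun a : Fin Q => a.val = 0) := by
    intro σ hσ
    rw [Finset.mem_filter] at hσ
    obtain ⟨T, hT, hTc⟩ := Finset.exists_subset_card_eq hσ.2
    rw [Finset.mem_biUnion]
    refine ⟨T, Finset.mem_powersetCard.2 ⟨hT.trans Finset.inter_subset_left, hTc⟩, ?_⟩
    rw [Finset.mem_filter]
    refine ⟨Finset.mem_univ _, fun i hi => ?_⟩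
    have := (Finset.mem_filter.1 (Finset.mem_inter.1 (hT hi)).2).2
    simpa using this
  have hone : (univ.filter fun a : Fin Q => a.val = 0).card = 1 := by
    rw [Finset.card_eq_one]
    refine ⟨⟨0, hQ⟩, ?_⟩
    ext a
    simp [Fin.ext_iff]
  have hcard : ∀ T ∈ W.powersetCard t, (univ.filter fun σ : Fin n → Fin Q =>
        ∀ i ∈ T, σ i ∈ (univ.filter fun a : Fin Q => a.val = 0)).card * Q ^ t = Q ^ n := by
    intro T hT
    have h := card_pi T (univ.filter fun a : Fin Q => a.val = 0)
    rw [hone, (Finset.mem_powersetCard.1 hT).2, one_pow, one_mul] at h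
    exact h
  have h1 : (univ.filter fun σ : Fin n → Fin Q => t ≤ (W ∩ nV V σ).card).card * Q ^ t ≤
      W.card ^ t * Q ^ n := by
    calc _ ≤ (∑ T ∈ W.powersetCard t, (univ.filter fun σ : Fin n → Fin Q =>
        ∀ i ∈ T, σ i ∈ (univ.filter fun a : Fin Q => a.val = 0)).card) * Q ^ t :=
          Nat.mul_le_mul_right _ ((Finset.card_le_card hsub).trans Finset.card_biUnion_le)
      _ = ∑ T ∈ W.powersetCard t, Q ^ n := by
          rw [Finset.sum_mul]
          exact Finset.sum_congr rfl hcard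
      _ = (W.card.choose t) * Q ^ n := by
          rw [Finset.sum_const, Finset.card_powersetCard, smul_eq_mul]
      _ ≤ _ := Nat.mul_le_mul_right _ (Nat.choose_le_pow _ _)
  calc _ = ((univ.filter fun σ : Fin n → Fin Q => t ≤ (W ∩ nV V σ).card).card * Q ^ t) * 2 ^ n := by
        ring
    _ ≤ (W.card ^ t * Q ^ n) * 2 ^ n := Nat.mul_le_mul_right _ h1
    _ = _ := by ring

/-- one step of the independence argument -/
lemma indep_step {n Q : ℕ} (hQ : 2 ≤ Q) (B : Finset (Fin n)) (τ : Fin n → Bool)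
    (E : Finset (Om n Q))
    (hE : ∀ ω ω' : Om n Q, (∀ i, i ∉ B → ω.1 i = ω'.1 i ∧ ω.2 i = ω'.2 i) → ω ∈ E → ω' ∈ E) :
    E.card ≤ 4 ^ B.card *
      (E.filter (fun ω => ∀ i ∈ B, (ω.1 i).val ≠ 0 ∧ ω.2 i = τ i)).card := by
  classical
  set φ : Om n Q → Om n Q := fun ω =>
    (fun i => if i ∈ B then (if (ω.1 i).val = 0 then ⟨1, by omega⟩ else ω.1 i) else ω.1 i,
      fun i => if i ∈ B then τ i else ω.2 i) with hφ
  have h1 : E.card ≤ 4 ^ B.card * (E.image φ).card := by
    refine Finset.card_le_mul_card_image E (4 ^ B.card) fun ω' hω' => ?_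
    have hsub : E.filter (fun ω => φ ω = ω') ⊆
        (Fintype.piFinset fun i => if i ∈ B then {⟨0, by omega⟩, ω'.1 i} else {ω'.1 i}) ×ˢ
        (Fintype.piFinset fun i => if i ∈ B then (univ : Finset Bool) else {ω'.2 i}) := by
      intro ω hω
      rw [Finset.mem_filter] at hω
      have e1 : ∀ i, (φ ω).1 i = ω'.1 i := fun i => by rw [hω.2]
      have e2 : ∀ i, (φ ω).2 i = ω'.2 i := fun i => by rw [hω.2]
      rw [Finset.mem_product, Fintype.mem_piFinset, Fintype.mem_piFinset]
      constructor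
      · intro i
        have e := e1 i
        rw [hφ] at e
        simp only at e
        split_ifs with hi
        · rw [if_pos hi] at e
          by_cases h0 : (ω.1 i).val = 0
          · rw [Finset.mem_insert]
            left
            exact Fin.ext h0
          · rw [if_neg h0] at e
            rw [Finset.mem_insert, Finset.mem_singleton]
            right
            exact e
        · rw [if_neg hi] at e
          rw [Finset.mem_singleton]
          exact e
      · intro i
        have e := e2 i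
        rw [hφ] at e
        simp only at e
        split_ifs with hi
        · exact Finset.mem_univ _
        · rw [if_neg hi] at e
          rw [Finset.mem_singleton]
          exact e
    refine (Finset.card_le_card hsub).trans ?_
    rw [Finset.card_product, Fintype.card_piFinset, Fintype.card_piFinset]
    have hA : (∏ i : Fin n, (if i ∈ B then ({⟨0, by omega⟩, ω'.1 i} : Finset (Fin Q))
        else {ω'.1 i}).card) ≤ 2 ^ B.card := by
      rw [← prod_two B 2]
      refine Finset.prod_le_prod' fun i _ => ?_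
      split_ifs
      · exact Finset.card_le_two
      · simp
    have hB : (∏ i : Fin n, (if i ∈ B then (univ : Finset Bool) else {ω'.2 i}).card) ≤
        2 ^ B.card := by
      rw [← prod_two B 2]
      refine Finset.prod_le_prod' fun i _ => ?_
      split_ifs <;> simp
    calc _ ≤ 2 ^ B.card * 2 ^ B.card := Nat.mul_le_mul hA hB
      _ = 4 ^ B.card := by rw [← mul_pow]; norm_num
  refine h1.trans (Nat.mul_le_mul_left _ (Finset.card_le_card ?_))
  intro ω' hω'
  obtain ⟨ω, hω, rfl⟩ := Finset.mem_image.1 hω'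
  rw [Finset.mem_filter]
  refine ⟨hE ω _ (fun i hi => ?_) hω, fun i hi => ?_⟩
  · rw [hφ]
    simp [hi]
  · rw [hφ]
    simp only [if_pos hi, and_true]
    split_ifs with h0
    · simp
    · exact h0

/-- disjoint patterns: the probability that all of them fail -/
lemma fail_all {n Q : ℕ} (hQ : 2 ≤ Q) (c : ℕ) (τ : Finset (Fin n) → Fin n → Bool)
    (S : Finset (Finset (Fin n))) :
    (∀ B ∈ S, B.card ≤ c) → (∀ B ∈ S, ∀ B' ∈ S, B ≠ B' → Disjoint B B') →
    ((univ.filter (fun ω : Om n Q => ∀ B ∈ S, ¬ (∀ i ∈ B, (ω.1 i).val ≠ 0 ∧ ω.2 i = τ B i))).card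
      : ℝ) ≤ (1 - 1 / 4 ^ c) ^ S.card * Fintype.card (Om n Q) := by
  classical
  induction S using Finset.induction_on with
  | empty =>
    intro _ _
    simp only [Finset.notMem_empty, false_imp_iff, implies_true, Finset.filter_true,
      Finset.card_empty, pow_zero, one_mul]
    exact le_of_eq (by rw [Finset.card_univ])
  | insert B S hB ih =>
    intro hc hd
    have ih' := ih (fun B' hB' => hc B' (Finset.mem_insert_of_mem hB'))
      (fun B₁ h₁ B₂ h₂ => hd B₁ (Finset.mem_insert_of_mem h₁) B₂ (Finset.mem_insert_of_mem h₂))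
    set E := univ.filter (fun ω : Om n Q => ∀ B ∈ S, ¬ (∀ i ∈ B, (ω.1 i).val ≠ 0 ∧ ω.2 i = τ B i))
      with hEdef
    have hstep := indep_step hQ B (τ B) E (fun ω ω' hω hωE => by
      rw [hEdef, Finset.mem_filter] at hωE ⊢
      refine ⟨Finset.mem_univ _, fun B' hB' hh => hωE.2 B' hB' fun i hi => ?_⟩
      have hne : B' ≠ B := fun h => hB (h ▸ hB')
      have hdis := hd B' (Finset.mem_insert_of_mem hB') B (Finset.mem_insert_self _ _) hne
      have hi' : i ∉ B := Finset.disjoint_left.1 hdis hi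
      rw [(hω i hi').1, (hω i hi').2]
      exact hh i hi)
    have hEq : (univ.filter (fun ω : Om n Q => ∀ B' ∈ insert B S,
        ¬ (∀ i ∈ B', (ω.1 i).val ≠ 0 ∧ ω.2 i = τ B' i))) =
        E.filter (fun ω => ¬ ∀ i ∈ B, (ω.1 i).val ≠ 0 ∧ ω.2 i = τ B i) := by
      ext ω
      rw [hEdef]
      simp only [Finset.mem_filter, Finset.mem_univ, true_and, Finset.forall_mem_insert]
      exact and_comm
    rw [hEq, Finset.card_insert_of_notMem hB]
    have hsplit := Finset.card_filter_add_card_filter_not (s := E)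
      (fun ω => ∀ i ∈ B, (ω.1 i).val ≠ 0 ∧ ω.2 i = τ B i)
    have hsplitR : ((E.filter (fun ω => ∀ i ∈ B, (ω.1 i).val ≠ 0 ∧ ω.2 i = τ B i)).card : ℝ) +
        ((E.filter (fun ω => ¬ ∀ i ∈ B, (ω.1 i).val ≠ 0 ∧ ω.2 i = τ B i)).card : ℝ) = E.card := by
      exact_mod_cast hsplit
    have hstepR : (E.card : ℝ) ≤ 4 ^ B.card *
        ((E.filter (fun ω => ∀ i ∈ B, (ω.1 i).val ≠ 0 ∧ ω.2 i = τ B i)).card : ℝ) := by
      exact_mod_cast hstep
    have h4 : (4 : ℝ) ^ B.card ≤ 4 ^ c :=
      pow_le_pow_right₀ (by norm_num) (hc B (Finset.mem_insert_self _ _))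
    have h5 : (E.card : ℝ) / 4 ^ c ≤
        ((E.filter (fun ω => ∀ i ∈ B, (ω.1 i).val ≠ 0 ∧ ω.2 i = τ B i)).card : ℝ) := by
      rw [div_le_iff₀ (by positivity)]
      calc (E.card : ℝ) ≤ _ := hstepR
        _ ≤ 4 ^ c * _ := mul_le_mul_of_nonneg_right h4 (Nat.cast_nonneg _)
        _ = _ := mul_comm _ _
    have h6 : ((E.filter (fun ω => ¬ ∀ i ∈ B, (ω.1 i).val ≠ 0 ∧ ω.2 i = τ B i)).card : ℝ) ≤
        (1 - 1 / 4 ^ c) * E.card := by
      have : (1 - 1 / 4 ^ c) * (E.card : ℝ) = E.card - E.card / 4 ^ c := by ring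
      rw [this]
      linarith
    have h7 : (0 : ℝ) ≤ 1 - 1 / 4 ^ c := by
      have : (1 : ℝ) / 4 ^ c ≤ 1 := by
        rw [div_le_one (by positivity)]
        exact one_le_pow₀ (by norm_num)
      linarith
    calc _ ≤ (1 - 1 / 4 ^ c) * (E.card : ℝ) := h6
      _ ≤ (1 - 1 / 4 ^ c) * ((1 - 1 / 4 ^ c) ^ S.card * Fintype.card (Om n Q)) :=
        mul_le_mul_of_nonneg_left ih' h7
      _ = _ := by ring

lemma one_sub_pow_le (M : ℕ) (hM : 0 < M) : (1 - 1 / (M : ℝ)) ^ M ≤ 1 / 2 := by
  have hM' : (1 : ℝ) ≤ M := by exact_mod_cast hM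
  have h0 : (0 : ℝ) ≤ 1 - 1 / M := by
    have : 1 / (M : ℝ) ≤ 1 := by rw [div_le_one (by linarith)]; exact hM'
    linarith
  have h1 : 1 - 1 / (M : ℝ) ≤ Real.exp (-(1 / M)) := by
    have := Real.add_one_le_exp (-(1 / (M : ℝ)))
    linarith
  calc (1 - 1 / (M : ℝ)) ^ M ≤ (Real.exp (-(1 / M))) ^ M := pow_le_pow_left₀ h0 h1 M
    _ = Real.exp (-1) := by
      rw [← Real.exp_nat_mul]
      congr 1
      field_simp
    _ ≤ 1 / 2 := by
      rw [Real.exp_neg, ← one_div]
      refine one_div_le_one_div_of_le (by norm_num) ?_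
      have := Real.add_one_le_exp (1 : ℝ)
      linarith

end Pool.Agent.Helper72.AC
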