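import Pool.Agent.Helper72.AC.Circ
import Pool.Agent.Helper72.PG.Sharp

/-! A basis with a rule computed by circuits of depth two and few representations. -/

set_option autoImplicit false

namespace Pool.Agent.Helper72.AC

open Finset Filter Pool.Agent.Helper72.PG

lemma circ_const {n S : ℕ} (hS : 1 ≤ S) (b : Bool) : ∀ d, ∀ g : (Fin n → Bool) → Bool,
    (∀ x, g x = b) → Circ n S d g
  | 0, g, hg => Or.inr ⟨b, hg⟩
  | d + 1, g, hg => by
    refine ⟨fun _ _ => true, fun _ => true, b, fun j => circ_const hS true d _ fun _ => rfl,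
      fun x => ?_⟩
    rw [hg x]
    simp only [exists_const_iff, and_true, true_iff]
    exact ⟨⟨0, hS⟩⟩

lemma circ_or {n S d : ℕ} {κ : Type} [Fintype κ] (hκ : Fintype.card κ ≤ S) (hS : 1 ≤ S)
    (h : κ → (Fin n → Bool) → Bool) (s : κ → Bool) (t : Bool) (hh : ∀ k, Circ n S d (h k))
    {g : (Fin n → Bool) → Bool} (hg : ∀ x, g x = t ↔ ∃ k, h k x = s k) : Circ n S (d + 1) g := by
  rcases isEmpty_or_nonempty κ with he | hne
  · refine circ_const hS (!t) (d + 1) g fun x => ?_
    have h1 : ¬ g x = t := by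
      rw [hg x]
      rintro ⟨k, _⟩
      exact he.elim k
    cases t <;> cases hgx : g x <;> simp_all
  · obtain ⟨φ⟩ : Nonempty (κ ↪ Fin S) := by
      refine Function.Embedding.nonempty_of_card_le ?_
      rwa [Fintype.card_fin]
    have hsurj : ∃ ψ : Fin S → κ, ∀ k, ψ (φ k) = k :=
      ⟨Function.invFun φ, Function.leftInverse_invFun φ.injective⟩
    obtain ⟨ψ, hψ⟩ := hsurj
    refine ⟨fun j => h (ψ j), fun j => s (ψ j), t, fun j => hh _, fun x => ?_⟩
    rw [hg x]
    constructor
    · rintro ⟨k, hk⟩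
      refine ⟨φ k, ?_⟩
      show h (ψ (φ k)) x = s (ψ (φ k))
      rw [hψ]
      exact hk
    · rintro ⟨j, hj⟩
      exact ⟨ψ j, hj⟩

/-- a function of few variables has small circuits of depth two -/
lemma circ_of_local {n S : ℕ} (T : Finset (Fin n)) (hT : 2 ^ T.card ≤ S)
    {g : (Fin n → Bool) → Bool} (hg : ∀ x x', (∀ i ∈ T, x i = x' i) → g x = g x') :
    Circ n S 2 g := by
  classical
  have hS : 1 ≤ S := Nat.one_le_two_pow.trans hT
  -- patterns
  set κ := {p : T → Bool // g (fun i => if h : i ∈ T then p ⟨i, h⟩ else false) = true} with hκ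
  have hcard : Fintype.card κ ≤ S := by
    refine (Fintype.card_subtype_le _).trans ?_
    rw [Fintype.card_fun, Fintype.card_bool, Fintype.card_coe]
    exact hT
  have hcardT : Fintype.card T ≤ S := by
    rw [Fintype.card_coe]
    exact (Nat.lt_two_pow_self).le.trans hT
  refine circ_or (d := 1) hcard hS (fun (p : κ) x => decide (∀ i : T, x i = p.1 i)) (fun _ => true) true
    (fun p => ?_) fun x => ?_
  · refine circ_or (d := 0) hcardT hS (fun (i : T) x => x i) (fun i => !(p.1 i)) false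
      (fun i => Or.inl ⟨i, fun _ => rfl⟩) fun x => ?_
    rw [decide_eq_false_iff_not]
    push Not
    refine exists_congr fun i => ?_
    cases x i <;> cases p.1 i <;> simp
  · constructor
    · intro hx
      refine ⟨⟨fun i => x i, ?_⟩, ?_⟩
      · rw [← hx]
        refine hg _ _ fun i hi => ?_
        rw [dif_pos hi]
      · rw [decide_eq_true_iff]
        intro i
        rfl
    · rintro ⟨p, hp⟩
      rw [decide_eq_true_iff] at hp
      rw [← p.2]
      refine hg _ _ fun i hi => ?_
      rw [dif_pos hi]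
      exact hp ⟨i, hi⟩

/-- few representations for block sets -/
lemma few_reps {A : Set ℕ} {K : ℕ} (hK : 1 ≤ K)
    (hrep : ∀ s, ∀ m < 2 * 2 ^ s, Pool.Agent.Helper72.NS.rep A m ≤ K * (s + 1))
    {s : ℕ → ℕ} (hs1 : ∀ l, 1 ≤ s l) (hs2 : ∀ l, s l ≤ l + 1) (hst : Tendsto s atTop atTop)
    {ε : ℝ} (hε : 0 < ε) :
    ∀ᶠ n : ℕ in atTop, (Pool.Agent.Helper72.NS.rep (BA s A) n : ℝ) ≤ (n : ℝ) ^ ε := by
  obtain ⟨B, hB0, hB⟩ := sum_log_le hst K hK (show 0 < ε * Real.log 2 / 4 by
    have := Real.log_pos (by norm_num : (1 : ℝ) < 2)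
    positivity)
  have hl2 : 0 < Real.log 2 := Real.log_pos (by norm_num)
  set δ := ε * Real.log 2 / 4 with hδ
  have hδ0 : 0 < δ := by positivity
  have hlarge : ∀ᶠ n : ℕ in atTop, B + δ ≤ ε / 2 * Real.log n := by
    have h1 : Tendsto (fun n : ℕ => ε / 2 * Real.log n) atTop atTop :=
      (Real.tendsto_log_atTop.comp tendsto_natCast_atTop_atTop).const_mul_atTop (by positivity)
    exact h1.eventually_ge_atTop _
  filter_upwards [hlarge, Filter.eventually_ge_atTop 1] with n hn hn1
  have hn0 : (0 : ℝ) < n := by exact_mod_cast hn1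
  obtain ⟨k, hk1, hk2⟩ : ∃ k, 2 ^ bpos s k ≤ n ∧ n < 2 ^ bpos s (k + 1) := by
    obtain ⟨k, hk1, hk2⟩ := exists_block hs1 (Nat.log 2 n)
    refine ⟨k, ?_, ?_⟩
    · exact (Nat.pow_le_pow_right (by norm_num) hk1).trans (Nat.pow_log_le_self 2 (by omega))
    · exact (Nat.lt_pow_succ_log_self (by norm_num) n).trans_le
        (Nat.pow_le_pow_right (by norm_num) hk2)
  have h1 := rep_BA_le (s := s) (A := A) (ρ := fun i => K * (s i + 1))
    (fun i m hm => hrep (s i) m hm) hk2
  rcases Nat.eq_zero_or_pos (Pool.Agent.Helper72.NS.rep (BA s A) n) with h0 | h0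
  · rw [h0, Nat.cast_zero]
    positivity
  · have h0r : (0 : ℝ) < Pool.Agent.Helper72.NS.rep (BA s A) n := by exact_mod_cast h0
    have h1r : (Pool.Agent.Helper72.NS.rep (BA s A) n : ℝ) ≤
        ((∏ i ∈ Finset.range (k + 1), (2 * (K * (s i + 1))) : ℕ) : ℝ) := by exact_mod_cast h1
    have h2 := (Real.log_le_log h0r h1r).trans (hB (k + 1))
    have h3 : bpos s (k + 1) ≤ 2 * bpos s k + 1 := by
      rw [bpos_succ]
      have e1 := hs2 k
      have e2 := le_bpos hs1 k
      omega
    have h3r : (bpos s (k + 1) : ℝ) ≤ 2 * bpos s k + 1 := by exact_mod_cast h3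
    have h4 : (bpos s k : ℝ) * Real.log 2 ≤ Real.log n := by
      have e1 : ((2 : ℝ) ^ bpos s k) ≤ n := by exact_mod_cast hk1
      have e2 := Real.log_le_log (by positivity) e1
      rwa [Real.log_pow] at e2
    have h5 : Real.log (Pool.Agent.Helper72.NS.rep (BA s A) n) ≤ ε * Real.log n := by
      have e1 : δ * (bpos s (k + 1) : ℝ) ≤ δ * (2 * bpos s k + 1) :=
        mul_le_mul_of_nonneg_left h3r hδ0.le
      have e2 : δ * (2 * bpos s k + 1) = ε / 2 * (bpos s k * Real.log 2) + δ := by
        rw [hδ]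
        ring
      have e3 : ε / 2 * (bpos s k * Real.log 2) ≤ ε / 2 * Real.log n :=
        mul_le_mul_of_nonneg_left h4 (by positivity)
      linarith
    rw [← Real.log_le_log_iff h0r (by positivity), Real.log_rpow hn0]
    exact h5

/-- each digit of the block rule is a function of one block -/
lemma brule_digit {s : ℕ → ℕ} (hs1 : ∀ l, 1 ≤ s l) {α : ℕ → ℕ} (hα : ∀ d, α d ≤ d) {l i : ℕ}
    (h1 : bpos s l ≤ i) (h2 : i < bpos s (l + 1)) (N : ℕ) :
    (brule s α N).testBit i = (α (bdg s l N)).testBit (i - bpos s l) := by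
  have hx : ∀ l, α (bdg s l N) < 2 ^ s l := fun l => (hα _).trans_lt (bdg_lt s l N)
  have h3 := brule_mod hs1 hα N (l + 1)
  have h4 : (brule s α N).testBit i = (brule s α N % 2 ^ bpos s (l + 1)).testBit i := by
    rw [Nat.testBit_mod_two_pow, decide_eq_true h2, Bool.true_and]
  rw [h4, h3, basm_succ]
  have h5 := basm_lt (s := s) hx l
  have h6 : basm s (fun l => α (bdg s l N)) l + α (bdg s l N) * 2 ^ bpos s l =
      2 ^ bpos s l * α (bdg s l N) + basm s (fun l => α (bdg s l N)) l := by ring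
  rw [h6, Nat.testBit_two_pow_mul_add _ h5, if_neg (by omega)]

theorem sharpAC : ∃ (A : Set ℕ) (f : ℕ → ℕ),
    (∀ N, f N ≤ N ∧ f N ∈ A ∧ N - f N ∈ A) ∧
    (∀ n, 2 ≤ n → ∀ i < n, Circ n (n ^ 2) 2 fun x => (f (num x)).testBit i) ∧
    ∀ ε : ℝ, 0 < ε → ∀ᶠ m : ℕ in atTop, (rep A m : ℝ) ≤ (m : ℝ) ^ ε := by
  obtain ⟨A, α, K, hK, hα, hrep⟩ := base_few
  set s : ℕ → ℕ := fun l => Nat.log 2 (l + 2) with hs
  have hs1 : ∀ l, 1 ≤ s l := fun l => Nat.log_pos (by norm_num) (by omega)
  have hs2 : ∀ l, s l ≤ l + 1 := fun l => by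
    have := Nat.log_lt_self 2 (show l + 2 ≠ 0 by omega)
    rw [hs]
    simp only
    omega
  have hst : Tendsto s atTop atTop := by
    rw [tendsto_atTop]
    intro b
    filter_upwards [Filter.eventually_ge_atTop (2 ^ b)] with l hl
    rw [hs]
    simp only
    exact (Nat.le_log_iff_pow_le (by norm_num) (by omega)).2 (by omega)
  refine ⟨BA s A, brule s α, fun n => brule_spec hs1 hα n, fun n hn i hi => ?_, fun ε hε =>
    few_reps hK hrep hs1 hs2 hst hε⟩
  obtain ⟨l, hl1, hl2⟩ := exists_block hs1 i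
  set T : Finset (Fin n) := univ.filter fun j => bpos s l ≤ j.val ∧ j.val < bpos s (l + 1) with hT
  have hTc : T.card ≤ s l := by
    have h1 : (T.map Fin.valEmbedding) ⊆ Finset.Ico (bpos s l) (bpos s (l + 1)) := by
      intro j hj
      rw [Finset.mem_map] at hj
      obtain ⟨j', hj', rfl⟩ := hj
      rw [hT, Finset.mem_filter] at hj'
      exact Finset.mem_Ico.2 hj'.2
    have h2 := Finset.card_le_card h1
    rw [Finset.card_map, Nat.card_Ico, bpos_succ, Nat.add_sub_cancel_left] at h2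
    exact h2
  have hln : l + 2 ≤ n ^ 2 := by
    have h1 := le_bpos hs1 l
    have h2 : l + 1 ≤ n := by omega
    nlinarith
  refine circ_of_local T ?_ fun x x' he => ?_
  · calc 2 ^ T.card ≤ 2 ^ s l := Nat.pow_le_pow_right (by norm_num) hTc
      _ ≤ l + 2 := Nat.pow_log_le_self 2 (by omega)
      _ ≤ n ^ 2 := hln
  · rw [brule_digit hs1 (fun d => (hα d).1) hl1 hl2, brule_digit hs1 (fun d => (hα d).1) hl1 hl2]
    have h1 : bdg s l (num x) = bdg s l (num x') := by
      refine Nat.eq_of_testBit_eq fun j => ?_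
      unfold bdg
      rw [Nat.testBit_mod_two_pow, Nat.testBit_mod_two_pow, Nat.testBit_div_two_pow,
        Nat.testBit_div_two_pow]
      by_cases hj : j < s l
      · congr 1
        unfold num
        rw [Nat.testBit_ofBits, Nat.testBit_ofBits]
        split_ifs with hjn
        · refine he _ ?_
          rw [hT, Finset.mem_filter]
          refine ⟨Finset.mem_univ _, ?_, ?_⟩
          · simp only
            omega
          · simp only
            rw [bpos_succ]
            omega
        · rfl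
      · rw [decide_eq_false hj, Bool.false_and, Bool.false_and]
    rw [h1]

end Pool.Agent.Helper72.AC
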