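import Pool.Agent.Helper1.BX.Main2
import Pool.Agent.Helper29.AC.Cube2
import Pool.Agent.Helper98.AC.Main3
import Pool.Agent.Helper72.AC.SharpAC
import Pool.Agent.Helper45.AC.Linear
import Pool.Agent.Helper45.AC.XorMain

/-!
Sets of integers whose representations, or elements, are found by circuits of constant depth.
-/

set_option autoImplicit false

open Filter
open Pool.Agent.Helper45.AC (Lin XCirc)

namespace Pool.Agent.Helper72.AC.ConstantDepth

/-- the number of pairs `(a, b)` of elements of `A` with `a + b = m` -/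
noncomputable def rep (A : Set ℕ) (m : ℕ) : ℕ :=
  Set.ncard {p : ℕ × ℕ | p.1 ∈ A ∧ p.2 ∈ A ∧ p.1 + p.2 = m}

/-- the Boolean functions of `n` variables computed by circuits of depth `d` and fan-in `S`: a gate
of level `d + 1` is the OR of `S` gates of level `d` or their negations (repetitions are allowed),
or the negation of such an OR; at level `0` there are the variables and the constants -/
def Circuit (n S : ℕ) : ℕ → ((Fin n → Bool) → Bool) → Prop
  | 0, g => (∃ i, ∀ x, g x = x i) ∨ ∃ b, ∀ x, g x = b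
  | d + 1, g => ∃ (h : Fin S → (Fin n → Bool) → Bool) (s : Fin S → Bool) (t : Bool),
      (∀ j, Circuit n S d (h j)) ∧ ∀ x, g x = t ↔ ∃ j, h j x = s j

/-- the first `k` binary digits of `F N` (`N < 2 ^ n`) are computed from the `n` binary digits of
`N` by circuits of depth `d` and fan-in `S` -/
def Computed (n S d k : ℕ) (F : ℕ → ℕ) : Prop :=
  ∀ i < k, Circuit n S d fun x => (F (Nat.ofBits x)).testBit i

theorem circuit_iff (n S : ℕ) : ∀ (d : ℕ) (g : (Fin n → Bool) → Bool),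
    Circuit n S d g ↔ Pool.Agent.Helper72.AC.Circ n S d g
  | 0, _ => Iff.rfl
  | d + 1, g => by
    constructor
    · rintro ⟨h, s, t, h1, h2⟩
      exact ⟨h, s, t, fun j => (circuit_iff n S d _).1 (h1 j), h2⟩
    · rintro ⟨h, s, t, h1, h2⟩
      exact ⟨h, s, t, fun j => (circuit_iff n S d _).2 (h1 j), h2⟩

theorem result :
    -- (1) choices of representations
    (∀ (d K : ℕ) (ε : ℝ), 0 < ε → ∀ᶠ n : ℕ in atTop, ∀ (A : Set ℕ) (f : ℕ → ℕ),
      Computed n (n ^ K) d n f →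
      (2 : ℝ) ^ n ≤ (n : ℝ) ^ K * Set.ncard {N | N < 2 ^ n ∧ f N ≤ N ∧ f N ∈ A ∧ N - f N ∈ A} →
      ∃ m < 2 ^ (n + 1), Real.exp ((n : ℝ) ^ (1 - ε)) ≤ rep A m) ∧
    -- (2) parametrisations of elements
    (∀ (d K L : ℕ) (ε : ℝ), 0 < ε → ∀ᶠ n : ℕ in atTop, ∀ (A : Set ℕ) (G : ℕ → ℕ),
      Computed n (n ^ K) d (L * n) G → Set.InjOn G {N | N < 2 ^ n ∧ G N ∈ A} →
      (∀ N < 2 ^ n, G N ∈ A → G N < 2 ^ (L * n)) →
      (2 : ℝ) ^ n ≤ (n : ℝ) ^ K * Set.ncard {N | N < 2 ^ n ∧ G N ∈ A} →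
      ∃ m < 2 ^ (L * n + 1), Real.exp ((n : ℝ) ^ (1 - ε)) ≤ rep A m) ∧
    -- (3) sharpness
    (∃ (A : Set ℕ) (f : ℕ → ℕ), (∀ N, f N ≤ N ∧ f N ∈ A ∧ N - f N ∈ A) ∧
      (∀ n, 2 ≤ n → Computed n (n ^ 2) 2 n f) ∧
      ∀ ε : ℝ, 0 < ε → ∀ᶠ m : ℕ in atTop, (rep A m : ℝ) ≤ (m : ℝ) ^ ε) ∧
    -- (4) with XOR gates (2) fails
    (∀ n : ℕ, ∃ (A : Set ℕ) (G : ℕ → ℕ) (P : ℕ → Finset (Fin n)),
      (∀ m, rep A m ≤ 2) ∧ Set.InjOn G {N | N < 2 ^ n} ∧
      (∀ N < 2 ^ n, G N ∈ A ∧ G N < 2 ^ (10 * n)) ∧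
      ∀ i < 10 * n, ∀ x : Fin n → Bool, (G (Nat.ofBits x)).testBit i =
        decide (Odd ((P i).filter fun j => x j = true).card)) ∧
    -- (5) choices computed by XOR gates and `|L|` AND gates
    (∀ (n : ℕ) (A : Set ℕ) (f : ℕ → ℕ) (L : List ((Fin n → Bool) → Bool)) (δ : ℝ),
      XCirc L → (∀ i < n, Lin L fun x => (f (Nat.ofBits x)).testBit i) →
      (1 + δ) / 2 * 2 ^ n ≤ Set.ncard {N | N < 2 ^ n ∧ f N ≤ N ∧ f N ∈ A ∧ N - f N ∈ A} →
      ∃ m < 2 ^ (n + 1), δ * (2 : ℝ) ^ (((n : ℝ) - 11 * L.length) / 8) ≤ (rep A m : ℝ) ^ 2) := by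
  refine ⟨fun d K ε hε => ?_, fun d K L ε hε => ?_, ?_, Pool.Agent.Helper45.AC.Bar.linear_barrier,
    Pool.Agent.Helper45.AC.xorMain⟩
  · filter_upwards [Pool.Agent.Helper1.BX.mainStmt2 Pool.Agent.Helper29.AC.cubeStmt2 d K ε hε]
      with n hn A f hf hc
    exact hn A f (fun i hi => (circuit_iff _ _ _ _).1 (hf i hi)) hc
  · filter_upwards [Pool.Agent.Helper98.AC.main3 d K L ε hε] with n hn A G hG hinj hlt hc
    have hnum : ∀ x : Fin n → Bool, Nat.ofBits x < 2 ^ n := Nat.ofBits_lt_two_pow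
    have hinj0 : ∀ x x' : Fin n → Bool, Nat.ofBits x = Nat.ofBits x' → x = x' := by
      intro x x' h
      funext i
      have h1 := Nat.testBit_ofBits_lt x i i.2
      have h2 := Nat.testBit_ofBits_lt x' i i.2
      rw [h] at h1
      exact h1.symm.trans h2
    refine hn (L * n) le_rfl A (fun x => G (Nat.ofBits x))
      (fun i hi => (circuit_iff _ _ _ _).1 (hG i hi)) (fun x hx => hlt _ (hnum x) hx)
      (fun x hx x' hx' h => hinj0 x x' (hinj ⟨hnum x, hx⟩ ⟨hnum x', hx'⟩ h)) (hc.trans ?_)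
    refine mul_le_mul_of_nonneg_left ?_ (by positivity)
    refine Nat.cast_le.2 ?_
    have hsub : {N | N < 2 ^ n ∧ G N ∈ A} ⊆
        (fun x : Fin n → Bool => Nat.ofBits x) '' {x | G (Nat.ofBits x) ∈ A} := by
      rintro N ⟨h1, h2⟩
      have h3 : Nat.ofBits (fun i : Fin n => N.testBit i) = N := by
        rw [Nat.ofBits_testBit, Nat.mod_eq_of_lt h1]
      refine ⟨fun i => N.testBit i, ?_, h3⟩
      show G (Nat.ofBits fun i : Fin n => N.testBit i) ∈ A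
      rw [h3]
      exact h2
    exact (Set.ncard_le_ncard hsub (Set.toFinite _)).trans (Set.ncard_image_le (Set.toFinite _))
  · obtain ⟨A, f, h1, h2, h3⟩ := Pool.Agent.Helper72.AC.sharpAC
    exact ⟨A, f, h1, fun n hn i hi => (circuit_iff _ _ _ _).2 (h2 n hn i hi), h3⟩

end Pool.Agent.Helper72.AC.ConstantDepth
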