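import Pool.Agent.Helper72.AC.Base

/-! Random restrictions: density and number of free variables. -/

set_option autoImplicit false

namespace Pool.Agent.Helper72.AC

open Finset

/-- density of `D` on the subcube -/
noncomputable def dens {n : ℕ} (D : Finset (Fin n → Bool)) (V : Finset (Fin n))
    (z : Fin n → Bool) : ℝ :=
  ((D.filter fun x => InC V z x).card : ℝ) / 2 ^ V.card

lemma card_pi_bool {n : ℕ} (T : Finset (Fin n)) (x : Fin n → Bool) :
    (univ.filter fun ρ : Fin n → Bool => ∀ i ∈ T, ρ i = x i).card * 2 ^ T.card = 2 ^ n := by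
  classical
  have h : (univ.filter fun ρ : Fin n → Bool => ∀ i ∈ T, ρ i = x i) =
      Fintype.piFinset fun i => if i ∈ T then {x i} else univ := by
    ext σ
    simp only [Finset.mem_filter, Finset.mem_univ, true_and, Fintype.mem_piFinset]
    refine forall_congr' fun i => ?_
    split_ifs with hi <;> simp [hi]
  rw [h, Fintype.card_piFinset]
  have h1 : ∀ i : Fin n, (if i ∈ T then {x i} else (univ : Finset Bool)).card =
      if i ∈ T then 1 else 2 := by
    intro i
    split_ifs <;> simp
  simp_rw [h1]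
  rw [← prod_two T 2, ← Finset.prod_mul_distrib, Finset.prod_congr rfl (g := fun _ => 2)]
  · simp
  · intro i _
    split_ifs <;> simp

/-- the average density when some variables are fixed at random -/
lemma avg_fixed {n : ℕ} (D : Finset (Fin n → Bool)) {I V : Finset (Fin n)} (hI : I ⊆ V)
    (z : Fin n → Bool) :
    ∑ ρ : Fin n → Bool, dens D I (nz V z ρ) = 2 ^ n * dens D V z := by
  classical
  unfold dens
  rw [← Finset.sum_div]
  have e1 : ∀ ρ x, InC I (nz V z ρ) x ↔ InC V z x ∧ ∀ i ∈ V \ I, ρ i = x i := by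
    intro ρ x
    constructor
    · intro h
      refine ⟨fun i hi => ?_, fun i hi => ?_⟩
      · rw [h i (fun hh => hi (hI hh)), nz, if_neg hi]
      · rw [Finset.mem_sdiff] at hi
        have := h i hi.2
        rw [nz, if_pos hi.1] at this
        exact this.symm
    · rintro ⟨h1, h2⟩ i hi
      by_cases hV : i ∈ V
      · rw [nz, if_pos hV]
        exact (h2 i (Finset.mem_sdiff.2 ⟨hV, hi⟩)).symm
      · rw [nz, if_neg hV]
        exact h1 i hV
  have e2 : ∑ ρ : Fin n → Bool, ((D.filter fun x => InC I (nz V z ρ) x).card : ℝ) =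
      ∑ x ∈ D.filter (fun x => InC V z x),
        ((univ.filter fun ρ : Fin n → Bool => ∀ i ∈ V \ I, ρ i = x i).card : ℝ) := by
    simp only [Finset.card_filter, Nat.cast_sum, Nat.cast_ite, Nat.cast_one, Nat.cast_zero]
    rw [Finset.sum_comm, Finset.sum_filter]
    refine Finset.sum_congr rfl fun x _ => ?_
    split_ifs with hx
    · refine Finset.sum_congr rfl fun ρ _ => ?_
      refine if_congr ?_ rfl rfl
      rw [e1]
      exact and_iff_right hx
    · refine Finset.sum_eq_zero fun ρ _ => ?_
      rw [if_neg]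
      rw [e1]
      exact fun h => hx h.1
  rw [e2]
  have e3 : ∀ x : Fin n → Bool,
      ((univ.filter fun ρ : Fin n → Bool => ∀ i ∈ V \ I, ρ i = x i).card : ℝ) =
        2 ^ n / 2 ^ (V \ I).card := by
    intro x
    rw [eq_div_iff (by positivity)]
    exact_mod_cast card_pi_bool (V \ I) x
  rw [Finset.sum_congr rfl (fun x _ => e3 x), Finset.sum_const, nsmul_eq_mul]
  have e4 : (2 : ℝ) ^ V.card = 2 ^ (V \ I).card * 2 ^ I.card := by
    rw [← pow_add, Finset.card_sdiff_add_card_eq_card hI]
  rw [e4]
  field_simp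

/-- fix variables without loss of density -/
lemma exists_fix {n : ℕ} (D : Finset (Fin n → Bool)) {I V : Finset (Fin n)} (hI : I ⊆ V)
    (z : Fin n → Bool) : ∃ z', (∀ i, i ∉ V → z' i = z i) ∧ dens D V z ≤ dens D I z' := by
  classical
  by_contra hcon
  push Not at hcon
  have h1 : ∑ ρ : Fin n → Bool, dens D I (nz V z ρ) < ∑ ρ : Fin n → Bool, dens D V z := by
    refine Finset.sum_lt_sum_of_nonempty ⟨z, Finset.mem_univ _⟩ fun ρ _ => ?_
    exact hcon _ fun i hi => by rw [nz, if_neg hi]
  rw [avg_fixed D hI z, Finset.sum_const, nsmul_eq_mul] at h1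
  simp at h1

/-- the average density after a random restriction -/
lemma avg_dens {n Q : ℕ} (D : Finset (Fin n → Bool)) (V : Finset (Fin n)) (z : Fin n → Bool) :
    ∑ ω : Om n Q, dens D (nV V ω.1) (nz V z ω.2) = Fintype.card (Om n Q) * dens D V z := by
  classical
  rw [Fintype.sum_prod_type]
  rw [Finset.sum_congr rfl (fun σ _ => avg_fixed D (nV_sub V σ) z), Finset.sum_const,
    nsmul_eq_mul, card_Om]
  simp only [Finset.card_univ, Fintype.card_pi, Fintype.card_fin, Finset.prod_const]
  push_cast
  ring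

/-- few free variables in all -/
lemma few_total {n Q : ℕ} (hQ : 0 < Q) (s : ℕ) : ∀ (k : ℕ) (V : Finset (Fin n)), k * s ≤ V.card →
    ((univ.filter fun ω : Om n Q => (nV V ω.1).card < k).card : ℝ) ≤
      k * (1 - 1 / (Q : ℝ)) ^ s * Fintype.card (Om n Q) := by
  classical
  have hQ' : (0 : ℝ) < Q := by exact_mod_cast hQ
  have hmiss : ∀ U : Finset (Fin n), U.card = s →
      ((univ.filter fun ω : Om n Q => ∀ i ∈ U, ω.1 i ∈ univ.filter fun a : Fin Q => a.val ≠ 0).card
        : ℝ) = (1 - 1 / (Q : ℝ)) ^ s * Fintype.card (Om n Q) := by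
    intro U hU
    have h := card_pi U (univ.filter fun a : Fin Q => a.val ≠ 0)
    have h2 : (univ.filter fun a : Fin Q => a.val ≠ 0).card = Q - 1 := by
      have h3 : (univ.filter fun a : Fin Q => a.val ≠ 0) = univ.erase ⟨0, hQ⟩ := by
        ext a
        simp [Fin.ext_iff]
      rw [h3, Finset.card_erase_of_mem (Finset.mem_univ _)]
      simp
    rw [h2, hU] at h
    rw [card_pred_fst (fun σ => ∀ i ∈ U, σ i ∈ univ.filter fun a : Fin Q => a.val ≠ 0), card_Om]
    have h4 : (((univ.filter fun σ : Fin n → Fin Q =>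
        ∀ i ∈ U, σ i ∈ univ.filter fun a : Fin Q => a.val ≠ 0).card : ℕ) : ℝ) * (Q : ℝ) ^ s =
        ((Q : ℝ) - 1) ^ s * (Q : ℝ) ^ n := by
      have h5 : ((Q - 1 : ℕ) : ℝ) = (Q : ℝ) - 1 := by
        rw [Nat.cast_sub hQ, Nat.cast_one]
      rw [← h5]
      exact_mod_cast h
    have h6 : (1 - 1 / (Q : ℝ)) ^ s = ((Q : ℝ) - 1) ^ s / (Q : ℝ) ^ s := by
      rw [← div_pow]
      congr 1
      field_simp
    rw [h6]
    push_cast
    field_simp
    linarith
  intro k
  induction k with
  | zero =>
    intro V _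
    simp
  | succ k ih =>
    intro V hV
    obtain ⟨U, hUV, hU⟩ := Finset.exists_subset_card_eq
      (show s ≤ V.card by nlinarith : s ≤ V.card)
    have hV' : k * s ≤ (V \ U).card := by
      rw [Finset.card_sdiff_of_subset hUV, hU]
      have : (k + 1) * s = k * s + s := by ring
      omega
    have ih' := ih (V \ U) hV'
    have hsub : (univ.filter fun ω : Om n Q => (nV V ω.1).card < k + 1) ⊆
        (univ.filter fun ω : Om n Q => (nV (V \ U) ω.1).card < k) ∪
        (univ.filter fun ω : Om n Q => ∀ i ∈ U, ω.1 i ∈ univ.filter fun a : Fin Q => a.val ≠ 0) := by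
      intro ω hω
      rw [Finset.mem_filter] at hω
      rw [Finset.mem_union, Finset.mem_filter, Finset.mem_filter]
      by_cases h : ∀ i ∈ U, ω.1 i ∈ univ.filter fun a : Fin Q => a.val ≠ 0
      · right
        exact ⟨Finset.mem_univ _, h⟩
      · left
        refine ⟨Finset.mem_univ _, ?_⟩
        push Not at h
        obtain ⟨i, hi, hi0⟩ := h
        have hi1 : (ω.1 i).val = 0 := by
          by_contra hne
          exact hi0 (Finset.mem_filter.2 ⟨Finset.mem_univ _, hne⟩)
        have hss : nV (V \ U) ω.1 ⊂ nV V ω.1 := by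
          rw [Finset.ssubset_iff_of_subset]
          · refine ⟨i, Finset.mem_filter.2 ⟨hUV hi, hi1⟩, fun hh => ?_⟩
            exact (Finset.mem_sdiff.1 (nV_sub _ _ hh)).2 hi
          · intro j hj
            have := Finset.mem_filter.1 hj
            exact Finset.mem_filter.2 ⟨(Finset.mem_sdiff.1 this.1).1, this.2⟩
        have := Finset.card_lt_card hss
        omega
    have hcard : ((univ.filter fun ω : Om n Q => (nV V ω.1).card < k + 1).card : ℝ) ≤
        ((univ.filter fun ω : Om n Q => (nV (V \ U) ω.1).card < k).card : ℝ) +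
        ((univ.filter fun ω : Om n Q => ∀ i ∈ U, ω.1 i ∈
          univ.filter fun a : Fin Q => a.val ≠ 0).card : ℝ) := by
      exact_mod_cast (Finset.card_le_card hsub).trans (Finset.card_union_le _ _)
    rw [hmiss U hU] at hcard
    push_cast
    nlinarith

end Pool.Agent.Helper72.AC
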