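import Pool.Agent.Helper7.SC.DP.Clause
import Pool.Agent.Helper7.SC.Sharp2
import Pool.Agent.Helper72.AC.Struct

set_option autoImplicit false

/-!
The digits of the summands in `A + A`, for a set `A` of natural numbers with few representations
on average. The definitions are in the file `Defs` of `Pool/Agent/Helper57/U2`.
-/

namespace Pool.Agent.Helper72.Digits3

open Finset Filter
open Pool.Agent.Helper57.U2 (rep IsChoice upTo digit Guesses sensitivity FewDigits)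
open Pool.Agent.Helper72.Struct (Sums mem_upTo)

/-- The `n < b ^ K` that have some representation `n = a + a'` in `A + A` such that `J` guesses
the digits of `a` with advantage `ε`: it is right for at least the proportion `1 / b + ε` of the
positions. -/
def Guessable (b K : ℕ) (ε : ℝ) (A : Set ℕ) (J : ℕ → ℕ → ℕ) : Set ℕ :=
  {n | n < b ^ K ∧ ∃ a ∈ A, ∃ a' ∈ A, a + a' = n ∧
    (1 / b + ε) * K ≤ (#{i ∈ range K | J i n = digit b i a} : ℝ)}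

theorem guessable (b : ℕ) (hb : 2 ≤ b) (ε : ℝ) (hε : 0 < ε) :
    ∃ c : ℝ, 0 < c ∧ ∀ (A : Set ℕ) (K v : ℕ) (J : ℕ → ℕ → ℕ), 1 ≤ v →
      (∀ i < K, FewDigits b v (J i)) →
      c * (((Guessable b K ε A J).ncard : ℝ) ^ 2 * Real.exp (c * K / v)) ≤
        (b : ℝ) ^ K * ∑ n ∈ range (2 * b ^ K), (rep A n : ℝ) ^ 2 := by
  classical
  obtain ⟨c, hc, h⟩ := Pool.Agent.Helper7.SC.DP.sparse_clause b hb ε hε
  refine ⟨c, hc, fun A K v J hv hJ => ?_⟩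
  obtain ⟨S, hS⟩ : ∃ S : Set ℕ, S = Guessable b K ε A J := ⟨_, rfl⟩
  have hSm : ∀ n ∈ S, n < b ^ K ∧ ∃ a, a ∈ A ∧ a ≤ n ∧ n - a ∈ A ∧
      (1 / b + ε) * K ≤ (#{i ∈ range K | J i n = digit b i a} : ℝ) := by
    intro n hn
    rw [hS] at hn
    obtain ⟨h1, a, ha, a', ha', h2, h3⟩ := hn
    refine ⟨h1, a, ha, by omega, ?_, h3⟩
    have h4 : n - a = a' := by omega
    rw [h4]
    exact ha'
  have hex : ∀ n, ∃ a, n ∈ S → a ∈ A ∧ a ≤ n ∧ n - a ∈ A ∧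
      (1 / b + ε) * K ≤ (#{i ∈ range K | J i n = digit b i a} : ℝ) := by
    intro n
    by_cases hn : n ∈ S
    · obtain ⟨_, a, h1⟩ := hSm n hn
      exact ⟨a, fun _ => h1⟩
    · exact ⟨0, fun h1 => absurd h1 hn⟩
  choose f hf using hex
  have hch : IsChoice A S f := fun n hn => ⟨(hf n hn).2.1, (hf n hn).1, (hf n hn).2.2.1⟩
  have hG : Guesses b K ε S f J := by
    unfold Guesses
    have h1 : ∀ n ∈ upTo S (b ^ K), (1 / b + ε) * K ≤
        (#{i ∈ range K | J i n = digit b i (f n)} : ℝ) := by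
      intro n hn
      exact (hf n (mem_upTo.1 hn).2).2.2.2
    have h2 := Finset.sum_le_sum h1
    rw [Finset.sum_const, nsmul_eq_mul] at h2
    refine le_trans (le_of_eq ?_) h2
    ring
  have h1 := h A S f hch K J hG v hv hJ
  have hcard : (S.ncard : ℝ) = #(upTo S (b ^ K)) := by
    have h2 : S = ((upTo S (b ^ K) : Finset ℕ) : Set ℕ) := by
      ext n
      rw [mem_coe, mem_upTo]
      exact ⟨fun hn => ⟨(hSm n hn).1, hn⟩, fun hn => hn.2⟩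
    rw [h2, Set.ncard_coe_finset, ← h2]
  have hb0 : (0 : ℝ) < (b : ℝ) ^ K := by
    have : (0 : ℝ) < b := by
      have : 0 < b := by omega
      exact_mod_cast this
    positivity
  rw [← hS, hcard]
  have h3 : c * (#(upTo S (b ^ K)) : ℝ) ^ 2 / (b : ℝ) ^ K * Real.exp (c * K / v) * (b : ℝ) ^ K ≤
      (∑ n ∈ range (2 * b ^ K), (rep A n : ℝ) ^ 2) * (b : ℝ) ^ K :=
    mul_le_mul_of_nonneg_right h1 hb0.le
  calc c * ((#(upTo S (b ^ K)) : ℝ) ^ 2 * Real.exp (c * K / v)) =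
        c * (#(upTo S (b ^ K)) : ℝ) ^ 2 / (b : ℝ) ^ K * Real.exp (c * K / v) * (b : ℝ) ^ K := by
        field_simp
    _ ≤ _ := h3
    _ = _ := mul_comm _ _

theorem result :
    -- (1) few digits, for all sets
    (∀ (b : ℕ) (ε : ℝ), 2 ≤ b → 0 < ε → ∃ c : ℝ, 0 < c ∧
      ∀ (A : Set ℕ) (K v : ℕ) (J : ℕ → ℕ → ℕ), 1 ≤ v → (∀ i < K, FewDigits b v (J i)) →
      c * (((Guessable b K ε A J).ncard : ℝ) ^ 2 * Real.exp (c * K / v)) ≤
        (b : ℝ) ^ K * ∑ n ∈ range (2 * b ^ K), (rep A n : ℝ) ^ 2) ∧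
    -- (2) every choice in every counterexample
    (∀ (b : ℕ) (C c : ℝ), 2 ≤ b → 0 < C → 0 < c → ∃ c' : ℝ, 0 < c' ∧
      ∀ A : Set ℕ, (∀ n, (rep A n : ℝ) ≤ C) → (∀ᶠ x : ℕ in atTop, c * √x ≤ #(upTo A x)) →
      ∀ f : ℕ → ℕ, IsChoice A (Sums A) f → ∀ᶠ K : ℕ in atTop,
        c' * ((K : ℝ) ^ 2 * (b : ℝ) ^ K) ≤ ∑ i ∈ range K, ∑ j ∈ range K,
          (#{n ∈ range (b ^ K) | digit b i (f n) ≠ digit b i (f ((n + b ^ j) % b ^ K))} : ℝ)) ∧
    -- (3) average sensitivity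
    (∀ (b : ℕ) (ε δ : ℝ), 2 ≤ b → 0 < ε → 0 < δ → ∃ c : ℝ, 0 < c ∧
      ∀ (A D : Set ℕ) (f : ℕ → ℕ), IsChoice A D f → ∀ K : ℕ,
      δ * (b : ℝ) ^ K ≤ #(upTo D (b ^ K)) → ∀ J : ℕ → ℕ → ℕ, Guesses b K ε D f J →
      ∀ s : ℝ, 1 ≤ s → sensitivity b K J ≤ s →
        c * (b : ℝ) ^ K * Real.exp (c * K / s) ≤ ∑ n ∈ range (2 * b ^ K), (rep A n : ℝ) ^ 2) ∧
    -- (4) sharpness
    (∃ C : ℝ, 0 < C ∧ ∀ b v m : ℕ, 2 ≤ b → ∃ (A : Set ℕ) (f : ℕ → ℕ),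
      IsChoice A {n | n < b ^ (v * m)} f ∧
      (∀ i < v * m, FewDigits b v fun n => digit b i (f n)) ∧
      ∑ n ∈ range (2 * b ^ (v * m)), (rep A n : ℝ) ^ 2 ≤ (b : ℝ) ^ (v * m) * Real.exp (C * m)) := by
  refine ⟨fun b ε hb hε => guessable b hb ε hε, fun b C c hb hC hc =>
    Pool.Agent.Helper72.Struct.sensitive b hb C c hC hc, fun b ε δ hb hε hδ => ?_, ?_⟩
  · obtain ⟨c, hc, h⟩ := Pool.Agent.Helper57.U2.main b 0 hb ε δ hε hδ
    exact ⟨c, hc, fun A D f hf K hD J hJ s hs hsens => ((h A D f hf).1 K hD J hJ).1 s hs hsens⟩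
  · obtain ⟨C, hC, h⟩ := Pool.Agent.Helper7.SC.sharp
    refine ⟨C, hC, fun b v m hb => ?_⟩
    obtain ⟨A, f, h1, h2, h3⟩ := h b v m hb
    exact ⟨A, f, h1, h2, h3⟩

end Pool.Agent.Helper72.Digits3
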