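import Pool.Agent.Helper72.AC.Dens

/-! The qualitative switching lemma (Ajtai; Furst, Saxe, Sipser). -/

set_option autoImplicit false

namespace Pool.Agent.Helper72.AC

open Finset

/-- `B` carries a certificate for `F = true` -/
def IsC {n : ℕ} (F : (Fin n → Bool) → Bool) (V : Finset (Fin n)) (z : Fin n → Bool) (c : ℕ)
    (B : Finset (Fin n)) : Prop :=
  B ⊆ V ∧ B.card ≤ c ∧
    ∃ τ : Fin n → Bool, ∀ x, InC V z x → (∀ i ∈ B, x i = τ i) → F x = true

/-- fix the variables in `W` -/
def zb {n : ℕ} (W β : Finset (Fin n)) (z : Fin n → Bool) : Fin n → Bool :=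
  fun i => if i ∈ W then decide (i ∈ β) else z i

lemma InC.of_zb {n : ℕ} {V W β : Finset (Fin n)} {z x : Fin n → Bool} (hW : W ⊆ V)
    (h : InC (V \ W) (zb W β z) x) : InC V z x := by
  intro i hi
  have h1 := h i (fun hh => hi (Finset.mem_sdiff.1 hh).1)
  rw [h1, zb, if_neg (fun hh => hi (hW hh))]

lemma cert_restrict {n : ℕ} {F : (Fin n → Bool) → Bool} {V W : Finset (Fin n)}
    {z : Fin n → Bool} {c : ℕ} (hW : W ⊆ V) (β : Finset (Fin n)) (hC : Cert F V z (c + 1))
    (hmeet : ∀ B, IsC F V z (c + 1) B → (B ∩ W).Nonempty) : Cert F (V \ W) (zb W β z) c := by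
  classical
  intro x hx hFx
  obtain ⟨B, hBV, hBc, hB⟩ := hC x (hx.of_zb hW) hFx
  have hne := hmeet B ⟨hBV, hBc, x, hB⟩
  refine ⟨B \ W, Finset.sdiff_subset_sdiff hBV (Finset.Subset.refl _), ?_, ?_⟩
  · have h1 := Finset.card_sdiff_add_card_inter B W
    have h2 := Finset.card_pos.2 hne
    omega
  · intro x' hx' he
    refine hB x' (hx'.of_zb hW) fun i hi => ?_
    by_cases hiW : i ∈ W
    · have h1 : i ∉ V \ W := fun hh => (Finset.mem_sdiff.1 hh).2 hiW
      rw [hx' i h1, hx i h1]
    · exact he i (Finset.mem_sdiff.2 ⟨hi, hiW⟩)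

lemma jun_glue {n Q : ℕ} {F : (Fin n → Bool) → Bool} {V W : Finset (Fin n)}
    {z ρ : Fin n → Bool} {σ : Fin n → Fin Q} {t b : ℕ}
    (ht : (W ∩ nV V σ).card ≤ t)
    (hβ : ∀ β ∈ W.powerset, Jun F (nV (V \ W) σ) (nz (V \ W) (zb W β z) ρ) b) :
    Jun F (nV V σ) (nz V z ρ) (t + 2 ^ t * b) := by
  classical
  set R := W ∩ nV V σ with hR
  set G : Finset (Fin n) → Finset (Fin n) := fun α =>
    α ∪ W.filter (fun i => i ∉ nV V σ ∧ nz V z ρ i = true) with hG
  have hGW : ∀ α ∈ R.powerset, G α ∈ W.powerset := by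
    intro α hα
    rw [Finset.mem_powerset] at hα ⊢
    rw [hG]
    exact Finset.union_subset (hα.trans Finset.inter_subset_left) (Finset.filter_subset _ _)
  have hβ' : ∀ β, ∃ B : Finset (Fin n), β ∈ W.powerset → B ⊆ nV (V \ W) σ ∧ B.card ≤ b ∧
      ∀ x x', InC (nV (V \ W) σ) (nz (V \ W) (zb W β z) ρ) x →
        InC (nV (V \ W) σ) (nz (V \ W) (zb W β z) ρ) x' → (∀ i ∈ B, x i = x' i) → F x = F x' := by
    intro β
    by_cases h : β ∈ W.powerset
    · obtain ⟨B, h1, h2, h3⟩ := hβ β h
      exact ⟨B, fun _ => ⟨h1, h2, h3⟩⟩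
    · exact ⟨∅, fun h' => absurd h' h⟩
  choose Bf hBf using hβ'
  refine ⟨R ∪ R.powerset.biUnion fun α => Bf (G α), ?_, ?_, ?_⟩
  · refine Finset.union_subset Finset.inter_subset_right ?_
    rw [Finset.biUnion_subset]
    intro α hα i hi
    have h1 := (hBf (G α) (hGW α hα)).1 hi
    rw [nV, Finset.mem_filter, Finset.mem_sdiff] at h1
    rw [nV, Finset.mem_filter]
    exact ⟨h1.1.1, h1.2⟩
  · refine (Finset.card_union_le _ _).trans (Nat.add_le_add ht ?_)
    refine Finset.card_biUnion_le.trans ?_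
    calc ∑ α ∈ R.powerset, (Bf (G α)).card ≤ ∑ α ∈ R.powerset, b :=
          Finset.sum_le_sum fun α hα => (hBf (G α) (hGW α hα)).2.1
      _ = 2 ^ R.card * b := by rw [Finset.sum_const, Finset.card_powerset, smul_eq_mul]
      _ ≤ 2 ^ t * b := Nat.mul_le_mul_right _ (Nat.pow_le_pow_right (by norm_num) ht)
  · intro x x' hx hx' he
    set α := R.filter fun i => x i = true with hα
    have hαR : α ∈ R.powerset := Finset.mem_powerset.2 (Finset.filter_subset _ _)
    have key : ∀ y, InC (nV V σ) (nz V z ρ) y → (∀ i ∈ R, y i = x i) →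
        InC (nV (V \ W) σ) (nz (V \ W) (zb W (G α) z) ρ) y := by
      intro y hy hyx i hi
      by_cases hiW : i ∈ W
      · have h1 : i ∉ V \ W := fun hh => (Finset.mem_sdiff.1 hh).2 hiW
        rw [nz, if_neg h1, zb, if_pos hiW]
        by_cases hiV : i ∈ nV V σ
        · have hiR : i ∈ R := Finset.mem_inter.2 ⟨hiW, hiV⟩
          rw [hyx i hiR]
          have h2 : i ∈ G α ↔ x i = true := by
            rw [hG]
            simp only [Finset.mem_union, Finset.mem_filter, hα]
            constructor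
            · rintro (h | h)
              · exact h.2
              · exact absurd hiV h.2.1
            · intro h
              exact Or.inl ⟨hiR, h⟩
          by_cases hxi : x i = true
          · rw [hxi, decide_eq_true (h2.2 hxi)]
          · rw [decide_eq_false (fun hh => hxi (h2.1 hh))]
            simpa using hxi
        · rw [hy i hiV]
          have hiR : i ∉ R := fun hh => hiV (Finset.mem_inter.1 hh).2
          have h2 : i ∈ G α ↔ nz V z ρ i = true := by
            rw [hG]
            simp only [Finset.mem_union, Finset.mem_filter, hα]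
            constructor
            · rintro (h | h)
              · exact absurd h.1 hiR
              · exact h.2.2
            · intro h
              exact Or.inr ⟨hiW, hiV, h⟩
          by_cases hxi : nz V z ρ i = true
          · rw [hxi, decide_eq_true (h2.2 hxi)]
          · rw [decide_eq_false (fun hh => hxi (h2.1 hh))]
            simpa using hxi
      · have hiV : i ∉ nV V σ := by
          intro hh
          rw [nV, Finset.mem_filter] at hh
          exact hi (Finset.mem_filter.2 ⟨Finset.mem_sdiff.2 ⟨hh.1, hiW⟩, hh.2⟩)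
        rw [hy i hiV, nz, nz, zb, if_neg hiW]
        refine if_congr ?_ rfl rfl
        rw [Finset.mem_sdiff]
        exact (and_iff_left hiW).symm
    refine (hBf (G α) (hGW α hαR)).2.2 x x' (key x hx fun _ _ => rfl) (key x' hx' fun i hi => ?_)
      fun i hi => ?_
    · exact (he i (Finset.mem_union_left _ hi)).symm
    · exact he i (Finset.mem_union_right _ (Finset.mem_biUnion.2 ⟨α, hαR, hi⟩))

lemma cert_zero {n : ℕ} {F : (Fin n → Bool) → Bool} {V : Finset (Fin n)} {z : Fin n → Bool}
    (h : Cert F V z 0) : ∀ x x', InC V z x → InC V z x' → F x = F x' := by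
  have h1 : ∀ x x', InC V z x → InC V z x' → F x = true → F x' = true := by
    intro x x' hx hx' hF
    obtain ⟨B, _, hBc, hB⟩ := h x hx hF
    refine hB x' hx' fun i hi => ?_
    rw [Nat.le_zero, Finset.card_eq_zero] at hBc
    rw [hBc] at hi
    exact absurd hi (Finset.notMem_empty _)
  intro x x' hx hx'
  by_cases hF : F x = true
  · rw [hF, h1 x x' hx hx' hF]
  · by_cases hF' : F x' = true
    · exact absurd (h1 x' x hx' hx hF') hF
    · rw [Bool.not_eq_true] at hF hF'
      rw [hF, hF']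

lemma exists_big (M : ℕ) : ∃ e₀ : ℕ, ∀ e ≥ e₀, 1 ≤ e ∧ (M * e) ^ 2 ≤ 2 ^ e := by
  have h := tendsto_pow_const_div_const_pow_of_one_lt 2 (one_lt_two : (1 : ℝ) < 2)
  have h2 : ∀ᶠ e : ℕ in Filter.atTop, (e : ℝ) ^ 2 / 2 ^ e < 1 / ((M : ℝ) ^ 2 + 1) :=
    h.eventually (gt_mem_nhds (by positivity))
  obtain ⟨e₀, he₀⟩ := Filter.eventually_atTop.1 h2
  refine ⟨max e₀ 1, fun e he => ⟨le_of_max_le_right he, ?_⟩⟩
  have h3 := he₀ e (le_of_max_le_left he)
  rw [div_lt_div_iff₀ (by positivity) (by positivity)] at h3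
  have h4 : ((M * e : ℕ) : ℝ) ^ 2 ≤ (2 : ℝ) ^ e := by
    push_cast
    have : 0 ≤ (e : ℝ) ^ 2 := by positivity
    nlinarith
  exact_mod_cast h4

open Classical in
theorem fss : ∀ c K : ℕ, ∃ b e₀ : ℕ, ∀ e ≥ e₀, ∀ (n : ℕ) (F : (Fin n → Bool) → Bool)
    (V : Finset (Fin n)) (z : Fin n → Bool), Cert F V z c →
    ((univ.filter fun ω : Om n (2 ^ e) => ¬ Jun F (nV V ω.1) (nz V z ω.2) b).card : ℝ) *
      2 ^ (e * K) ≤ (Fintype.card (Om n (2 ^ e)) : ℝ) := by
  intro c
  induction c with
  | zero =>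
    intro K
    refine ⟨0, 0, fun e _ n F V z hC => ?_⟩
    have h : (univ.filter fun ω : Om n (2 ^ e) => ¬ Jun F (nV V ω.1) (nz V z ω.2) 0) = ∅ := by
      refine Finset.filter_eq_empty_iff.2 fun ω _ => ?_
      rw [not_not]
      exact ⟨∅, Finset.empty_subset _, by simp, fun x x' hx hx' _ =>
        cert_zero hC x x' hx.up hx'.up⟩
    rw [h, Finset.card_empty, Nat.cast_zero, zero_mul]
    exact Nat.cast_nonneg _
  | succ c ih =>
    intro K
    set L₀ := 4 ^ (c + 1) * (K + 1) with hL₀
    set M := (c + 1) * L₀ with hM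
    obtain ⟨b, e₁, hb⟩ := ih (M + K + 1)
    obtain ⟨e₂, he₂⟩ := exists_big M
    set t := 2 * (K + 1) with ht
    refine ⟨t + 2 ^ t * b, max e₁ e₂, fun e he n F V z hC => ?_⟩
    have hee₁ : e₁ ≤ e := le_of_max_le_left he
    obtain ⟨he1, hbig⟩ := he₂ e (le_of_max_le_right he)
    have hQ : 2 ≤ 2 ^ e := by
      calc 2 = 2 ^ 1 := by norm_num
        _ ≤ 2 ^ e := Nat.pow_le_pow_right (by norm_num) he1
    set N : ℝ := ((Fintype.card (Om n (2 ^ e)) : ℕ) : ℝ) with hN
    have hN0 : 0 ≤ N := Nat.cast_nonneg _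
    by_cases h0 : IsC F V z (c + 1) ∅
    · obtain ⟨_, _, τ, hτ⟩ := h0
      have h : (univ.filter fun ω : Om n (2 ^ e) =>
          ¬ Jun F (nV V ω.1) (nz V z ω.2) (t + 2 ^ t * b)) = ∅ := by
        refine Finset.filter_eq_empty_iff.2 fun ω _ => ?_
        rw [not_not]
        refine ⟨∅, Finset.empty_subset _, by simp, fun x x' hx hx' _ => ?_⟩
        rw [hτ x hx.up (by simp), hτ x' hx'.up (by simp)]
      rw [h, Finset.card_empty, Nat.cast_zero, zero_mul]
      exact hN0
    -- a maximal disjoint family of certificates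
    set P : Finset (Finset (Fin n)) → Prop := fun S =>
      (∀ B ∈ S, IsC F V z (c + 1) B) ∧ ∀ B ∈ S, ∀ B' ∈ S, B ≠ B' → Disjoint B B' with hP
    obtain ⟨S, hS, hSmax⟩ := Finset.exists_max_image (univ.filter P) Finset.card
      ⟨∅, Finset.mem_filter.2 ⟨Finset.mem_univ _, by rw [hP]; simp⟩⟩
    have hSP : P S := (Finset.mem_filter.1 hS).2
    have hmeet : ∀ B, IsC F V z (c + 1) B → (B ∩ S.biUnion id).Nonempty := by
      intro B hB
      by_contra hne
      rw [Finset.not_nonempty_iff_eq_empty, ← Finset.disjoint_iff_inter_eq_empty] at hne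
      have hdis : ∀ B' ∈ S, Disjoint B B' := fun B' hB' =>
        Finset.disjoint_of_subset_right (Finset.subset_biUnion_of_mem id hB') hne
      have hBS : B ∉ S := by
        intro hh
        have h1 := hdis B hh
        rw [Finset.disjoint_self_iff_empty] at h1
        exact h0 (h1 ▸ hB)
      have hins : P (insert B S) := by
        refine ⟨fun B' hB' => ?_, fun B₁ h₁ B₂ h₂ hne' => ?_⟩
        · rcases Finset.mem_insert.1 hB' with rfl | h
          · exact hB
          · exact hSP.1 B' h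
        · rcases Finset.mem_insert.1 h₁ with e1 | h₁'
          · rcases Finset.mem_insert.1 h₂ with e2 | h₂'
            · exact absurd (e1.trans e2.symm) hne'
            · rw [e1]; exact hdis B₂ h₂'
          · rcases Finset.mem_insert.1 h₂ with e2 | h₂'
            · rw [e2]; exact (hdis B₁ h₁').symm
            · exact hSP.2 B₁ h₁' B₂ h₂' hne'
      have h1 := hSmax (insert B S) (Finset.mem_filter.2 ⟨Finset.mem_univ _, hins⟩)
      rw [Finset.card_insert_of_notMem hBS] at h1
      omega
    set W := S.biUnion id with hWdef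
    have hWV : W ⊆ V := by
      rw [hWdef, Finset.biUnion_subset]
      exact fun B hB => (hSP.1 B hB).1
    by_cases hL : L₀ * e ≤ S.card
    · -- many disjoint certificates
      have hτ : ∀ B : Finset (Fin n), ∃ τ : Fin n → Bool, B ∈ S →
          ∀ x, InC V z x → (∀ i ∈ B, x i = τ i) → F x = true := by
        intro B
        by_cases h : B ∈ S
        · obtain ⟨_, _, τ, hh⟩ := hSP.1 B h
          exact ⟨τ, fun _ => hh⟩
        · exact ⟨fun _ => true, fun h' => absurd h' h⟩
      choose τ hτ using hτ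
      have hfail := fail_all hQ (c + 1) τ S (fun B hB => (hSP.1 B hB).2.1) hSP.2
      have hsub : (univ.filter fun ω : Om n (2 ^ e) =>
          ¬ Jun F (nV V ω.1) (nz V z ω.2) (t + 2 ^ t * b)) ⊆
          (univ.filter (fun ω : Om n (2 ^ e) => ∀ B ∈ S,
            ¬ (∀ i ∈ B, (ω.1 i).val ≠ 0 ∧ ω.2 i = τ B i))) := by
        intro ω hω
        rw [Finset.mem_filter] at hω ⊢
        refine ⟨Finset.mem_univ _, fun B hB hsucc => hω.2 ?_⟩
        have hall : ∀ x, InC (nV V ω.1) (nz V z ω.2) x → F x = true := by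
          intro x hx
          refine hτ B hB x hx.up fun i hi => ?_
          have hiV : i ∈ V := (hSP.1 B hB).1 hi
          have h1 : i ∉ nV V ω.1 := fun hh => (hsucc i hi).1 (Finset.mem_filter.1 hh).2
          rw [hx i h1, nz, if_pos hiV]
          exact (hsucc i hi).2
        exact ⟨∅, Finset.empty_subset _, by simp, fun x x' hx hx' _ => by
          rw [hall x hx, hall x' hx']⟩
      have h1 : ((univ.filter fun ω : Om n (2 ^ e) =>
          ¬ Jun F (nV V ω.1) (nz V z ω.2) (t + 2 ^ t * b)).card : ℝ) ≤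
          (1 - 1 / 4 ^ (c + 1)) ^ S.card * N :=
        le_trans (by exact_mod_cast Finset.card_le_card hsub) hfail
      have h4 : (0 : ℝ) ≤ 1 - 1 / 4 ^ (c + 1) ∧ (1 : ℝ) - 1 / 4 ^ (c + 1) ≤ 1 := by
        have h5 : (1 : ℝ) / 4 ^ (c + 1) ≤ 1 := by
          rw [div_le_one (by positivity)]
          exact one_le_pow₀ (by norm_num)
        have h6 : (0 : ℝ) ≤ 1 / 4 ^ (c + 1) := by positivity
        constructor <;> linarith
      have h2 : ((1 : ℝ) - 1 / 4 ^ (c + 1)) ^ S.card ≤ (1 / 2) ^ ((K + 1) * e) := by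
        have h5 := one_sub_pow_le (4 ^ (c + 1)) (by positivity)
        push_cast at h5
        calc ((1 : ℝ) - 1 / 4 ^ (c + 1)) ^ S.card ≤ (1 - 1 / 4 ^ (c + 1)) ^ (L₀ * e) :=
              pow_le_pow_of_le_one h4.1 h4.2 hL
          _ = ((1 - 1 / 4 ^ (c + 1)) ^ (4 ^ (c + 1))) ^ ((K + 1) * e) := by
              rw [← pow_mul, hL₀]
              congr 1
              ring
          _ ≤ (1 / 2) ^ ((K + 1) * e) := pow_le_pow_left₀ (pow_nonneg h4.1 _) h5 _
      calc _ ≤ (1 / 2 : ℝ) ^ ((K + 1) * e) * N * 2 ^ (e * K) := by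
            refine mul_le_mul_of_nonneg_right ?_ (by positivity)
            exact h1.trans (mul_le_mul_of_nonneg_right h2 hN0)
        _ = N * ((1 / 2) ^ e) := by
            have h6 : (1 / 2 : ℝ) ^ ((K + 1) * e) * 2 ^ (e * K) = (1 / 2) ^ e := by
              have e1 : (K + 1) * e = e * K + e := by ring
              rw [e1, pow_add, mul_assoc, mul_comm ((1 / 2 : ℝ) ^ e), ← mul_assoc, ← mul_pow]
              norm_num
            calc _ = N * ((1 / 2 : ℝ) ^ ((K + 1) * e) * 2 ^ (e * K)) := by ring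
              _ = _ := by rw [h6]
        _ ≤ N * 1 := mul_le_mul_of_nonneg_left (pow_le_one₀ (by norm_num) (by norm_num)) hN0
        _ = N := mul_one _
    · -- few disjoint certificates
      push Not at hL
      have hWc : W.card ≤ M * e := by
        calc W.card ≤ ∑ B ∈ S, (id B).card := Finset.card_biUnion_le
          _ ≤ ∑ B ∈ S, (c + 1) := Finset.sum_le_sum fun B hB => (hSP.1 B hB).2.1
          _ = S.card * (c + 1) := by rw [Finset.sum_const, smul_eq_mul]
          _ ≤ (L₀ * e) * (c + 1) := Nat.mul_le_mul_right _ hL.le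
          _ = M * e := by rw [hM]; ring
      have hsub : (univ.filter fun ω : Om n (2 ^ e) =>
          ¬ Jun F (nV V ω.1) (nz V z ω.2) (t + 2 ^ t * b)) ⊆
          (univ.filter fun ω : Om n (2 ^ e) => t ≤ (W ∩ nV V ω.1).card) ∪
          W.powerset.biUnion fun β => univ.filter fun ω : Om n (2 ^ e) =>
            ¬ Jun F (nV (V \ W) ω.1) (nz (V \ W) (zb W β z) ω.2) b := by
        intro ω hω
        rw [Finset.mem_filter] at hω
        rw [Finset.mem_union]
        by_contra hcon
        push Not at hcon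
        obtain ⟨hc1, hc2⟩ := hcon
        refine hω.2 (jun_glue (W := W) ?_ fun β hβ => ?_)
        · by_contra hgt
          push Not at hgt
          exact hc1 (Finset.mem_filter.2 ⟨Finset.mem_univ _, hgt.le⟩)
        · by_contra hno
          exact hc2 (Finset.mem_biUnion.2 ⟨β, hβ, Finset.mem_filter.2 ⟨Finset.mem_univ _, hno⟩⟩)
      have hcard : ((univ.filter fun ω : Om n (2 ^ e) =>
          ¬ Jun F (nV V ω.1) (nz V z ω.2) (t + 2 ^ t * b)).card : ℝ) ≤
          ((univ.filter fun ω : Om n (2 ^ e) => t ≤ (W ∩ nV V ω.1).card).card : ℝ) +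
          ∑ β ∈ W.powerset, ((univ.filter fun ω : Om n (2 ^ e) =>
            ¬ Jun F (nV (V \ W) ω.1) (nz (V \ W) (zb W β z) ω.2) b).card : ℝ) := by
        have h1 := (Finset.card_le_card hsub).trans (Finset.card_union_le _ _)
        have h2 := h1.trans (Nat.add_le_add_left Finset.card_biUnion_le _)
        exact_mod_cast h2
      -- first part
      have hA : ((univ.filter fun ω : Om n (2 ^ e) => t ≤ (W ∩ nV V ω.1).card).card : ℝ) *
          2 ^ (e * (K + 1)) ≤ N := by
        have h1 := few_free (Q := 2 ^ e) W V t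
        have h2 : W.card ^ t ≤ 2 ^ (e * (K + 1)) := by
          calc W.card ^ t ≤ (M * e) ^ t := Nat.pow_le_pow_left hWc t
            _ = ((M * e) ^ 2) ^ (K + 1) := by rw [ht, pow_mul]
            _ ≤ (2 ^ e) ^ (K + 1) := Nat.pow_le_pow_left hbig _
            _ = 2 ^ (e * (K + 1)) := by rw [pow_mul]
        have h3 : (2 ^ e) ^ t = 2 ^ (e * (K + 1)) * 2 ^ (e * (K + 1)) := by
          rw [ht, ← pow_mul, ← pow_add]
          congr 1
          ring
        rw [h3] at h1
        have h4 : (univ.filter fun ω : Om n (2 ^ e) => t ≤ (W ∩ nV V ω.1).card).card *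
            2 ^ (e * (K + 1)) * 2 ^ (e * (K + 1)) ≤
            Fintype.card (Om n (2 ^ e)) * 2 ^ (e * (K + 1)) := by
          calc _ = _ := by rw [mul_assoc]
            _ ≤ _ := h1
            _ ≤ 2 ^ (e * (K + 1)) * Fintype.card (Om n (2 ^ e)) := Nat.mul_le_mul_right _ h2
            _ = _ := mul_comm _ _
        have h5 := Nat.le_of_mul_le_mul_right h4 (by positivity)
        rw [hN]
        exact_mod_cast h5
      -- second part
      have hB : (∑ β ∈ W.powerset, ((univ.filter fun ω : Om n (2 ^ e) =>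
            ¬ Jun F (nV (V \ W) ω.1) (nz (V \ W) (zb W β z) ω.2) b).card : ℝ)) *
          2 ^ (e * (K + 1)) ≤ N := by
        have h1 : ∀ β ∈ W.powerset, ((univ.filter fun ω : Om n (2 ^ e) =>
            ¬ Jun F (nV (V \ W) ω.1) (nz (V \ W) (zb W β z) ω.2) b).card : ℝ) ≤
            N / 2 ^ (e * (M + K + 1)) := by
          intro β _
          rw [le_div_iff₀ (by positivity)]
          exact hb e hee₁ n F (V \ W) (zb W β z) (cert_restrict hWV β hC hmeet)
        have h2 : (∑ β ∈ W.powerset, ((univ.filter fun ω : Om n (2 ^ e) =>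
            ¬ Jun F (nV (V \ W) ω.1) (nz (V \ W) (zb W β z) ω.2) b).card : ℝ)) ≤
            2 ^ (e * M) * (N / 2 ^ (e * (M + K + 1))) := by
          refine (Finset.sum_le_sum h1).trans ?_
          rw [Finset.sum_const, Finset.card_powerset, nsmul_eq_mul]
          refine mul_le_mul_of_nonneg_right ?_ (by positivity)
          push_cast
          exact pow_le_pow_right₀ (by norm_num) (hWc.trans_eq (mul_comm _ _))
        have h3 : (2 : ℝ) ^ (e * (M + K + 1)) = 2 ^ (e * M) * 2 ^ (e * (K + 1)) := by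
          rw [← pow_add]
          congr 1
          ring
        calc _ ≤ 2 ^ (e * M) * (N / 2 ^ (e * (M + K + 1))) * 2 ^ (e * (K + 1)) :=
              mul_le_mul_of_nonneg_right h2 (by positivity)
          _ = N := by
              rw [h3]
              field_simp
      have h2e : (2 : ℝ) ≤ 2 ^ e := by
        calc (2 : ℝ) = 2 ^ 1 := by norm_num
          _ ≤ 2 ^ e := pow_le_pow_right₀ (by norm_num) he1
      have hsum : ((univ.filter fun ω : Om n (2 ^ e) =>
          ¬ Jun F (nV V ω.1) (nz V z ω.2) (t + 2 ^ t * b)).card : ℝ) * 2 ^ (e * (K + 1)) ≤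
          2 * N := by
        calc _ ≤ _ := mul_le_mul_of_nonneg_right hcard (by positivity)
          _ ≤ N + N := by rw [add_mul]; exact add_le_add hA hB
          _ = 2 * N := by ring
      have h3 : (2 : ℝ) ^ (e * (K + 1)) = 2 ^ (e * K) * 2 ^ e := by
        rw [← pow_add]
        congr 1
      rw [h3] at hsum
      set bad := ((univ.filter fun ω : Om n (2 ^ e) =>
          ¬ Jun F (nV V ω.1) (nz V z ω.2) (t + 2 ^ t * b)).card : ℝ) with hbad
      have hb0 : 0 ≤ bad * 2 ^ (e * K) := by positivity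
      have h5 : bad * 2 ^ (e * K) * 2 ≤ 2 * N := by
        calc bad * 2 ^ (e * K) * 2 ≤ bad * 2 ^ (e * K) * 2 ^ e :=
              mul_le_mul_of_nonneg_left h2e hb0
          _ = bad * (2 ^ (e * K) * 2 ^ e) := by ring
          _ ≤ _ := hsum
      linarith

end Pool.Agent.Helper72.AC
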