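import Pool.Agent.Helper72.AC.Depth
import Pool.Agent.Helper45.AC.Asym

/-! The average sensitivity of functions with small constant depth circuits. -/

set_option autoImplicit false

namespace Pool.Agent.Helper72.AC

open Finset Filter

/-- flip one variable -/
def flip {n : ℕ} (x : Fin n → Bool) (j : Fin n) : Fin n → Bool := Function.update x j (!(x j))

/-- the points where `g` is sensitive to `j` -/
def sensSet {n : ℕ} (g : (Fin n → Bool) → Bool) (j : Fin n) : Finset (Fin n → Bool) :=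
  univ.filter fun x => g x ≠ g (flip x j)

/-- total influence on the subcube -/
noncomputable def infl {n : ℕ} (g : (Fin n → Bool) → Bool) (V : Finset (Fin n))
    (z : Fin n → Bool) : ℝ := ∑ j ∈ V, dens (sensSet g j) V z

lemma infl_jun {n b : ℕ} {g : (Fin n → Bool) → Bool} {V : Finset (Fin n)} {z : Fin n → Bool}
    (h : Jun g V z b) : infl g V z ≤ b := by
  classical
  obtain ⟨B, hBV, hBc, hB⟩ := h
  have h0 : ∀ j ∈ V, j ∉ B → dens (sensSet g j) V z = 0 := by
    intro j hj hjB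
    unfold dens
    have : (sensSet g j).filter (fun x => InC V z x) = ∅ := by
      refine Finset.filter_eq_empty_iff.2 fun x hx hxC => ?_
      rw [sensSet, Finset.mem_filter] at hx
      refine hx.2 (hB x (flip x j) hxC (fun i hi => ?_) fun i hi => ?_)
      · have : i ≠ j := fun h => hi (h ▸ hj)
        rw [flip, Function.update_of_ne this]
        exact hxC i hi
      · have : i ≠ j := fun h => hjB (h ▸ hi)
        rw [flip, Function.update_of_ne this]
    rw [this, Finset.card_empty, Nat.cast_zero, zero_div]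
  unfold infl
  calc ∑ j ∈ V, dens (sensSet g j) V z = ∑ j ∈ B, dens (sensSet g j) V z :=
        (Finset.sum_subset hBV fun j hj hjB => h0 j hj hjB).symm
    _ ≤ ∑ j ∈ B, (1 : ℝ) := Finset.sum_le_sum fun j _ => dens_le_one _ _ _
    _ = B.card := by simp
    _ ≤ b := by exact_mod_cast hBc

lemma infl_nonneg {n : ℕ} (g : (Fin n → Bool) → Bool) (V : Finset (Fin n)) (z : Fin n → Bool) :
    0 ≤ infl g V z := Finset.sum_nonneg fun _ _ => dens_nonneg _ _ _

lemma infl_le {n : ℕ} (g : (Fin n → Bool) → Bool) (V : Finset (Fin n)) (z : Fin n → Bool) :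
    infl g V z ≤ n := by
  unfold infl
  calc ∑ j ∈ V, dens (sensSet g j) V z ≤ ∑ j ∈ V, (1 : ℝ) :=
        Finset.sum_le_sum fun j _ => dens_le_one _ _ _
    _ = V.card := by simp
    _ ≤ n := by
      have := Finset.card_le_univ V
      rw [Fintype.card_fin] at this
      exact_mod_cast this

/-- the influence is multiplied by `1 / Q` on average -/
lemma avg_infl {n Q : ℕ} (g : (Fin n → Bool) → Bool) (V : Finset (Fin n)) (z : Fin n → Bool) :
    (∑ ω : Om n Q, infl g (nV V ω.1) (nz V z ω.2)) * Q =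
      Fintype.card (Om n Q) * infl g V z := by
  classical
  rw [Fintype.sum_prod_type]
  have h1 : ∀ σ : Fin n → Fin Q, ∑ ρ : Fin n → Bool, infl g (nV V σ) (nz V z ρ) =
      ∑ j ∈ V, if (σ j).val = 0 then 2 ^ n * dens (sensSet g j) V z else 0 := by
    intro σ
    unfold infl
    rw [Finset.sum_comm]
    have h2 : ∀ j ∈ nV V σ, ∑ ρ : Fin n → Bool, dens (sensSet g j) (nV V σ) (nz V z ρ) =
        2 ^ n * dens (sensSet g j) V z := fun j _ => avg_fixed _ (nV_sub V σ) z
    rw [Finset.sum_congr rfl h2, ← Finset.sum_filter]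
    rfl
  rw [Finset.sum_congr rfl (fun σ _ => h1 σ), Finset.sum_comm]
  have h3 : ∀ j ∈ V, (∑ σ : Fin n → Fin Q,
      if (σ j).val = 0 then 2 ^ n * dens (sensSet g j) V z else 0) * Q =
      Q ^ n * (2 ^ n * dens (sensSet g j) V z) := by
    intro j _
    rw [← Finset.sum_filter, Finset.sum_const, nsmul_eq_mul]
    rcases Nat.eq_zero_or_pos Q with hQ | hQ
    · subst hQ
      have hn : n ≠ 0 := fun h => by subst h; exact j.elim0
      simp [hn]
    have h4 := card_pi {j} (univ.filter fun a : Fin Q => a.val = 0)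
    have hone : (univ.filter fun a : Fin Q => a.val = 0).card = 1 := by
      rw [Finset.card_eq_one]
      refine ⟨⟨0, hQ⟩, ?_⟩
      ext a
      simp [Fin.ext_iff]
    rw [hone, one_pow, one_mul, Finset.card_singleton, pow_one] at h4
    have h5 : (univ.filter fun σ : Fin n → Fin Q => ∀ i ∈ ({j} : Finset (Fin n)),
        σ i ∈ univ.filter fun a : Fin Q => a.val = 0) =
        univ.filter fun σ : Fin n → Fin Q => (σ j).val = 0 := by
      ext σ
      simp
    rw [h5] at h4
    have h6 : ((univ.filter fun σ : Fin n → Fin Q => (σ j).val = 0).card : ℝ) * Q = Q ^ n := by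
      exact_mod_cast h4
    calc _ = (((univ.filter fun σ : Fin n → Fin Q => (σ j).val = 0).card : ℝ) * Q) *
          (2 ^ n * dens (sensSet g j) V z) := by ring
      _ = _ := by rw [h6]
  rw [Finset.sum_mul, Finset.sum_congr rfl h3, ← Finset.mul_sum, ← Finset.mul_sum, card_Om]
  push_cast
  unfold infl
  ring

/-- circuits over juntas -/
def CJ (n S : ℕ) (V : Finset (Fin n)) (z : Fin n → Bool) (b : ℕ) :
    ℕ → ((Fin n → Bool) → Bool) → Prop
  | 0, g => Jun g V z b
  | d + 1, g => ∃ (h : Fin S → (Fin n → Bool) → Bool) (s : Fin S → Bool) (t : Bool),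
      (∀ j, CJ n S V z b d (h j)) ∧ ∀ x, g x = t ↔ ∃ j, h j x = s j

lemma cj_of_circ {n S : ℕ} (V : Finset (Fin n)) (z : Fin n → Bool) : ∀ (d : ℕ)
    (g : (Fin n → Bool) → Bool), Circ n S d g → CJ n S V z 1 d g
  | 0, g, hg => by
    rcases hg with ⟨i, hi⟩ | ⟨b, hb⟩
    · by_cases hiV : i ∈ V
      · refine ⟨{i}, Finset.singleton_subset_iff.2 hiV, by simp, fun x x' _ _ he => ?_⟩
        rw [hi, hi]
        exact he i (Finset.mem_singleton_self _)
      · refine ⟨∅, Finset.empty_subset _, by simp, fun x x' hx hx' _ => ?_⟩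
        rw [hi, hi, hx i hiV, hx' i hiV]
    · exact ⟨∅, Finset.empty_subset _, by simp, fun x x' _ _ _ => by rw [hb, hb]⟩
  | d + 1, g, ⟨h, s, t, hh, hg⟩ => ⟨h, s, t, fun j => cj_of_circ V z d _ (hh j), hg⟩

open Classical in
/-- a random restriction reduces the depth by one -/
lemma cj_step {n S e K b b' : ℕ} (V : Finset (Fin n)) (z : Fin n → Bool)
    (hb : ∀ (F : (Fin n → Bool) → Bool), Cert F V z b →
      ((univ.filter fun ω : Om n (2 ^ e) => ¬ Jun F (nV V ω.1) (nz V z ω.2) b').card : ℝ) *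
        2 ^ (e * K) ≤ (Fintype.card (Om n (2 ^ e)) : ℝ)) :
    ∀ (d : ℕ) (g : (Fin n → Bool) → Bool), CJ n S V z b (d + 1) g →
      ((univ.filter fun ω : Om n (2 ^ e) =>
        ¬ CJ n S (nV V ω.1) (nz V z ω.2) b' d g).card : ℝ) * 2 ^ (e * K) ≤
          (S : ℝ) ^ d * (Fintype.card (Om n (2 ^ e)) : ℝ)
  | 0, g, ⟨h, s, t, hh, hg⟩ => by
    rw [pow_zero, one_mul]
    rcases cert_of_children hg hh with hC | hC
    · exact hb g hC
    · refine le_trans ?_ (hb _ hC)
      refine mul_le_mul_of_nonneg_right ?_ (by positivity)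
      refine Nat.cast_le.2 (Finset.card_le_card fun ω hω => ?_)
      rw [Finset.mem_filter] at hω ⊢
      exact ⟨hω.1, fun hj => hω.2 hj.of_not⟩
  | d + 1, g, ⟨h, s, t, hh, hg⟩ => by
    have hsub : (univ.filter fun ω : Om n (2 ^ e) =>
        ¬ CJ n S (nV V ω.1) (nz V z ω.2) b' (d + 1) g) ⊆
        univ.biUnion fun j : Fin S => univ.filter fun ω : Om n (2 ^ e) =>
          ¬ CJ n S (nV V ω.1) (nz V z ω.2) b' d (h j) := by
      intro ω hω
      rw [Finset.mem_filter] at hω
      by_contra hcon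
      refine hω.2 ⟨h, s, t, fun j => ?_, hg⟩
      by_contra hj
      exact hcon (Finset.mem_biUnion.2 ⟨j, Finset.mem_univ _,
        Finset.mem_filter.2 ⟨Finset.mem_univ _, hj⟩⟩)
    have h1 : ((univ.filter fun ω : Om n (2 ^ e) =>
        ¬ CJ n S (nV V ω.1) (nz V z ω.2) b' (d + 1) g).card : ℝ) ≤
        ∑ j : Fin S, ((univ.filter fun ω : Om n (2 ^ e) =>
          ¬ CJ n S (nV V ω.1) (nz V z ω.2) b' d (h j)).card : ℝ) := by
      exact_mod_cast (Finset.card_le_card hsub).trans Finset.card_biUnion_le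
    calc _ ≤ (∑ j : Fin S, ((univ.filter fun ω : Om n (2 ^ e) =>
          ¬ CJ n S (nV V ω.1) (nz V z ω.2) b' d (h j)).card : ℝ)) * 2 ^ (e * K) :=
          mul_le_mul_of_nonneg_right h1 (by positivity)
      _ = ∑ j : Fin S, ((univ.filter fun ω : Om n (2 ^ e) =>
          ¬ CJ n S (nV V ω.1) (nz V z ω.2) b' d (h j)).card : ℝ) * 2 ^ (e * K) :=
          Finset.sum_mul _ _ _
      _ ≤ ∑ j : Fin S, (S : ℝ) ^ d * (Fintype.card (Om n (2 ^ e)) : ℝ) :=
          Finset.sum_le_sum fun j _ => cj_step V z hb d (h j) (hh j)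
      _ = _ := by
          rw [Finset.sum_const, nsmul_eq_mul, Finset.card_univ, Fintype.card_fin]
          ring

theorem infl_circ (Ks m : ℕ) : ∀ d b : ℕ, ∃ C e₀ : ℕ, ∀ e ≥ e₀, ∀ n ≤ 2 ^ (e * m),
    ∀ S ≤ 2 ^ (e * Ks), ∀ (V : Finset (Fin n)) (z : Fin n → Bool) (g : (Fin n → Bool) → Bool),
    CJ n S V z b d g → infl g V z ≤ C * 2 ^ (e * d) := by
  classical
  intro d
  induction d with
  | zero =>
    intro b
    refine ⟨b, 0, fun e _ n _ S _ V z g hg => ?_⟩
    rw [mul_zero, pow_zero, mul_one]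
    exact infl_jun hg
  | succ d ih =>
    intro b
    obtain ⟨b', e₁, h₁⟩ := fss b (Ks * d + m)
    obtain ⟨C, e₂, h₂⟩ := ih b'
    refine ⟨C + 1, max e₁ e₂, fun e he n hn S hS V z g hg => ?_⟩
    set N : ℝ := ((Fintype.card (Om n (2 ^ e)) : ℕ) : ℝ) with hN
    have hNpos : 0 < N := by
      rw [hN, card_Om]
      positivity
    set bad := univ.filter fun ω : Om n (2 ^ e) =>
      ¬ CJ n S (nV V ω.1) (nz V z ω.2) b' d g with hbad
    have hbadc := cj_step (K := Ks * d + m) V z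
      (fun F hF => h₁ e (le_of_max_le_left he) n F V z hF) d g hg
    rw [← hbad, ← hN] at hbadc
    have havg := avg_infl (Q := 2 ^ e) g V z
    rw [← hN] at havg
    have hsum : ∑ ω : Om n (2 ^ e), infl g (nV V ω.1) (nz V z ω.2) ≤
        ∑ ω : Om n (2 ^ e), ((C : ℝ) * 2 ^ (e * d) + if ω ∈ bad then (n : ℝ) else 0) := by
      refine Finset.sum_le_sum fun ω _ => ?_
      split_ifs with h
      · have := infl_le g (nV V ω.1) (nz V z ω.2)
        have h0 : (0 : ℝ) ≤ (C : ℝ) * 2 ^ (e * d) := by positivity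
        linarith
      · rw [add_zero]
        have h3 : CJ n S (nV V ω.1) (nz V z ω.2) b' d g := by
          by_contra hcon
          exact h (Finset.mem_filter.2 ⟨Finset.mem_univ _, hcon⟩)
        exact h₂ e (le_of_max_le_right he) n hn S hS _ _ g h3
    rw [Finset.sum_add_distrib, Finset.sum_const, nsmul_eq_mul, Finset.card_univ, ← hN,
      Finset.sum_ite_mem, Finset.univ_inter, Finset.sum_const, nsmul_eq_mul] at hsum
    have hbn : (bad.card : ℝ) * n ≤ N := by
      have h3 : (n : ℝ) ≤ 2 ^ (e * m) := by exact_mod_cast hn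
      have h4 : (S : ℝ) ^ d ≤ 2 ^ (e * (Ks * d)) := by
        have h5 : (S : ℝ) ≤ 2 ^ (e * Ks) := by exact_mod_cast hS
        calc (S : ℝ) ^ d ≤ (2 ^ (e * Ks)) ^ d := pow_le_pow_left₀ (Nat.cast_nonneg _) h5 d
          _ = _ := by rw [← pow_mul, mul_assoc]
      have h5 : (2 : ℝ) ^ (e * (Ks * d + m)) = 2 ^ (e * (Ks * d)) * 2 ^ (e * m) := by
        rw [← pow_add, mul_add]
      rw [h5] at hbadc
      have h6 : (bad.card : ℝ) * (2 ^ (e * (Ks * d)) * 2 ^ (e * m)) ≤ 2 ^ (e * (Ks * d)) * N :=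
        hbadc.trans (mul_le_mul_of_nonneg_right h4 hNpos.le)
      have h7 : (2 : ℝ) ^ (e * (Ks * d)) * ((bad.card : ℝ) * 2 ^ (e * m)) ≤
          2 ^ (e * (Ks * d)) * N := by
        calc _ = (bad.card : ℝ) * (2 ^ (e * (Ks * d)) * 2 ^ (e * m)) := by ring
          _ ≤ _ := h6
      have h8 := le_of_mul_le_mul_left h7 (by positivity)
      exact (mul_le_mul_of_nonneg_left h3 (Nat.cast_nonneg _)).trans h8
    have h9 : N * infl g V z ≤ N * (C * 2 ^ (e * d) + 1) * 2 ^ e := by
      rw [← havg]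
      push_cast
      refine mul_le_mul_of_nonneg_right ?_ (by positivity)
      linarith
    have h10 : infl g V z ≤ (C * 2 ^ (e * d) + 1) * 2 ^ e := by
      rw [mul_assoc] at h9
      exact le_of_mul_le_mul_left h9 hNpos
    have h11 : (2 : ℝ) ^ (e * (d + 1)) = 2 ^ (e * d) * 2 ^ e := by
      rw [← pow_add]
      congr 1
    have h12 : (1 : ℝ) ≤ 2 ^ (e * d) := one_le_pow₀ (by norm_num)
    have h13 : (0 : ℝ) < 2 ^ e := by positivity
    push_cast
    rw [h11]
    nlinarith

/-- The average sensitivity of a function computed by circuits of constant depth and polynomial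
size is at most `n ^ ε`. -/
theorem sens (d K : ℕ) (ε : ℝ) (hε : 0 < ε) : ∀ᶠ n : ℕ in atTop, ∀ g : (Fin n → Bool) → Bool,
    Circ n (n ^ K) d g →
    (∑ j : Fin n, ((univ.filter fun x : Fin n → Bool => g x ≠ g (flip x j)).card : ℝ)) ≤
      (n : ℝ) ^ ε * 2 ^ n := by
  obtain ⟨m, hm1, hm⟩ : ∃ m : ℕ, 1 ≤ m ∧ (2 * d : ℝ) / m ≤ ε / 2 := by
    obtain ⟨m, hm⟩ := exists_nat_ge (max 1 (4 * d / ε))
    have h1 : (1 : ℝ) ≤ m := (le_max_left _ _).trans hm
    have h2 : 4 * d / ε ≤ m := (le_max_right _ _).trans hm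
    refine ⟨m, by exact_mod_cast h1, ?_⟩
    rw [div_le_iff₀ hε] at h2
    rw [div_le_iff₀ (by linarith)]
    linarith
  obtain ⟨C, e₀, h⟩ := infl_circ (m * K) m d 1
  have hlim : Tendsto (fun n : ℕ => (n : ℝ) ^ (ε / 2)) atTop atTop :=
    (tendsto_rpow_atTop (by linarith)).comp tendsto_natCast_atTop_atTop
  filter_upwards [Pool.Agent.Helper45.AC.exists_e m d e₀ hm1, hlim.eventually_ge_atTop
    ((C : ℝ) * 4 ^ d), eventually_ge_atTop 1] with n hn hC hn1 g hg
  obtain ⟨e, he, hn2, _, h4⟩ := hn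
  have hn0 : (1 : ℝ) ≤ n := by exact_mod_cast hn1
  have hS : n ^ K ≤ 2 ^ (e * (m * K)) := by
    calc n ^ K ≤ (2 ^ (e * m)) ^ K := Nat.pow_le_pow_left hn2 K
      _ = _ := by rw [← pow_mul, mul_assoc]
  have h1 := h e he n hn2 (n ^ K) hS univ (fun _ => false) g (cj_of_circ _ _ d g hg)
  have h2 : infl g univ (fun _ => false) =
      (∑ j : Fin n, ((univ.filter fun x : Fin n → Bool => g x ≠ g (flip x j)).card : ℝ)) /
        2 ^ n := by
    unfold infl dens
    rw [Finset.sum_div]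
    refine Finset.sum_congr rfl fun j _ => ?_
    have h3 : (sensSet g j).filter (fun x => InC univ (fun _ => false) x) = sensSet g j := by
      refine Finset.filter_true_of_mem fun x _ i hi => ?_
      exact absurd (Finset.mem_univ i) hi
    rw [h3, Finset.card_univ, Fintype.card_fin]
    rfl
  rw [h2, div_le_iff₀ (by positivity)] at h1
  refine h1.trans (mul_le_mul_of_nonneg_right ?_ (by positivity))
  have h5 : (2 : ℝ) ^ (e * d) ≤ 4 ^ (e * d) := pow_le_pow_left₀ (by norm_num) (by norm_num) _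
  have h6 : (n : ℝ) ^ ((2 * d : ℝ) / m) ≤ (n : ℝ) ^ (ε / 2) :=
    Real.rpow_le_rpow_of_exponent_le hn0 hm
  calc (C : ℝ) * 2 ^ (e * d) ≤ C * 4 ^ (e * d) := mul_le_mul_of_nonneg_left h5 (Nat.cast_nonneg _)
    _ ≤ C * (4 ^ d * (n : ℝ) ^ ((2 * d : ℝ) / m)) :=
      mul_le_mul_of_nonneg_left h4 (Nat.cast_nonneg _)
    _ ≤ C * (4 ^ d * (n : ℝ) ^ (ε / 2)) := by gcongr
    _ = (C * 4 ^ d) * (n : ℝ) ^ (ε / 2) := by ring
    _ ≤ (n : ℝ) ^ (ε / 2) * (n : ℝ) ^ (ε / 2) :=
      mul_le_mul_of_nonneg_right hC (by positivity)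
    _ = (n : ℝ) ^ ε := by
      rw [← Real.rpow_add (by linarith)]
      congr 1
      ring

end Pool.Agent.Helper72.AC
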