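import Pool.Agent.Helper57.U2.Main
import Pool.Agent.Helper7.SC.Sharp2
import Pool.Agent.Helper72.AC.Adv

set_option autoImplicit false

/-!
A choice of representations `n = f(n) + (n - f(n))` with both summands in a set `A` with few
representations on average cannot be guessed, not even with a small advantage: neither by
functions of small sensitivity, or of few digits of `n`, nor from all lower digits and few
further digits. For functions of few digits the bound is sharp. The definitions are in the file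
`Defs` of `Pool/Agent/Helper57/U2`.
-/

namespace Pool.Agent.Helper72.Sens5

open Finset Filter Pool.Agent.Helper57.U2
open Pool.Agent.Helper72.AC (Circ)

theorem result :
    (∀ (b w : ℕ) (ε δ : ℝ), 2 ≤ b → 0 < ε → 0 < δ → ∃ c : ℝ, 0 < c ∧
      ∀ (A D : Set ℕ) (f : ℕ → ℕ), IsChoice A D f → ∀ K : ℕ,
      δ * (b : ℝ) ^ K ≤ #(upTo D (b ^ K)) → ∀ J : ℕ → ℕ → ℕ, Guesses b K ε D f J →
        (∀ s : ℝ, 1 ≤ s → sensitivity b K J ≤ s →
          c * (b : ℝ) ^ K * Real.exp (c * K / s) ≤ ∑ n ∈ range (2 * b ^ K), (rep A n : ℝ) ^ 2) ∧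
        (∀ v : ℕ, 1 ≤ v → (∀ i < K, FewDigits b v (J i)) →
          c * (b : ℝ) ^ K * Real.exp (c * K / v) ≤ ∑ n ∈ range (2 * b ^ K), (rep A n : ℝ) ^ 2) ∧
        ((∀ i < K, MemoryAndFewDigits b w i (J i)) →
          c * (b : ℝ) ^ K * √K ≤ ∑ n ∈ range (2 * b ^ K), (rep A n : ℝ) ^ 2)) ∧
    (∃ C : ℝ, 0 < C ∧ ∀ b v m : ℕ, 2 ≤ b → ∃ (A : Set ℕ) (f : ℕ → ℕ),
      IsChoice A {n | n < b ^ (v * m)} f ∧
      (∀ i < v * m, FewDigits b v fun n => digit b i (f n)) ∧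
      ∑ n ∈ range (2 * b ^ (v * m)), (rep A n : ℝ) ^ 2 ≤ (b : ℝ) ^ (v * m) * Real.exp (C * m)) ∧
    (∀ (d k : ℕ) (ε δ τ : ℝ), 0 < ε → 0 < δ → 0 < τ → ∀ᶠ K : ℕ in atTop,
      ∀ (A D : Set ℕ) (f : ℕ → ℕ), IsChoice A D f → δ * 2 ^ K ≤ #(upTo D (2 ^ K)) →
      ∀ J : ℕ → ℕ → ℕ, Guesses 2 K ε D f J →
      (∀ i < K, Circ K (K ^ k) d fun x => (J i (Nat.ofBits x)).testBit 0) →
        2 ^ K * Real.exp ((K : ℝ) ^ (1 - τ)) ≤ ∑ n ∈ range (2 * 2 ^ K), (rep A n : ℝ) ^ 2) := by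
  refine ⟨fun b w ε δ hb hε hδ => ?_, ?_, fun d k ε δ τ hε hδ hτ =>
    Pool.Agent.Helper72.Adv.advantage d k τ δ ε hτ hδ hε⟩
  · obtain ⟨c, hc, h⟩ := main b w hb ε δ hε hδ
    exact ⟨c, hc, fun A D f hf => (h A D f hf).1⟩
  · obtain ⟨C, hC, h⟩ := Pool.Agent.Helper7.SC.sharp
    refine ⟨C, hC, fun b v m hb => ?_⟩
    obtain ⟨A, f, h1, h2, h3⟩ := h b v m hb
    exact ⟨A, f, h1, h2, h3⟩

end Pool.Agent.Helper72.Sens5
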